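import Mathlib

set_option autoImplicit false
open MeasureTheory Set

namespace Pool.Agent.H414R5

noncomputable section

/-- trapezoidal cut-off on `[0,1]`, equal to `1` on `[1/4,3/4]` -/
def phi (x : ℝ) : ℝ := max 0 (min 1 (min (4 * x) (4 * (1 - x))))

/-- kernel of the sparse operator of the tree of depth `n` -/
def kk (ε : ℝ) : ℕ → ℝ → ℝ → ℝ
  | 0, _, _ => 0
  | n + 1, x, y => phi x * phi y + ε⁻¹ * kk ε n ((x - 1/4) / ε) ((y - 1/4) / ε)
      + ε⁻¹ * kk ε n ((x - 1/2) / ε) ((y - 1/2) / ε)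

/-- the kernel made of blocks, block `m` living on `[2m, 2m+1]` -/
def KK (e : ℕ → ℝ) (n : ℕ → ℕ) (x y : ℝ) : ℝ :=
  kk (e ⌊y/2⌋₊) (n ⌊y/2⌋₊) (x - 2 * (⌊y/2⌋₊ : ℝ)) (y - 2 * (⌊y/2⌋₊ : ℝ))

/-- profile with a zero of order `κ` at `11/16` -/
def qq (κ x : ℝ) : ℝ := (min 1 |16 * x - 11|) ^ κ

/-- parameters -/
structure Par where
  ε : ℝ
  J : ℕ
  h : ℝ

namespace Par

variable (P : Par)

/-- bulk value in state `j` -/
def b (j : ℕ) : ℝ := P.ε ^ (P.J - j) / P.h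

/-- exponent of the zero -/
def kap (j : ℕ) : ℝ := if j < P.J then 0 else 1 - 1 / P.h

/-- next state -/
def nx (j : ℕ) : ℕ := min (j + 1) P.J

/-- bulk average -/
def mu (j : ℕ) : ℝ := ∫ x in (0:ℝ)..1, qq (P.kap j) x

/-- factor of the climbing child -/
def A (j : ℕ) : ℝ := (1 - P.ε - P.b j * (P.mu j - 2 * P.ε)) / P.ε

/-- left child -/
def Cs : Set ℝ := Ico (1/4) (1/4 + P.ε)
/-- right child -/
def Cc : Set ℝ := Ico (1/2) (1/2 + P.ε)

open Classical in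
/-- the weight -/
def wt : ℕ → ℕ → ℝ → ℝ
  | 0, _, _ => 1
  | n + 1, j, x =>
      if x ∈ P.Cs then wt n (P.nx j) ((x - 1/4) / P.ε)
      else if x ∈ P.Cc then P.A j * wt n 1 ((x - 1/2) / P.ε)
      else P.b j * qq (P.kap j) x

open Classical in
/-- the test function times `w` -/
def gg : ℕ → ℕ → ℝ → ℝ
  | 0, _, _ => 0
  | n + 1, j, x =>
      if x ∈ P.Cs then gg n (P.nx j) ((x - 1/4) / P.ε)
      else if x ∈ P.Cc then P.A j * gg n 1 ((x - 1/2) / P.ε)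
      else if x ∈ Ico (5/8 : ℝ) (3/4) then (if j = P.J then (P.J : ℝ) else 0)
      else 0

/-- standing assumptions -/
structure Good : Prop where
  e0 : 0 < P.ε
  e1 : P.ε ≤ 1 / 16
  J2 : 2 ≤ P.J
  hh : P.h = (P.ε ^ (4 * P.J))⁻¹
  sm : P.ε * (P.J * Real.log (1 / P.ε)) ≤ 1 / 64

end Par

end

end Pool.Agent.H414R5
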