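import Pool.Agent.H414R5.Defs

set_option autoImplicit false
open MeasureTheory Set

namespace Pool.Agent.H414R5

lemma phi_nonneg (x : ℝ) : 0 ≤ phi x := le_max_left _ _

lemma phi_le_one (x : ℝ) : phi x ≤ 1 := max_le zero_le_one (min_le_left _ _)

lemma phi_zero_left {x : ℝ} (hx : x ≤ 0) : phi x = 0 := by
  unfold phi
  apply max_eq_left
  exact (min_le_right _ _).trans ((min_le_left _ _).trans (by linarith))

lemma phi_zero_right {x : ℝ} (hx : 1 ≤ x) : phi x = 0 := by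
  unfold phi
  apply max_eq_left
  exact (min_le_right _ _).trans ((min_le_right _ _).trans (by linarith))

lemma phi_one {x : ℝ} (h1 : 1/4 ≤ x) (h2 : x ≤ 3/4) : phi x = 1 := by
  unfold phi
  rw [min_eq_left (le_min (by linarith) (by linarith))]
  simp

lemma phi_cont : Continuous phi := by
  unfold phi
  fun_prop

lemma phi_lip (x y : ℝ) : |phi x - phi y| ≤ 4 * |x - y| := by
  have h0 : |phi x - phi y| ≤ |min 1 (min (4 * x) (4 * (1 - x))) - min 1 (min (4 * y) (4 * (1 - y)))| := by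
    unfold phi
    have := abs_max_sub_max_le_max (0:ℝ) (min 1 (min (4 * x) (4 * (1 - x)))) 0 (min 1 (min (4 * y) (4 * (1 - y))))
    refine this.trans ?_
    simp
  have h1 : |min 1 (min (4 * x) (4 * (1 - x))) - min 1 (min (4 * y) (4 * (1 - y)))|
      ≤ |min (4 * x) (4 * (1 - x)) - min (4 * y) (4 * (1 - y))| := by
    have := abs_min_sub_min_le_max (1:ℝ) (min (4 * x) (4 * (1 - x))) 1 (min (4 * y) (4 * (1 - y)))
    refine this.trans ?_
    simp
  have h2 : |min (4 * x) (4 * (1 - x)) - min (4 * y) (4 * (1 - y))| ≤ 4 * |x - y| := by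
    refine (abs_min_sub_min_le_max _ _ _ _).trans (max_le ?_ ?_)
    · rw [← mul_sub, abs_mul]; norm_num
    · rw [← mul_sub, abs_mul]
      have : 1 - x - (1 - y) = -(x - y) := by ring
      rw [this, abs_neg]; norm_num
  exact h0.trans (h1.trans h2)

section

variable {ε : ℝ} (e0 : 0 < ε) (e1 : ε ≤ 1/16)

lemma kk_symm (n : ℕ) (x y : ℝ) : kk ε n x y = kk ε n y x := by
  induction n generalizing x y with
  | zero => rfl
  | succ n ih =>
    simp only [kk]
    rw [ih ((x - 1/4) / ε), ih ((x - 1/2) / ε)]; ring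

include e0

lemma kk_nonneg (n : ℕ) (x y : ℝ) : 0 ≤ kk ε n x y := by
  induction n generalizing x y with
  | zero => exact le_rfl
  | succ n ih =>
    simp only [kk]
    have h1 := mul_nonneg (phi_nonneg x) (phi_nonneg y)
    have h2 := mul_nonneg (inv_nonneg.2 e0.le) (ih ((x - 1/4) / ε) ((y - 1/4) / ε))
    have h3 := mul_nonneg (inv_nonneg.2 e0.le) (ih ((x - 1/2) / ε) ((y - 1/2) / ε))
    linarith

lemma kk_cont (n : ℕ) : Continuous (fun p : ℝ × ℝ => kk ε n p.1 p.2) := by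
  induction n with
  | zero => simp only [kk]; exact continuous_const
  | succ n ih =>
    simp only [kk]
    have h1 : Continuous fun p : ℝ × ℝ => kk ε n ((p.1 - 1/4) / ε) ((p.2 - 1/4) / ε) :=
      ih.comp (by fun_prop : Continuous fun p : ℝ × ℝ => ((p.1 - 1/4) / ε, (p.2 - 1/4) / ε))
    have h2 : Continuous fun p : ℝ × ℝ => kk ε n ((p.1 - 1/2) / ε) ((p.2 - 1/2) / ε) :=
      ih.comp (by fun_prop : Continuous fun p : ℝ × ℝ => ((p.1 - 1/2) / ε, (p.2 - 1/2) / ε))
    have h3 := phi_cont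
    fun_prop

include e1

lemma kk_supp (n : ℕ) {x : ℝ} (y : ℝ) (hx : x < 0 ∨ 1 < x) : kk ε n x y = 0 := by
  induction n generalizing x y with
  | zero => rfl
  | succ n ih =>
    simp only [kk]
    have h1 : phi x = 0 := by
      rcases hx with h | h
      · exact phi_zero_left h.le
      · exact phi_zero_right h.le
    have h2 : (x - 1/4) / ε < 0 ∨ 1 < (x - 1/4) / ε := by
      rcases hx with h | h
      · left; exact div_neg_of_neg_of_pos (by linarith) e0
      · right; rw [one_lt_div e0]; linarith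
    have h3 : (x - 1/2) / ε < 0 ∨ 1 < (x - 1/2) / ε := by
      rcases hx with h | h
      · left; exact div_neg_of_neg_of_pos (by linarith) e0
      · right; rw [one_lt_div e0]; linarith
    rw [h1, ih _ h2, ih _ h3]; ring

lemma kk_supp' (n : ℕ) (x : ℝ) {y : ℝ} (hy : y < 0 ∨ 1 < y) : kk ε n x y = 0 := by
  rw [kk_symm]; exact kk_supp e0 e1 n x hy

lemma kk_out (n : ℕ) {c x : ℝ} (y : ℝ) (hx : x < c ∨ c + ε < x) : kk ε n ((x - c) / ε) y = 0 := by
  apply kk_supp e0 e1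
  rcases hx with h | h
  · left; exact div_neg_of_neg_of_pos (by linarith) e0
  · right; rw [one_lt_div e0]; linarith

lemma kk_out' (n : ℕ) {c y : ℝ} (x : ℝ) (hy : y < c ∨ c + ε < y) : kk ε n x ((y - c) / ε) = 0 := by
  rw [kk_symm]; exact kk_out e0 e1 n x hy

lemma kk_size0 (n : ℕ) {x y : ℝ} (hx : 0 ≤ x ∧ x ≤ 1) (hy : 0 ≤ y ∧ y ≤ 1) :
    kk ε n x y * |x - y| ≤ 2 - |x - y| := by
  have key : ∀ {x y : ℝ}, 0 ≤ x ∧ x ≤ 1 → 0 ≤ y ∧ y ≤ 1 → |x - y| ≤ 1 := by
    intro x y hx hy; rw [abs_le]; constructor <;> linarith [hx.1, hx.2, hy.1, hy.2]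
  induction n generalizing x y with
  | zero =>
    simp only [kk, zero_mul]; linarith [key hx hy]
  | succ n ih =>
    simp only [kk]
    have hxy := key hx hy
    have hxy0 := abs_nonneg (x - y)
    have hp : phi x * phi y ≤ 1 := by
      calc phi x * phi y ≤ 1 * 1 :=
            mul_le_mul (phi_le_one x) (phi_le_one y) (phi_nonneg y) zero_le_one
        _ = 1 := by ring
    have hp0 : phi x * phi y * |x - y| ≤ |x - y| := by nlinarith
    have hei : 16 ≤ ε⁻¹ := by
      rw [le_inv_comm₀ (by norm_num) e0]; linarith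
    -- the child bound
    have ch : ∀ c : ℝ, (c ≤ x ∧ x ≤ c + ε) → (c ≤ y ∧ y ≤ c + ε) →
        ε⁻¹ * kk ε n ((x - c) / ε) ((y - c) / ε) * |x - y| ≤ 2 - ε⁻¹ * |x - y| := by
      intro c h1 h2
      have i1 := ih (x := (x - c) / ε) (y := (y - c) / ε)
        ⟨div_nonneg (by linarith [h1.1]) e0.le, by rw [div_le_one e0]; linarith [h1.2]⟩
        ⟨div_nonneg (by linarith [h2.1]) e0.le, by rw [div_le_one e0]; linarith [h2.2]⟩
      have e : |(x - c) / ε - (y - c) / ε| = ε⁻¹ * |x - y| := by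
        rw [← sub_div, abs_div, abs_of_pos e0, sub_sub_sub_cancel_right]; ring
      rw [e] at i1
      linarith
    by_cases hA : (1/4 ≤ x ∧ x ≤ 1/4 + ε) ∧ (1/4 ≤ y ∧ y ≤ 1/4 + ε)
    · have h1 := ch (1/4) hA.1 hA.2
      have h2 : kk ε n ((x - 1/2) / ε) ((y - 1/2) / ε) = 0 :=
        kk_out e0 e1 n _ (Or.inl (by linarith [hA.1.2]))
      rw [h2]
      nlinarith
    by_cases hB : (1/2 ≤ x ∧ x ≤ 1/2 + ε) ∧ (1/2 ≤ y ∧ y ≤ 1/2 + ε)
    · have h1 := ch (1/2) hB.1 hB.2
      have h2 : kk ε n ((x - 1/4) / ε) ((y - 1/4) / ε) = 0 :=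
        kk_out e0 e1 n _ (Or.inr (by linarith [hB.1.1]))
      rw [h2]
      nlinarith
    have out : ∀ c : ℝ, ¬ ((c ≤ x ∧ x ≤ c + ε) ∧ (c ≤ y ∧ y ≤ c + ε)) →
        kk ε n ((x - c) / ε) ((y - c) / ε) = 0 := by
      intro c hc
      by_cases h1 : x < c ∨ c + ε < x
      · exact kk_out e0 e1 n _ h1
      · by_cases h2 : y < c ∨ c + ε < y
        · exact kk_out' e0 e1 n _ h2
        · push Not at h1 h2
          exact absurd ⟨h1, h2⟩ hc
    rw [out _ hA, out _ hB]
    nlinarith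

lemma kk_size (n : ℕ) (x y : ℝ) : kk ε n x y * |x - y| ≤ 2 := by
  by_cases hx : x < 0 ∨ 1 < x
  · rw [kk_supp e0 e1 n y hx]; norm_num
  by_cases hy : y < 0 ∨ 1 < y
  · rw [kk_supp' e0 e1 n x hy]; norm_num
  push Not at hx hy
  have := kk_size0 e0 e1 n hx hy
  linarith [abs_nonneg (x - y)]

lemma kk_far (n : ℕ) {x y : ℝ} (h : 1 < |x - y|) : kk ε n x y = 0 := by
  by_cases hx : x < 0 ∨ 1 < x
  · exact kk_supp e0 e1 n y hx
  by_cases hy : y < 0 ∨ 1 < y
  · exact kk_supp' e0 e1 n x hy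
  push Not at hx hy
  exfalso
  have : |x - y| ≤ 1 := by rw [abs_le]; constructor <;> linarith [hx.1, hx.2, hy.1, hy.2]
  linarith

lemma kk_reg0 (n : ℕ) {x x' y v : ℝ} (hv : 0 < v) (hv1 : v ≤ 1) (h1 : v ≤ |x - y|) (h2 : v ≤ |x' - y|) :
    |kk ε n x y - kk ε n x' y| ≤ |x - x'| * (5 / v ^ 2 - 1) := by
  induction n generalizing x x' y v with
  | zero =>
    simp only [kk, sub_self, abs_zero]
    have : 1 ≤ 5 / v ^ 2 := by
      rw [le_div_iff₀ (by positivity)]; nlinarith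
    have h0 := abs_nonneg (x - x')
    nlinarith
  | succ n ih =>
    have h5 : 5 ≤ 5 / v ^ 2 := by
      rw [le_div_iff₀ (by positivity)]; nlinarith
    have h0 := abs_nonneg (x - x')
    have hei : 16 ≤ ε⁻¹ := by
      rw [le_inv_comm₀ (by norm_num) e0]; linarith
    have hphi : |phi x * phi y - phi x' * phi y| ≤ 4 * |x - x'| := by
      rw [← sub_mul, abs_mul, abs_of_nonneg (phi_nonneg y)]
      have := phi_lip x x'
      have := phi_le_one y
      have := phi_nonneg y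
      have := abs_nonneg (phi x - phi x')
      nlinarith
    have ch : ∀ c : ℝ, |ε⁻¹ * kk ε n ((x - c) / ε) ((y - c) / ε)
        - ε⁻¹ * kk ε n ((x' - c) / ε) ((y - c) / ε)| ≤ |x - x'| * (5 / v ^ 2 - 5) := by
      intro c
      have e : ∀ a b : ℝ, |(a - c) / ε - (b - c) / ε| = |a - b| / ε := by
        intro a b
        rw [← sub_div, abs_div, abs_of_pos e0, sub_sub_sub_cancel_right]
      rw [← mul_sub, abs_mul, abs_of_pos (inv_pos.2 e0)]
      by_cases hve : v / ε ≤ 1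
      · have i1 := ih (x := (x - c) / ε) (x' := (x' - c) / ε) (y := (y - c) / ε) (v := v / ε)
          (by positivity) hve (by rw [e]; gcongr) (by rw [e]; gcongr)
        rw [e] at i1
        calc ε⁻¹ * |kk ε n ((x - c) / ε) ((y - c) / ε) - kk ε n ((x' - c) / ε) ((y - c) / ε)|
            ≤ ε⁻¹ * (|x - x'| / ε * (5 / (v / ε) ^ 2 - 1)) := by gcongr
          _ = |x - x'| * (5 / v ^ 2 - ε⁻¹ ^ 2) := by field_simp
          _ ≤ |x - x'| * (5 / v ^ 2 - 5) := by
            apply mul_le_mul_of_nonneg_left _ h0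
            nlinarith
      · push Not at hve
        have k1 : kk ε n ((x - c) / ε) ((y - c) / ε) = 0 := by
          apply kk_far e0 e1; rw [e]; exact hve.trans_le (by gcongr)
        have k2 : kk ε n ((x' - c) / ε) ((y - c) / ε) = 0 := by
          apply kk_far e0 e1; rw [e]; exact hve.trans_le (by gcongr)
        rw [k1, k2, sub_self, abs_zero, mul_zero]
        apply mul_nonneg h0; linarith
    simp only [kk]
    by_cases hy : y < 1/4 ∨ 1/4 + ε < y
    · have k1 : kk ε n ((x - 1/4) / ε) ((y - 1/4) / ε) = 0 := kk_out' e0 e1 n _ hy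
      have k2 : kk ε n ((x' - 1/4) / ε) ((y - 1/4) / ε) = 0 := kk_out' e0 e1 n _ hy
      rw [k1, k2]
      have c1 := ch (1/2)
      calc _ = |(phi x * phi y - phi x' * phi y) + (ε⁻¹ * kk ε n ((x - 1/2) / ε) ((y - 1/2) / ε)
        - ε⁻¹ * kk ε n ((x' - 1/2) / ε) ((y - 1/2) / ε))| := by congr 1; ring
        _ ≤ |phi x * phi y - phi x' * phi y| + |ε⁻¹ * kk ε n ((x - 1/2) / ε) ((y - 1/2) / ε)
        - ε⁻¹ * kk ε n ((x' - 1/2) / ε) ((y - 1/2) / ε)| := abs_add_le _ _
        _ ≤ 4 * |x - x'| + |x - x'| * (5 / v ^ 2 - 5) := by gcongr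
        _ = _ := by ring
    · push Not at hy
      have hy2 : y < 1/2 ∨ 1/2 + ε < y := Or.inl (by linarith [hy.2])
      have k1 : kk ε n ((x - 1/2) / ε) ((y - 1/2) / ε) = 0 := kk_out' e0 e1 n _ hy2
      have k2 : kk ε n ((x' - 1/2) / ε) ((y - 1/2) / ε) = 0 := kk_out' e0 e1 n _ hy2
      rw [k1, k2]
      have c1 := ch (1/4)
      calc _ = |(phi x * phi y - phi x' * phi y) + (ε⁻¹ * kk ε n ((x - 1/4) / ε) ((y - 1/4) / ε)
        - ε⁻¹ * kk ε n ((x' - 1/4) / ε) ((y - 1/4) / ε))| := by congr 1; ring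
        _ ≤ |phi x * phi y - phi x' * phi y| + |ε⁻¹ * kk ε n ((x - 1/4) / ε) ((y - 1/4) / ε)
        - ε⁻¹ * kk ε n ((x' - 1/4) / ε) ((y - 1/4) / ε)| := abs_add_le _ _
        _ ≤ 4 * |x - x'| + |x - x'| * (5 / v ^ 2 - 5) := by gcongr
        _ = _ := by ring

lemma kk_reg (n : ℕ) {x x' y v : ℝ} (hv : 0 < v) (h1 : v ≤ |x - y|) (h2 : v ≤ |x' - y|) :
    |kk ε n x y - kk ε n x' y| ≤ 5 * |x - x'| / v ^ 2 := by
  by_cases hv1 : v ≤ 1
  · have := kk_reg0 e0 e1 n hv hv1 h1 h2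
    have h0 := abs_nonneg (x - x')
    calc _ ≤ _ := this
      _ = 5 * |x - x'| / v ^ 2 - |x - x'| := by ring
      _ ≤ _ := by linarith
  · push Not at hv1
    rw [kk_far e0 e1 n (hv1.trans_le h1), kk_far e0 e1 n (hv1.trans_le h2), sub_self, abs_zero]
    positivity

end

end Pool.Agent.H414R5
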