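import Pool.Agent.H414R5.W3

set_option autoImplicit false
set_option linter.unusedSectionVars false
open MeasureTheory Set

namespace Pool.Agent.H414R5

lemma ii_max0 {f : ℝ → ℝ} {a b : ℝ} (h : IntervalIntegrable f volume a b) :
    IntervalIntegrable (fun x => max (f x) 0) volume a b := ⟨h.1.pos_part, h.2.pos_part⟩

lemma int_child {F : ℝ → ℝ} (hF : ∀ a b, IntervalIntegrable F volume a b) {c e : ℝ}
    (h0 : 0 ≤ c) (he : 0 < e) (h1 : c + e ≤ 1) (v : ℝ) :
    ∫ x in (0:ℝ)..1, (Ico c (c + e)).indicator (fun x => F ((x - c) / e) - v) x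
      = e * ((∫ x in (0:ℝ)..1, F x) - v) := by
  have m1 : max 0 c = c := max_eq_right h0
  have m2 : min 1 (c + e) = c + e := min_eq_right h1
  rw [int_ind (by norm_num) _ (by rw [m1, m2]; linarith), m1, m2,
    intervalIntegral.integral_sub (ii_comp hF c he _ _) intervalIntegrable_const,
    int_comp F _ _ _ he, intervalIntegral.integral_const]
  have a1 : (c - c) / e = 0 := by simp
  have a2 : (c + e - c) / e = 1 := by rw [add_sub_cancel_left]; exact div_self he.ne'
  rw [a1, a2, smul_eq_mul]; ring

lemma loc_le {f : ℝ → ℝ} (hf : ∀ a b, IntervalIntegrable f volume a b) (hn : ∀ x, 0 ≤ f x)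
    {c d v S : ℝ} (hcd : c ≤ d) {a b : ℝ} (hab : a ≤ b)
    (ho : ∀ x ∈ Icc a b, x ∉ Ico c d → f x ≤ v) (hv : 0 ≤ v)
    (hS : (∫ x in c..d, f x) ≤ S) : (∫ x in a..b, f x) ≤ (b - a) * v + S := by
  have hS0 : 0 ≤ S := (intervalIntegral.integral_nonneg hcd (fun x _ => hn x)).trans hS
  have i1 := ii_ind (measurableSet_Ico (a := c) (b := d)) (hf a b)
  have h1 : (∫ x in a..b, f x) ≤ ∫ x in a..b, (v + (Ico c d).indicator f x) := by
    apply intervalIntegral.integral_mono_on hab (hf a b) (intervalIntegrable_const.add i1)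
    intro x hx
    by_cases h : x ∈ Ico c d
    · rw [indicator_of_mem h]; linarith
    · rw [indicator_of_notMem h]; linarith [ho x hx h]
  rw [intervalIntegral.integral_add intervalIntegrable_const i1,
    intervalIntegral.integral_const, smul_eq_mul] at h1
  have h2 : ∫ x in a..b, (Ico c d).indicator f x ≤ S := by
    by_cases hm : max a c ≤ min b d
    · rw [int_ind hab f hm]
      refine le_trans ?_ hS
      exact intervalIntegral.integral_mono_interval (le_max_right _ _) hm (min_le_right _ _)
        (Filter.Eventually.of_forall hn) (hf c d)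
    · rw [int_ind_zero hab f (not_le.1 hm).le]; exact hS0
  linarith

lemma loc_ge {f : ℝ → ℝ} (hf : ∀ a b, IntervalIntegrable f volume a b)
    {c d u v S : ℝ} {a b : ℝ} (hab : a ≤ b) (hm : max a c ≤ min b d)
    (ho : ∀ x ∈ Icc a b, x ∉ Ico c d → v ≤ f x)
    (hS : (∫ x in c..d, max (u - f x) 0) ≤ S) :
    (b - a) * v + (min b d - max a c) * (u - v) - S ≤ ∫ x in a..b, f x := by
  have iu : ∀ a b, IntervalIntegrable (fun x => max (u - f x) 0) volume a b := fun a b =>
    ii_max0 (intervalIntegrable_const.sub (hf a b))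
  have i1 := ii_ind (measurableSet_Ico (a := c) (b := d))
    ((intervalIntegrable_const (c := u - v)).sub (iu a b))
  have h1 : ∫ x in a..b, (v + (Ico c d).indicator (fun x => (u - v) - max (u - f x) 0) x)
      ≤ ∫ x in a..b, f x := by
    apply intervalIntegral.integral_mono_on hab (intervalIntegrable_const.add i1) (hf a b)
    intro x hx
    by_cases h : x ∈ Ico c d
    · rw [indicator_of_mem h]; linarith [le_max_left (u - f x) 0]
    · rw [indicator_of_notMem h]; linarith [ho x hx h]
  rw [intervalIntegral.integral_add intervalIntegrable_const i1,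
    intervalIntegral.integral_const, smul_eq_mul, int_ind hab _ hm,
    intervalIntegral.integral_sub intervalIntegrable_const (iu _ _),
    intervalIntegral.integral_const, smul_eq_mul] at h1
  have h2 : ∫ x in (max a c)..(min b d), max (u - f x) 0 ≤ S := by
    refine le_trans ?_ hS
    exact intervalIntegral.integral_mono_interval (le_max_right _ _) hm (min_le_right _ _)
      (Filter.Eventually.of_forall (fun x => le_max_right _ _)) (iu c d)
  linarith

namespace Par

variable {P : Par}

namespace Good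

variable (G : P.Good)
include G

lemma Cs_sub {x : ℝ} (hx : x ∈ P.Cs) : 1/4 ≤ x ∧ x < 5/16 :=
  ⟨hx.1, by have := hx.2; have := G.e1; linarith⟩

lemma Cc_sub {x : ℝ} (hx : x ∈ P.Cc) : 1/2 ≤ x ∧ x < 9/16 :=
  ⟨hx.1, by have := hx.2; have := G.e1; linarith⟩

lemma split (F : ℝ → ℝ) (n j : ℕ) (x : ℝ) :
    F (P.wt (n+1) j x) = F (P.b j * qq (P.kap j) x)
      + P.Cs.indicator (fun x => F (P.wt n (P.nx j) ((x - 1/4) / P.ε)) - F (P.b j)) x
      + P.Cc.indicator (fun x => F (P.A j * P.wt n 1 ((x - 1/2) / P.ε)) - F (P.b j)) x := by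
  by_cases h1 : x ∈ P.Cs
  · have h2 : x ∉ P.Cc := fun h2 => by
      have a1 := G.Cs_sub h1; have a2 := G.Cc_sub h2; linarith [a1.2, a2.1]
    rw [indicator_of_mem h1, indicator_of_notMem h2,
      G.qq_one (Or.inl (by have := G.Cs_sub h1; linarith [this.2]))]
    simp only [wt, if_pos h1, mul_one]; ring
  · by_cases h2 : x ∈ P.Cc
    · rw [indicator_of_notMem h1, indicator_of_mem h2,
        G.qq_one (Or.inl (by have := G.Cc_sub h2; linarith [this.2]))]
      simp only [wt, if_neg h1, if_pos h2, mul_one]; ring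
    · rw [indicator_of_notMem h1, indicator_of_notMem h2]
      simp only [wt, if_neg h1, if_neg h2]; ring

lemma ii_F (F : ℝ → ℝ)
    (hq : ∀ j a b, IntervalIntegrable (fun x => F (P.b j * qq (P.kap j) x)) volume a b)
    (hA : ∀ n j, (∀ a b, IntervalIntegrable (fun x => F (P.wt n 1 x)) volume a b) →
      ∀ a b, IntervalIntegrable (fun x => F (P.A j * P.wt n 1 x)) volume a b)
    (n j : ℕ) (a b : ℝ) :
    IntervalIntegrable (fun x => F (P.wt n j x)) volume a b := by
  induction n generalizing j a b with
  | zero => simp only [wt]; exact intervalIntegrable_const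
  | succ n ih =>
    have e : (fun x => F (P.wt (n+1) j x)) = fun x => F (P.b j * qq (P.kap j) x)
      + P.Cs.indicator (fun x => F (P.wt n (P.nx j) ((x - 1/4) / P.ε)) - F (P.b j)) x
      + P.Cc.indicator (fun x => F (P.A j * P.wt n 1 ((x - 1/2) / P.ε)) - F (P.b j)) x :=
      funext (G.split F n j)
    rw [e]
    exact ((hq j a b).add (ii_ind measurableSet_Ico
      ((ii_comp (ih (P.nx j)) _ G.e0 a b).sub intervalIntegrable_const))).add
      (ii_ind measurableSet_Ico
      ((ii_comp (hA n j (ih 1)) _ G.e0 a b).sub intervalIntegrable_const))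

lemma int_split (F : ℝ → ℝ) (n j : ℕ)
    (h1 : ∀ a b, IntervalIntegrable (fun x => F (P.b j * qq (P.kap j) x)) volume a b)
    (h2 : ∀ a b, IntervalIntegrable (fun x => F (P.wt n (P.nx j) x)) volume a b)
    (h3 : ∀ a b, IntervalIntegrable (fun x => F (P.A j * P.wt n 1 x)) volume a b) :
    ∫ x in (0:ℝ)..1, F (P.wt (n+1) j x) = (∫ x in (0:ℝ)..1, F (P.b j * qq (P.kap j) x))
      + P.ε * ((∫ x in (0:ℝ)..1, F (P.wt n (P.nx j) x)) - F (P.b j))
      + P.ε * ((∫ x in (0:ℝ)..1, F (P.A j * P.wt n 1 x)) - F (P.b j)) := by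
  have e0 := G.e0
  have e1 := G.e1
  have e : (fun x => F (P.wt (n+1) j x)) = fun x => F (P.b j * qq (P.kap j) x)
      + P.Cs.indicator (fun x => F (P.wt n (P.nx j) ((x - 1/4) / P.ε)) - F (P.b j)) x
      + P.Cc.indicator (fun x => F (P.A j * P.wt n 1 ((x - 1/2) / P.ε)) - F (P.b j)) x :=
      funext (G.split F n j)
  have i2 : IntervalIntegrable (P.Cs.indicator (fun x => F (P.wt n (P.nx j) ((x - 1/4) / P.ε)) - F (P.b j))) volume 0 1 :=
    ii_ind measurableSet_Ico ((ii_comp h2 _ G.e0 0 1).sub intervalIntegrable_const)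
  have i3 : IntervalIntegrable (P.Cc.indicator (fun x => F (P.A j * P.wt n 1 ((x - 1/2) / P.ε)) - F (P.b j))) volume 0 1 :=
    ii_ind measurableSet_Ico ((ii_comp h3 _ G.e0 0 1).sub intervalIntegrable_const)
  rw [e, intervalIntegral.integral_add ((h1 0 1).add i2) i3,
    intervalIntegral.integral_add (h1 0 1) i2]
  congr 1
  · congr 1
    exact int_child h2 (by norm_num) G.e0 (by linarith) _
  · exact int_child h3 (by norm_num) G.e0 (by linarith) _

lemma wt_nonneg (n j : ℕ) (x : ℝ) : 0 ≤ P.wt n j x := by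
  induction n generalizing j x with
  | zero => simp [wt]
  | succ n ih =>
    simp only [wt]
    split_ifs
    · exact ih _ _
    · exact mul_nonneg (by linarith [G.A_one j]) (ih _ _)
    · exact mul_nonneg (G.b_pos j).le (pf_nonneg _ _)

lemma zero_count (n j : ℕ) : {x | P.wt n j x = 0}.Countable := by
  induction n generalizing j with
  | zero => simp [wt]
  | succ n ih =>
    have inj : ∀ c : ℝ, Function.Injective (fun x : ℝ => (x - c) / P.ε) := by
      intro c x y hxy
      have h0 := G.e0.ne'
      simp only at hxy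
      rw [div_left_inj' h0] at hxy
      linarith
    have h1 := (ih (P.nx j)).preimage_of_injOn ((inj (1/4)).injOn)
    have h2 := (ih 1).preimage_of_injOn ((inj (1/2)).injOn)
    refine ((h1.union h2).union (countable_singleton (11/16 : ℝ))).mono ?_
    intro x hx
    simp only [mem_setOf_eq, wt] at hx
    split_ifs at hx with a1 a2
    · left; left; exact hx
    · left; right
      rcases mul_eq_zero.1 hx with h | h
      · exact absurd h (by linarith [G.A_one j])
      · exact h
    · right
      rcases mul_eq_zero.1 hx with h | h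
      · exact absurd h (G.b_pos j).ne'
      · rw [qq, Real.rpow_eq_zero_iff_of_nonneg (by positivity)] at h
        have h3 := h.1
        have h4 : |16 * x - 11| = 0 := by
          rcases min_choice 1 |16 * x - 11| with h5 | h5
          · rw [h5] at h3; norm_num at h3
          · rw [h5] at h3; exact h3
        rw [abs_eq_zero] at h4
        rw [mem_singleton_iff]; linarith

lemma wt_ne (n j : ℕ) : ∀ᵐ x, P.wt n j x ≠ 0 := by
  have := (G.zero_count n j).ae_notMem volume
  filter_upwards [this] with x hx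
  exact hx

lemma log_A (n j : ℕ) : ∀ᵐ x, Real.log (P.A j * P.wt n 1 x) = Real.log (P.A j) + Real.log (P.wt n 1 x) := by
  filter_upwards [G.wt_ne n 1] with x hx
  rw [Real.log_mul (by linarith [G.A_one j]) hx]

lemma qi_inv (j : ℕ) (a b : ℝ) : IntervalIntegrable (fun x => (qq (P.kap j) x)⁻¹) volume a b := by
  have h := ii_comp (pf_ii_inv (P.kap j) (G.kap_nonneg j) (G.kap_lt j)) (11/16) (e := 1/16) (by norm_num) a b
  have e : (fun x : ℝ => (pf (P.kap j) ((x - 11/16) / (1/16)))⁻¹) = fun x => (qq (P.kap j) x)⁻¹ := by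
    ext x; rw [qq_eq]; congr 2; ring
  rw [← e]; exact h

lemma qi_log (j : ℕ) (a b : ℝ) : IntervalIntegrable (fun x => Real.log (qq (P.kap j) x)) volume a b := by
  have h := ii_comp (pf_ii_log (P.kap j) (G.kap_nonneg j)) (11/16) (e := 1/16) (by norm_num) a b
  have e : (fun x : ℝ => Real.log (pf (P.kap j) ((x - 11/16) / (1/16)))) = fun x => Real.log (qq (P.kap j) x) := by
    ext x; rw [qq_eq]; congr 2; ring
  rw [← e]; exact h

lemma qq_ne (j : ℕ) : ∀ᵐ x, qq (P.kap j) x ≠ 0 := by
  have := (countable_singleton (11/16 : ℝ)).ae_notMem volume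
  filter_upwards [this] with x hx h
  rw [qq, Real.rpow_eq_zero_iff_of_nonneg (by positivity)] at h
  have h3 := h.1
  have h4 : |16 * x - 11| = 0 := by
    rcases min_choice 1 |16 * x - 11| with h5 | h5
    · rw [h5] at h3; norm_num at h3
    · rw [h5] at h3; exact h3
  rw [abs_eq_zero] at h4
  apply hx
  rw [mem_singleton_iff]; linarith

lemma ii1 (n j : ℕ) (a b : ℝ) : IntervalIntegrable (P.wt n j) volume a b :=
  G.ii_F (fun x => x) (fun j a b => (G.qii j a b).const_mul _)
    (fun _ j h a b => (h a b).const_mul _) n j a b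

lemma ii2 (n j : ℕ) (a b : ℝ) : IntervalIntegrable (fun x => (P.wt n j x)⁻¹) volume a b := by
  refine G.ii_F (fun x => x⁻¹) ?_ ?_ n j a b
  · intro j a b
    simp only [mul_inv]
    exact (G.qi_inv j a b).const_mul _
  · intro n j h a b
    simp only [mul_inv]
    exact (h a b).const_mul _

lemma ii3 (n j : ℕ) (a b : ℝ) : IntervalIntegrable (fun x => Real.log (P.wt n j x)) volume a b := by
  refine G.ii_F (fun x => Real.log x) ?_ ?_ n j a b
  · intro j a b
    refine ((intervalIntegrable_const (c := Real.log (P.b j))).add (G.qi_log j a b)).congr_ae ?_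
    apply ae_restrict_of_ae
    filter_upwards [G.qq_ne j] with x hx
    rw [Real.log_mul (G.b_pos j).ne' hx]
  · intro n j h a b
    refine ((intervalIntegrable_const (c := Real.log (P.A j))).add (h a b)).congr_ae ?_
    apply ae_restrict_of_ae
    filter_upwards [G.log_A n j] with x hx
    rw [hx]

/-- (A1) -/
lemma ag1 (n j : ℕ) : ∫ x in (0:ℝ)..1, P.wt n j x = 1 := by
  induction n generalizing j with
  | zero => simp [wt]
  | succ n ih =>
    have := G.int_split (fun x => x) n j (fun a b => (G.qii j a b).const_mul _)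
      (G.ii1 n (P.nx j)) (fun a b => (G.ii1 n 1 a b).const_mul _)
    rw [this, intervalIntegral.integral_const_mul, intervalIntegral.integral_const_mul, ih, ih]
    have h := G.A_mul j
    change P.b j * P.mu j + _ + _ = 1
    linear_combination h

end Good

end Par

end Pool.Agent.H414R5
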