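import Pool.Agent.H414R5.K1
import Pool.Agent.H414R5.W4

set_option autoImplicit false
set_option linter.unusedSectionVars false
open MeasureTheory Set

namespace Pool.Agent.H414R5

open Classical in
/-- Schur function of a block -/
noncomputable def HH (ε : ℝ) : ℕ → ℝ → ℝ
  | 0, _ => 1
  | n + 1, x =>
      if x ∈ Ico (1/4 : ℝ) (1/4 + ε) then 2 * HH ε n ((x - 1/4) / ε)
      else if x ∈ Ico (1/2 : ℝ) (1/2 + ε) then 2 * HH ε n ((x - 1/2) / ε)
      else 1

section

variable {ε : ℝ} (e0 : 0 < ε) (e1 : ε ≤ 1/16)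
include e0 e1

lemma kk_supp2 (n : ℕ) {x : ℝ} (y : ℝ) (hx : 1 ≤ x) : kk ε n x y = 0 := by
  rcases hx.eq_or_lt with h | h
  · subst h
    cases n with
    | zero => rfl
    | succ n =>
      simp only [kk]
      rw [phi_zero_right le_rfl, kk_out e0 e1 n _ (Or.inr (by linarith)),
        kk_out e0 e1 n _ (Or.inr (by linarith))]
      ring
  · exact kk_supp e0 e1 n y (Or.inr h)

lemma kk_ico (n : ℕ) {c x : ℝ} (y : ℝ) (hx : x ∉ Ico c (c + ε)) : kk ε n ((x - c) / ε) y = 0 := by
  by_cases h : x < c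
  · exact kk_out e0 e1 n y (Or.inl h)
  · apply kk_supp2 e0 e1
    rw [le_div_iff₀ e0]
    push Not at h
    by_contra h2
    exact hx ⟨h, by linarith⟩

lemma kk_ico' (n : ℕ) {c y : ℝ} (x : ℝ) (hy : y ∉ Ico c (c + ε)) : kk ε n x ((y - c) / ε) = 0 := by
  rw [kk_symm]; exact kk_ico e0 e1 n x hy

lemma kk_cont_y (n : ℕ) (x : ℝ) : Continuous (fun y => kk ε n x y) :=
  (kk_cont e0 n).comp (by fun_prop : Continuous fun y : ℝ => (x, y))

lemma kk_mul_ii (n : ℕ) (x : ℝ) {u : ℝ → ℝ} (hu : ∀ a b, IntervalIntegrable u volume a b) (a b : ℝ) :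
    IntervalIntegrable (fun y => kk ε n x y * u y) volume a b :=
  (hu a b).continuousOn_mul (kk_cont_y e0 e1 n x).continuousOn

lemma kk_int (n : ℕ) (x : ℝ) {u u1 u2 : ℝ → ℝ} (hu : ∀ a b, IntervalIntegrable u volume a b)
    (hu1 : ∀ a b, IntervalIntegrable u1 volume a b) (hu2 : ∀ a b, IntervalIntegrable u2 volume a b)
    (h1 : ∀ y ∈ Ico (1/4 : ℝ) (1/4 + ε), u y = u1 ((y - 1/4) / ε))
    (h2 : ∀ y ∈ Ico (1/2 : ℝ) (1/2 + ε), u y = u2 ((y - 1/2) / ε)) :
    ∫ y in (0:ℝ)..1, kk ε (n+1) x y * u y = phi x * (∫ y in (0:ℝ)..1, phi y * u y)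
      + (∫ y in (0:ℝ)..1, kk ε n ((x - 1/4) / ε) y * u1 y)
      + (∫ y in (0:ℝ)..1, kk ε n ((x - 1/2) / ε) y * u2 y) := by
  have gen : ∀ c : ℝ, 0 ≤ c → c + ε ≤ 1 → ∀ v : ℝ → ℝ, (∀ a b, IntervalIntegrable v volume a b) →
      (∀ y ∈ Ico c (c + ε), u y = v ((y - c) / ε)) →
      (∫ y in (0:ℝ)..1, ε⁻¹ * kk ε n ((x - c) / ε) ((y - c) / ε) * u y)
        = ∫ y in (0:ℝ)..1, kk ε n ((x - c) / ε) y * v y := by
    intro c c0 c1 v hv hc
    have hF : ∀ a b, IntervalIntegrable (fun z => ε⁻¹ * (kk ε n ((x - c) / ε) z * v z)) volume a b :=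
      fun a b => (kk_mul_ii e0 e1 n _ hv a b).const_mul _
    have i1 := int_child hF c0 e0 c1 0
    rw [intervalIntegral.integral_const_mul] at i1
    have e : (fun y => ε⁻¹ * kk ε n ((x - c) / ε) ((y - c) / ε) * u y)
        = (Ico c (c + ε)).indicator
          (fun y => ε⁻¹ * (kk ε n ((x - c) / ε) ((y - c) / ε) * v ((y - c) / ε)) - 0) := by
      ext y
      by_cases hy : y ∈ Ico c (c + ε)
      · rw [indicator_of_mem hy, hc y hy]; ring
      · rw [indicator_of_notMem hy, kk_ico' e0 e1 n _ hy]; ring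
    rw [e, i1]
    field_simp
    ring
  have k1 := gen (1/4) (by norm_num) (by linarith) u1 hu1 h1
  have k2 := gen (1/2) (by norm_num) (by linarith) u2 hu2 h2
  have ip : IntervalIntegrable (fun y => phi x * (phi y * u y)) volume 0 1 :=
    ((hu 0 1).continuousOn_mul phi_cont.continuousOn).const_mul _
  have ic : ∀ c : ℝ, IntervalIntegrable
      (fun y => ε⁻¹ * kk ε n ((x - c) / ε) ((y - c) / ε) * u y) volume 0 1 := by
    intro c
    apply (hu 0 1).continuousOn_mul
    apply Continuous.continuousOn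
    have := (kk_cont_y e0 e1 n ((x - c) / ε)).comp (by fun_prop : Continuous fun y : ℝ => (y - c) / ε)
    exact continuous_const.mul this
  rw [← k1, ← k2, ← intervalIntegral.integral_const_mul,
    ← intervalIntegral.integral_add ip (ic _),
    ← intervalIntegral.integral_add (ip.add (ic _)) (ic _)]
  congr 1; ext y
  simp only [kk]; ring

lemma HH_one (n : ℕ) (x : ℝ) : 1 ≤ HH ε n x := by
  induction n generalizing x with
  | zero => exact le_rfl
  | succ n ih =>
    simp only [HH]
    split_ifs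
    · linarith [ih ((x - 1/4) / ε)]
    · linarith [ih ((x - 1/2) / ε)]
    · exact le_rfl

lemma HH_split (n : ℕ) (x : ℝ) : HH ε (n+1) x = 1
      + (Ico (1/4 : ℝ) (1/4 + ε)).indicator (fun x => 2 * HH ε n ((x - 1/4) / ε) - 1) x
      + (Ico (1/2 : ℝ) (1/2 + ε)).indicator (fun x => 2 * HH ε n ((x - 1/2) / ε) - 1) x := by
  by_cases h1 : x ∈ Ico (1/4 : ℝ) (1/4 + ε)
  · have h2 : x ∉ Ico (1/2 : ℝ) (1/2 + ε) := fun h2 => by linarith [h1.2, h2.1]
    rw [indicator_of_mem h1, indicator_of_notMem h2]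
    simp only [HH, if_pos h1]; ring
  · by_cases h2 : x ∈ Ico (1/2 : ℝ) (1/2 + ε)
    · rw [indicator_of_notMem h1, indicator_of_mem h2]
      simp only [HH, if_neg h1, if_pos h2]; ring
    · rw [indicator_of_notMem h1, indicator_of_notMem h2]
      simp only [HH, if_neg h1, if_neg h2]; ring

lemma HH_ii (n : ℕ) (a b : ℝ) : IntervalIntegrable (HH ε n) volume a b := by
  induction n generalizing a b with
  | zero => exact intervalIntegrable_const (c := (1:ℝ))
  | succ n ih =>
    have e : HH ε (n+1) = fun x => 1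
      + (Ico (1/4 : ℝ) (1/4 + ε)).indicator (fun x => 2 * HH ε n ((x - 1/4) / ε) - 1) x
      + (Ico (1/2 : ℝ) (1/2 + ε)).indicator (fun x => 2 * HH ε n ((x - 1/2) / ε) - 1) x :=
      funext (HH_split e0 e1 n)
    rw [e]
    exact (intervalIntegrable_const.add (ii_ind measurableSet_Ico
      (((ii_comp ih _ e0 a b).const_mul 2).sub intervalIntegrable_const))).add
      (ii_ind measurableSet_Ico
      (((ii_comp ih _ e0 a b).const_mul 2).sub intervalIntegrable_const))

lemma HH_meas (n : ℕ) : Measurable (HH ε n) := by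
  induction n with
  | zero => exact measurable_const
  | succ n ih =>
    have e : HH ε (n+1) = fun x => 1
      + (Ico (1/4 : ℝ) (1/4 + ε)).indicator (fun x => 2 * HH ε n ((x - 1/4) / ε) - 1) x
      + (Ico (1/2 : ℝ) (1/2 + ε)).indicator (fun x => 2 * HH ε n ((x - 1/2) / ε) - 1) x :=
      funext (HH_split e0 e1 n)
    rw [e]
    have m1 : Measurable fun x : ℝ => 2 * HH ε n ((x - 1/4) / ε) - 1 := by
      have : Measurable fun x : ℝ => HH ε n ((x - 1/4) / ε) := ih.comp (by fun_prop)
      exact (this.const_mul 2).sub_const 1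
    have m2 : Measurable fun x : ℝ => 2 * HH ε n ((x - 1/2) / ε) - 1 := by
      have : Measurable fun x : ℝ => HH ε n ((x - 1/2) / ε) := ih.comp (by fun_prop)
      exact (this.const_mul 2).sub_const 1
    exact (measurable_const.add (m1.indicator measurableSet_Ico)).add (m2.indicator measurableSet_Ico)

lemma HH_int (n : ℕ) : ∫ x in (0:ℝ)..1, HH ε n x ≤ 2 := by
  induction n with
  | zero => simp [HH]
  | succ n ih =>
    have e : HH ε (n+1) = fun x => 1
      + (Ico (1/4 : ℝ) (1/4 + ε)).indicator (fun x => 2 * HH ε n ((x - 1/4) / ε) - 1) x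
      + (Ico (1/2 : ℝ) (1/2 + ε)).indicator (fun x => 2 * HH ε n ((x - 1/2) / ε) - 1) x :=
      funext (HH_split e0 e1 n)
    have hI : ∀ a b, IntervalIntegrable (fun x => 2 * HH ε n x) volume a b :=
      fun a b => (HH_ii e0 e1 n a b).const_mul 2
    have i1 := int_child hI (c := 1/4) (by norm_num) e0 (by linarith) 1
    have i2 := int_child hI (c := 1/2) (by norm_num) e0 (by linarith) 1
    have ii1 : ∀ c : ℝ, IntervalIntegrable ((Ico c (c + ε)).indicator
        (fun x => 2 * HH ε n ((x - c) / ε) - 1)) volume 0 1 := fun c =>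
      ii_ind measurableSet_Ico ((ii_comp hI _ e0 0 1).sub intervalIntegrable_const)
    rw [e, intervalIntegral.integral_add (intervalIntegrable_const.add (ii1 _)) (ii1 _),
      intervalIntegral.integral_add intervalIntegrable_const (ii1 _), i1, i2,
      intervalIntegral.integral_const_mul]
    simp only [intervalIntegral.integral_const, sub_zero, smul_eq_mul, mul_one]
    nlinarith

/-- Schur inequality on a block -/
lemma schur (n : ℕ) (x : ℝ) : ∫ y in (0:ℝ)..1, kk ε n x y * HH ε n y ≤ 4 * HH ε n x - 2 := by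
  induction n generalizing x with
  | zero => simp [kk, HH]; norm_num
  | succ n ih =>
    have hI : ∀ a b, IntervalIntegrable (fun x => 2 * HH ε n x) volume a b :=
      fun a b => (HH_ii e0 e1 n a b).const_mul 2
    have k := kk_int e0 e1 n x (HH_ii e0 e1 (n+1)) hI hI
      (fun y hy => by simp only [HH, if_pos hy])
      (fun y hy => by
        have h2 : y ∉ Ico (1/4 : ℝ) (1/4 + ε) := fun h2 => by linarith [h2.2, hy.1]
        simp only [HH, if_pos hy, if_neg h2])
    rw [k]
    have p1 : phi x * (∫ y in (0:ℝ)..1, phi y * HH ε (n+1) y) ≤ 2 := by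
      have q1 : ∫ y in (0:ℝ)..1, phi y * HH ε (n+1) y ≤ ∫ y in (0:ℝ)..1, HH ε (n+1) y := by
        apply intervalIntegral.integral_mono_on (by norm_num)
          ((HH_ii e0 e1 (n+1) 0 1).continuousOn_mul phi_cont.continuousOn) (HH_ii e0 e1 (n+1) 0 1)
        intro y _
        have := phi_le_one y
        have := HH_one e0 e1 (n+1) y
        nlinarith
      have q2 : 0 ≤ ∫ y in (0:ℝ)..1, phi y * HH ε (n+1) y :=
        intervalIntegral.integral_nonneg (by norm_num) (fun y _ =>
          mul_nonneg (phi_nonneg y) (by linarith [HH_one e0 e1 (n+1) y]))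
      have q3 := HH_int e0 e1 (n+1)
      have := phi_le_one x
      have := phi_nonneg x
      nlinarith
    have z : ∀ c : ℝ, x ∉ Ico c (c + ε) →
        ∫ y in (0:ℝ)..1, kk ε n ((x - c) / ε) y * (2 * HH ε n y) = 0 := by
      intro c hc
      have : (fun y => kk ε n ((x - c) / ε) y * (2 * HH ε n y)) = fun _ => 0 := by
        ext y; rw [kk_ico e0 e1 n y hc, zero_mul]
      rw [this]; simp
    have s : ∀ c : ℝ, ∫ y in (0:ℝ)..1, kk ε n ((x - c) / ε) y * (2 * HH ε n y)
        ≤ 2 * (4 * HH ε n ((x - c) / ε) - 2) := by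
      intro c
      have : (fun y => kk ε n ((x - c) / ε) y * (2 * HH ε n y))
          = fun y => 2 * (kk ε n ((x - c) / ε) y * HH ε n y) := by ext y; ring
      rw [this, intervalIntegral.integral_const_mul]
      linarith [ih ((x - c) / ε)]
    by_cases h1 : x ∈ Ico (1/4 : ℝ) (1/4 + ε)
    · have h2 : x ∉ Ico (1/2 : ℝ) (1/2 + ε) := fun h2 => by linarith [h1.2, h2.1]
      rw [z _ h2]
      have := s (1/4)
      have e : HH ε (n+1) x = 2 * HH ε n ((x - 1/4) / ε) := by simp only [HH, if_pos h1]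
      rw [e]; linarith
    · rw [z _ h1]
      by_cases h2 : x ∈ Ico (1/2 : ℝ) (1/2 + ε)
      · have := s (1/2)
        have e : HH ε (n+1) x = 2 * HH ε n ((x - 1/2) / ε) := by
          simp only [HH, if_neg h1, if_pos h2]
        rw [e]; linarith
      · rw [z _ h2]
        have := HH_one e0 e1 (n+1) x
        linarith

end

end Pool.Agent.H414R5
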