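import Pool.Agent.H414R5.K2

set_option autoImplicit false
set_option linter.unusedSectionVars false
open MeasureTheory Set
open scoped ENNReal

namespace Pool.Agent.H414R5

lemma cs (a b : ℝ → ℝ≥0∞) (ha : AEMeasurable a) (hb : AEMeasurable b) :
    (∫⁻ x, a x * b x) ^ 2 ≤ (∫⁻ x, a x ^ 2) * ∫⁻ x, b x ^ 2 := by
  have h := ENNReal.lintegral_mul_le_Lp_mul_Lq volume Real.HolderConjugate.two_two ha hb
  simp only [Pi.mul_apply, ENNReal.rpow_two] at h
  calc _ ≤ ((∫⁻ x, a x ^ 2) ^ (1 / 2 : ℝ) * (∫⁻ x, b x ^ 2) ^ (1 / 2 : ℝ)) ^ 2 := by gcongr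
    _ = _ := by
      rw [mul_pow, ← ENNReal.rpow_natCast, ← ENNReal.rpow_natCast, ← ENNReal.rpow_mul,
        ← ENNReal.rpow_mul]
      norm_num

lemma floor_eq {m : ℕ} {y : ℝ} (h0 : 0 ≤ y - 2 * m) (h1 : y - 2 * m ≤ 1) : ⌊y / 2⌋₊ = m := by
  have hm : (0:ℝ) ≤ m := by positivity
  rw [Nat.floor_eq_iff (by linarith)]
  constructor <;> linarith

/-- global Schur function -/
noncomputable def HG (e : ℕ → ℝ) (n : ℕ → ℕ) (x : ℝ) : ℝ :=
  HH (e ⌊x/2⌋₊) (n ⌊x/2⌋₊) (x - 2 * (⌊x/2⌋₊ : ℝ))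

section

variable {e : ℕ → ℝ} (n : ℕ → ℕ) (e0 : ∀ m, 0 < e m) (e1 : ∀ m, e m ≤ 1/16)
include e0 e1

lemma KK_nonneg (x y : ℝ) : 0 ≤ KK e n x y := kk_nonneg (e0 _) _ _ _

lemma KK_mem {m : ℕ} {x y : ℝ} (h : (0 ≤ x - 2 * m ∧ x - 2 * m ≤ 1) ∨ (0 ≤ y - 2 * m ∧ y - 2 * m ≤ 1)) :
    KK e n x y = kk (e m) (n m) (x - 2 * m) (y - 2 * m) := by
  rcases h with h | h
  · by_cases hm : ⌊y / 2⌋₊ = m
    · unfold KK; rw [hm]
    · have h1 : KK e n x y = 0 := by
        unfold KK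
        apply kk_supp (e0 _) (e1 _)
        rcases Nat.lt_or_gt_of_ne hm with h2 | h2
        · right
          have : ((⌊y / 2⌋₊ : ℕ) : ℝ) + 1 ≤ m := by exact_mod_cast h2
          linarith [h.1]
        · left
          have : (m : ℝ) + 1 ≤ ((⌊y / 2⌋₊ : ℕ) : ℝ) := by exact_mod_cast h2
          linarith [h.2]
      rw [h1]
      symm
      apply kk_supp' (e0 _) (e1 _)
      by_contra h3
      push Not at h3
      exact hm (floor_eq h3.1 h3.2)
  · unfold KK; rw [floor_eq h.1 h.2]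

lemma KK_symm (x y : ℝ) : KK e n x y = KK e n y x := by
  by_cases h : 0 ≤ x - 2 * (⌊x / 2⌋₊ : ℝ) ∧ x - 2 * (⌊x / 2⌋₊ : ℝ) ≤ 1
  · rw [KK_mem n e0 e1 (m := ⌊x / 2⌋₊) (Or.inl h), KK_mem n e0 e1 (m := ⌊x / 2⌋₊) (Or.inr h), kk_symm]
  · have h1 : KK e n y x = 0 := by
      unfold KK
      apply kk_supp' (e0 _) (e1 _)
      by_contra h3
      push Not at h3
      exact h h3
    rw [h1]
    unfold KK
    apply kk_supp (e0 _) (e1 _)
    by_contra h3
    push Not at h3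
    have := floor_eq h3.1 h3.2
    rw [← this] at h3
    exact h h3

lemma KK_floor (x y : ℝ) : KK e n x y
    = kk (e ⌊x/2⌋₊) (n ⌊x/2⌋₊) (x - 2 * (⌊x/2⌋₊ : ℝ)) (y - 2 * (⌊x/2⌋₊ : ℝ)) := by
  rw [KK_symm n e0 e1, kk_symm]; rfl

lemma KK_size (x y : ℝ) : KK e n x y * |x - y| ≤ 2 := by
  unfold KK
  have := kk_size (e0 ⌊y/2⌋₊) (e1 _) (n ⌊y/2⌋₊) (x - 2 * (⌊y/2⌋₊ : ℝ)) (y - 2 * (⌊y/2⌋₊ : ℝ))
  rwa [sub_sub_sub_cancel_right] at this

lemma KK_reg {x x' y v : ℝ} (hv : 0 < v) (h1 : v ≤ |x - y|) (h2 : v ≤ |x' - y|) :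
    |KK e n x y - KK e n x' y| ≤ 5 * |x - x'| / v ^ 2 := by
  unfold KK
  have := kk_reg (e0 ⌊y/2⌋₊) (e1 _) (n ⌊y/2⌋₊) (x := x - 2 * (⌊y/2⌋₊ : ℝ)) (x' := x' - 2 * (⌊y/2⌋₊ : ℝ))
    (y := y - 2 * (⌊y/2⌋₊ : ℝ)) hv (by rwa [sub_sub_sub_cancel_right]) (by rwa [sub_sub_sub_cancel_right])
  rwa [sub_sub_sub_cancel_right] at this

lemma KK_meas : Measurable (fun p : ℝ × ℝ => KK e n p.1 p.2) := by
  have h1 : Measurable (fun q : ℕ × (ℝ × ℝ) =>
      kk (e q.1) (n q.1) (q.2.1 - 2 * (q.1 : ℝ)) (q.2.2 - 2 * (q.1 : ℝ))) := by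
    apply measurable_from_prod_countable_right
    intro m
    exact ((kk_cont (e0 m) (n m)).comp
      (by fun_prop : Continuous fun p : ℝ × ℝ => (p.1 - 2 * (m:ℝ), p.2 - 2 * (m:ℝ)))).measurable
  have h2 : Measurable (fun p : ℝ × ℝ => ((⌊p.2 / 2⌋₊, p) : ℕ × (ℝ × ℝ))) := by
    apply Measurable.prodMk _ measurable_id
    exact Nat.measurable_floor.comp (by fun_prop)
  exact h1.comp h2

lemma HG_meas : Measurable (HG e n) := by
  have h1 : Measurable (fun q : ℕ × ℝ => HH (e q.1) (n q.1) (q.2 - 2 * (q.1 : ℝ))) := by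
    apply measurable_from_prod_countable_right
    intro m
    exact (HH_meas (e0 m) (e1 m) (n m)).comp (by fun_prop)
  have h2 : Measurable (fun x : ℝ => ((⌊x / 2⌋₊, x) : ℕ × ℝ)) := by
    apply Measurable.prodMk _ measurable_id
    exact Nat.measurable_floor.comp (by fun_prop)
  exact h1.comp h2

lemma HG_one (x : ℝ) : 1 ≤ HG e n x := HH_one (e0 _) (e1 _) _ _

lemma schurG (x : ℝ) : ∫⁻ y, ENNReal.ofReal (KK e n x y * HG e n y) ≤ ENNReal.ofReal (4 * HG e n x) := by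
  set m := ⌊x/2⌋₊ with hm
  have hint : ∀ a b, IntervalIntegrable
      (fun z => kk (e m) (n m) (x - 2 * m) z * HH (e m) (n m) z) volume a b :=
    kk_mul_ii (e0 m) (e1 m) _ _ (HH_ii (e0 m) (e1 m) (n m))
  have h1 : ∀ y, KK e n x y * HG e n y
      = (fun z => kk (e m) (n m) (x - 2 * m) z * HH (e m) (n m) z) (y - 2 * m) := by
    intro y
    rw [KK_floor n e0 e1, ← hm]
    simp only
    by_cases hy : y - 2 * (m:ℝ) < 0 ∨ 1 < y - 2 * (m:ℝ)
    · rw [kk_supp' (e0 m) (e1 m) (n m) _ hy]; simp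
    · push Not at hy
      unfold HG
      rw [floor_eq hy.1 hy.2]
  simp_rw [h1]
  rw [lintegral_sub_right_eq_self
    (fun y => ENNReal.ofReal ((fun z => kk (e m) (n m) (x - 2 * m) z * HH (e m) (n m) z) y)) (2 * (m:ℝ))]
  have h2 : (fun z => ENNReal.ofReal ((fun z => kk (e m) (n m) (x - 2 * m) z * HH (e m) (n m) z) z))
      = (Icc (0:ℝ) 1).indicator
        (fun z => ENNReal.ofReal (kk (e m) (n m) (x - 2 * m) z * HH (e m) (n m) z)) := by
    ext z
    by_cases hz : z ∈ Icc (0:ℝ) 1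
    · rw [indicator_of_mem hz]
    · rw [indicator_of_notMem hz]
      have : z < 0 ∨ 1 < z := by
        by_contra h; push Not at h; exact hz h
      simp only
      rw [kk_supp' (e0 m) (e1 m) (n m) _ this]; simp
  rw [h2, lintegral_indicator measurableSet_Icc, ← restrict_Ioc_eq_restrict_Icc,
    ← ofReal_integral_eq_lintegral_ofReal (hint 0 1).1]
  · apply ENNReal.ofReal_le_ofReal
    have := schur (e0 m) (e1 m) (n m) (x - 2 * m)
    rw [intervalIntegral.integral_of_le (by norm_num)] at this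
    have e2 : HG e n x = HH (e m) (n m) (x - 2 * m) := rfl
    rw [e2]
    linarith
  · apply Filter.Eventually.of_forall
    intro z
    exact mul_nonneg (kk_nonneg (e0 m) _ _ _) (by linarith [HH_one (e0 m) (e1 m) (n m) z])

lemma schurL2 (g : ℝ → ℝ≥0∞) (hg : Measurable g) :
    ∫⁻ x, (∫⁻ y, ENNReal.ofReal (KK e n x y) * g y) ^ 2 ≤ 16 * ∫⁻ y, g y ^ 2 := by
  have mK : Measurable (fun p : ℝ × ℝ => KK e n p.1 p.2) := KK_meas n e0 e1
  have mH := HG_meas n e0 e1
  have mKx : ∀ x, Measurable (fun y => KK e n x y) := fun x =>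
    mK.comp (by fun_prop : Measurable fun y : ℝ => (x, y))
  have step1 : ∀ x, (∫⁻ y, ENNReal.ofReal (KK e n x y) * g y) ^ 2
      ≤ ENNReal.ofReal (4 * HG e n x) * ∫⁻ y, ENNReal.ofReal (KK e n x y / HG e n y) * g y ^ 2 := by
    intro x
    have c := cs (fun y => ENNReal.ofReal (Real.sqrt (KK e n x y * HG e n y)))
      (fun y => ENNReal.ofReal (Real.sqrt (KK e n x y / HG e n y)) * g y)
      (((mKx x).mul mH).sqrt.ennreal_ofReal.aemeasurable)
      ((((mKx x).div mH).sqrt.ennreal_ofReal.mul hg).aemeasurable)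
    have a1 : ∀ y, ENNReal.ofReal (Real.sqrt (KK e n x y * HG e n y))
        * (ENNReal.ofReal (Real.sqrt (KK e n x y / HG e n y)) * g y)
        = ENNReal.ofReal (KK e n x y) * g y := by
      intro y
      have hk := KK_nonneg n e0 e1 x y
      have hh := HG_one n e0 e1 y
      rw [← mul_assoc, ← ENNReal.ofReal_mul (Real.sqrt_nonneg _), ← Real.sqrt_mul (by positivity)]
      congr 2
      have : KK e n x y * HG e n y * (KK e n x y / HG e n y) = KK e n x y ^ 2 := by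
        field_simp
      rw [this, Real.sqrt_sq hk]
    have a2 : ∀ y, ENNReal.ofReal (Real.sqrt (KK e n x y * HG e n y)) ^ 2
        = ENNReal.ofReal (KK e n x y * HG e n y) := by
      intro y
      have hk := KK_nonneg n e0 e1 x y
      have hh := HG_one n e0 e1 y
      rw [← ENNReal.ofReal_pow (Real.sqrt_nonneg _), Real.sq_sqrt (by positivity)]
    have a3 : ∀ y, (ENNReal.ofReal (Real.sqrt (KK e n x y / HG e n y)) * g y) ^ 2
        = ENNReal.ofReal (KK e n x y / HG e n y) * g y ^ 2 := by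
      intro y
      have hk := KK_nonneg n e0 e1 x y
      have hh := HG_one n e0 e1 y
      rw [mul_pow, ← ENNReal.ofReal_pow (Real.sqrt_nonneg _), Real.sq_sqrt (by positivity)]
    simp_rw [a1, a2, a3] at c
    refine c.trans ?_
    gcongr
    exact schurG n e0 e1 x
  calc ∫⁻ x, (∫⁻ y, ENNReal.ofReal (KK e n x y) * g y) ^ 2
      ≤ ∫⁻ x, ENNReal.ofReal (4 * HG e n x) * ∫⁻ y, ENNReal.ofReal (KK e n x y / HG e n y) * g y ^ 2 :=
        lintegral_mono step1
    _ = ∫⁻ x, ∫⁻ y, ENNReal.ofReal (4 * HG e n x) * (ENNReal.ofReal (KK e n x y / HG e n y) * g y ^ 2) := by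
        congr 1; ext x
        rw [lintegral_const_mul]
        exact ((mKx x).div mH).ennreal_ofReal.mul (hg.pow_const 2)
    _ = ∫⁻ y, ∫⁻ x, ENNReal.ofReal (4 * HG e n x) * (ENNReal.ofReal (KK e n x y / HG e n y) * g y ^ 2) := by
        apply lintegral_lintegral_swap
        apply Measurable.aemeasurable
        have m1 : Measurable fun p : ℝ × ℝ => ENNReal.ofReal (4 * HG e n p.1) :=
          ((mH.comp measurable_fst).const_mul 4).ennreal_ofReal
        have m2 : Measurable fun p : ℝ × ℝ => ENNReal.ofReal (KK e n p.1 p.2 / HG e n p.2) :=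
          (mK.div (mH.comp measurable_snd)).ennreal_ofReal
        have m3 : Measurable fun p : ℝ × ℝ => g p.2 ^ 2 := (hg.comp measurable_snd).pow_const 2
        exact m1.mul (m2.mul m3)
    _ ≤ ∫⁻ y, 16 * g y ^ 2 := by
        apply lintegral_mono
        intro y
        have hh := HG_one n e0 e1 y
        have b1 : ∀ x, ENNReal.ofReal (4 * HG e n x) * (ENNReal.ofReal (KK e n x y / HG e n y) * g y ^ 2)
            = (ENNReal.ofReal (4 / HG e n y) * g y ^ 2) * ENNReal.ofReal (KK e n y x * HG e n x) := by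
          intro x
          have hk := KK_nonneg n e0 e1 x y
          have hx := HG_one n e0 e1 x
          rw [KK_symm n e0 e1 y x]
          calc _ = (ENNReal.ofReal (4 * HG e n x) * ENNReal.ofReal (KK e n x y / HG e n y)) * g y ^ 2 := by
                rw [mul_assoc]
            _ = ENNReal.ofReal ((4 / HG e n y) * (KK e n x y * HG e n x)) * g y ^ 2 := by
                rw [← ENNReal.ofReal_mul (by positivity)]
                congr 2
                field_simp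
            _ = _ := by rw [ENNReal.ofReal_mul (by positivity)]; ring
        simp_rw [b1]
        have m4 : Measurable fun x => ENNReal.ofReal (KK e n y x * HG e n x) :=
          ((mKx y).mul mH).ennreal_ofReal
        rw [lintegral_const_mul _ m4]
        calc (ENNReal.ofReal (4 / HG e n y) * g y ^ 2) * ∫⁻ x, ENNReal.ofReal (KK e n y x * HG e n x)
            ≤ (ENNReal.ofReal (4 / HG e n y) * g y ^ 2) * ENNReal.ofReal (4 * HG e n y) := by
              gcongr; exact schurG n e0 e1 y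
          _ = ENNReal.ofReal (4 / HG e n y * (4 * HG e n y)) * g y ^ 2 := by
              rw [ENNReal.ofReal_mul (p := 4 / HG e n y) (by positivity)]; ring
          _ = 16 * g y ^ 2 := by
              have : 4 / HG e n y * (4 * HG e n y) = 16 := by field_simp; norm_num
              rw [this]; norm_num
    _ = 16 * ∫⁻ y, g y ^ 2 := lintegral_const_mul _ (hg.pow_const 2)

/-- the operator -/
noncomputable def TT (e : ℕ → ℝ) (n : ℕ → ℕ) (f : ℝ → ℝ) (x : ℝ) : ℝ := ∫ y, KK e n x y * f y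

lemma KK_memLp (x : ℝ) : MemLp (fun y => KK e n x y) 2 volume := by
  have e' : (fun y => KK e n x y)
      = fun y => kk (e ⌊x/2⌋₊) (n ⌊x/2⌋₊) (x - 2 * (⌊x/2⌋₊ : ℝ)) (y - 2 * (⌊x/2⌋₊ : ℝ)) :=
    funext (KK_floor n e0 e1 x)
  rw [e']
  apply Continuous.memLp_of_hasCompactSupport
  · exact (kk_cont_y (e0 _) (e1 _) _ _).comp (by fun_prop)
  · apply HasCompactSupport.intro (K := Icc (2 * (⌊x/2⌋₊ : ℝ)) (2 * (⌊x/2⌋₊ : ℝ) + 1)) isCompact_Icc
    intro y hy
    apply kk_supp' (e0 _) (e1 _)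
    by_contra h
    push Not at h
    exact hy ⟨by linarith [h.1], by linarith [h.2]⟩

lemma KK_integrable {f : ℝ → ℝ} (hf : MemLp f 2 volume) (x : ℝ) :
    Integrable (fun y => KK e n x y * f y) :=
  (KK_memLp n e0 e1 x).integrable_mul hf

lemma TT_L2 {f : ℝ → ℝ} (hf : MemLp f 2 volume) :
    MemLp (TT e n f) 2 volume ∧ eLpNorm (TT e n f) 2 volume ≤ 4 * eLpNorm f 2 volume := by
  obtain ⟨g, hg, hfg⟩ := hf.1
  have hTg : TT e n f = TT e n g := by
    ext x
    unfold TT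
    apply integral_congr_ae
    filter_upwards [hfg] with y hy
    rw [hy]
  have mK : Measurable (fun p : ℝ × ℝ => KK e n p.1 p.2) := KK_meas n e0 e1
  have hm : StronglyMeasurable (TT e n g) := by
    have : StronglyMeasurable (Function.uncurry fun x y => KK e n x y * g y) :=
      (mK.mul (hg.measurable.comp measurable_snd)).stronglyMeasurable
    exact this.integral_prod_right
  have hb : ∫⁻ x, ‖TT e n g x‖ₑ ^ 2 ≤ 16 * ∫⁻ y, ‖g y‖ₑ ^ 2 := by
    refine le_trans (lintegral_mono ?_) (schurL2 n e0 e1 (fun y => ‖g y‖ₑ) hg.measurable.enorm)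
    intro x
    simp only
    gcongr
    refine (enorm_integral_le_lintegral_enorm _).trans (le_of_eq ?_)
    congr 1; ext y
    rw [enorm_mul, Real.enorm_eq_ofReal (KK_nonneg n e0 e1 x y)]
  have en : ∀ u : ℝ → ℝ, eLpNorm u 2 volume = (∫⁻ x, ‖u x‖ₑ ^ 2) ^ (1 / 2 : ℝ) := by
    intro u
    rw [eLpNorm_eq_lintegral_rpow_enorm_toReal (by norm_num) (by norm_num)]
    simp
  have hle : eLpNorm (TT e n g) 2 volume ≤ 4 * eLpNorm g 2 volume := by
    rw [en, en]
    calc (∫⁻ x, ‖TT e n g x‖ₑ ^ 2) ^ (1 / 2 : ℝ) ≤ (16 * ∫⁻ y, ‖g y‖ₑ ^ 2) ^ (1 / 2 : ℝ) := by gcongr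
      _ = 16 ^ (1/2 : ℝ) * (∫⁻ y, ‖g y‖ₑ ^ 2) ^ (1 / 2 : ℝ) := by
          rw [ENNReal.mul_rpow_of_nonneg _ _ (by norm_num)]
      _ = 4 * (∫⁻ y, ‖g y‖ₑ ^ 2) ^ (1 / 2 : ℝ) := by
          congr 1
          rw [show (16 : ℝ≥0∞) = 4 ^ (2:ℝ) by rw [ENNReal.rpow_two]; norm_num, ← ENNReal.rpow_mul]
          norm_num
  rw [hTg, eLpNorm_congr_ae hfg]
  refine ⟨⟨hm.aestronglyMeasurable, ?_⟩, hle⟩
  refine hle.trans_lt ?_
  rw [← eLpNorm_congr_ae hfg]
  exact ENNReal.mul_lt_top (by norm_num) hf.2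

end

end Pool.Agent.H414R5
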