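import Pool.Agent.H414R5.Defs

set_option autoImplicit false
open MeasureTheory Set

namespace Pool.Agent.H414R5

/-- both one-supremum inequalities on the interval `[a,b]` -/
def PP (K : ℝ) (f : ℝ → ℝ) (a b : ℝ) : Prop :=
  (∫ x in a..b, f x) ^ 2 * (∫ x in a..b, (f x)⁻¹)
      ≤ K * (b - a) ^ 3 * Real.exp ((∫ x in a..b, Real.log (f x)) / (b - a)) ∧
  (∫ x in a..b, f x) * (∫ x in a..b, (f x)⁻¹) ^ 2
      * Real.exp ((∫ x in a..b, Real.log (f x)) / (b - a)) ≤ K * (b - a) ^ 3

lemma PP_mono {K K' : ℝ} {f : ℝ → ℝ} {a b : ℝ} (hab : a < b) (h : PP K f a b) (hK : K ≤ K') :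
    PP K' f a b := by
  have h3 : 0 ≤ (b - a) ^ 3 := by have := sub_pos.2 hab; positivity
  refine ⟨h.1.trans ?_, h.2.trans ?_⟩
  · apply mul_le_mul_of_nonneg_right _ (Real.exp_pos _).le
    exact mul_le_mul_of_nonneg_right hK h3
  · exact mul_le_mul_of_nonneg_right hK h3

lemma PP_of {K : ℝ} {f : ℝ → ℝ} {a b X Y g1 g2 : ℝ} (hab : a < b)
    (h1 : 0 ≤ ∫ x in a..b, f x) (h1' : (∫ x in a..b, f x) ≤ (b - a) * X)
    (h2 : 0 ≤ ∫ x in a..b, (f x)⁻¹) (h2' : (∫ x in a..b, (f x)⁻¹) ≤ (b - a) * Y)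
    (h3 : (b - a) * g1 ≤ ∫ x in a..b, Real.log (f x))
    (h3' : (∫ x in a..b, Real.log (f x)) ≤ (b - a) * g2)
    (k1 : X ^ 2 * Y ≤ K * Real.exp g1) (k2 : X * Y ^ 2 * Real.exp g2 ≤ K) : PP K f a b := by
  have hL : 0 < b - a := sub_pos.2 hab
  have hX : 0 ≤ X := nonneg_of_mul_nonneg_right (h1.trans h1') hL
  have hY : 0 ≤ Y := nonneg_of_mul_nonneg_right (h2.trans h2') hL
  have hK : 0 ≤ K := le_trans (by positivity) k2
  have e1 : g1 ≤ (∫ x in a..b, Real.log (f x)) / (b - a) := by
    rw [le_div_iff₀ hL]; linarith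
  have e2 : (∫ x in a..b, Real.log (f x)) / (b - a) ≤ g2 := by
    rw [div_le_iff₀ hL]; linarith
  constructor
  · calc (∫ x in a..b, f x) ^ 2 * (∫ x in a..b, (f x)⁻¹)
        ≤ ((b - a) * X) ^ 2 * ((b - a) * Y) := by
          apply mul_le_mul _ h2' h2 (by positivity)
          exact pow_le_pow_left₀ h1 h1' 2
      _ = (b - a) ^ 3 * (X ^ 2 * Y) := by ring
      _ ≤ (b - a) ^ 3 * (K * Real.exp g1) := by
          apply mul_le_mul_of_nonneg_left k1 (by positivity)
      _ ≤ (b - a) ^ 3 * (K * Real.exp ((∫ x in a..b, Real.log (f x)) / (b - a))) := by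
          apply mul_le_mul_of_nonneg_left _ (by positivity)
          apply mul_le_mul_of_nonneg_left _ hK
          exact Real.exp_le_exp.2 e1
      _ = _ := by ring
  · calc (∫ x in a..b, f x) * (∫ x in a..b, (f x)⁻¹) ^ 2
        * Real.exp ((∫ x in a..b, Real.log (f x)) / (b - a))
        ≤ ((b - a) * X) * ((b - a) * Y) ^ 2 * Real.exp g2 := by
          apply mul_le_mul _ (Real.exp_le_exp.2 e2) (Real.exp_pos _).le (by positivity)
          apply mul_le_mul h1' _ (by positivity) (by positivity)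
          exact pow_le_pow_left₀ h2 h2' 2
      _ = (b - a) ^ 3 * (X * Y ^ 2 * Real.exp g2) := by ring
      _ ≤ (b - a) ^ 3 * K := by
          apply mul_le_mul_of_nonneg_left k2 (by positivity)
      _ = _ := by ring

/-- bounded functions -/
lemma PP_bd {K : ℝ} {f : ℝ → ℝ} {a b u U : ℝ} (hab : a < b) (hu : 0 < u)
    (i1 : IntervalIntegrable f volume a b) (i2 : IntervalIntegrable (fun x => (f x)⁻¹) volume a b)
    (i3 : IntervalIntegrable (fun x => Real.log (f x)) volume a b)
    (hf : ∀ x ∈ Icc a b, u ≤ f x ∧ f x ≤ U) (hK : U ^ 2 ≤ K * u ^ 2) : PP K f a b := by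
  have hU : u ≤ U := (hf a ⟨le_rfl, hab.le⟩).1.trans (hf a ⟨le_rfl, hab.le⟩).2
  have hU0 : 0 < U := hu.trans_le hU
  have c : ∀ c : ℝ, ∫ _ in a..b, c = (b - a) * c := fun c => by
    rw [intervalIntegral.integral_const, smul_eq_mul]
  apply PP_of (X := U) (Y := u⁻¹) (g1 := Real.log u) (g2 := Real.log U) hab
  · exact intervalIntegral.integral_nonneg hab.le (fun x hx => hu.le.trans (hf x hx).1)
  · rw [← c]
    exact intervalIntegral.integral_mono_on hab.le i1 intervalIntegrable_const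
      (fun x hx => (hf x hx).2)
  · exact intervalIntegral.integral_nonneg hab.le
      (fun x hx => inv_nonneg.2 (hu.le.trans (hf x hx).1))
  · rw [← c]
    exact intervalIntegral.integral_mono_on hab.le i2 intervalIntegrable_const
      (fun x hx => inv_anti₀ hu (hf x hx).1)
  · rw [← c]
    exact intervalIntegral.integral_mono_on hab.le intervalIntegrable_const i3
      (fun x hx => Real.log_le_log hu (hf x hx).1)
  · rw [← c]
    exact intervalIntegral.integral_mono_on hab.le i3 intervalIntegrable_const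
      (fun x hx => Real.log_le_log (hu.trans_le (hf x hx).1) (hf x hx).2)
  · rw [Real.exp_log hu, ← div_eq_mul_inv, div_le_iff₀ hu]
    nlinarith [hK]
  · rw [Real.exp_log hU0]
    have : U * u⁻¹ ^ 2 * U = U ^ 2 / u ^ 2 := by field_simp
    rw [this, div_le_iff₀ (by positivity)]
    exact hK

/-- scaling in the values -/
lemma PP_smul {K : ℝ} {f : ℝ → ℝ} {a b c : ℝ} (hab : a < b) (hc : 0 < c)
    (hf : ∀ᵐ x, f x ≠ 0)
    (i3 : IntervalIntegrable (fun x => Real.log (f x)) volume a b)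
    (h : PP K f a b) : PP K (fun x => c * f x) a b := by
  have hL : 0 < b - a := sub_pos.2 hab
  have e1 : ∫ x in a..b, c * f x = c * ∫ x in a..b, f x := intervalIntegral.integral_const_mul _ _
  have e2 : ∫ x in a..b, (c * f x)⁻¹ = c⁻¹ * ∫ x in a..b, (f x)⁻¹ := by
    rw [← intervalIntegral.integral_const_mul]
    congr 1; ext x; rw [mul_inv]
  have e3 : ∫ x in a..b, Real.log (c * f x)
      = (b - a) * Real.log c + ∫ x in a..b, Real.log (f x) := by
    have : ∫ x in a..b, Real.log (c * f x) = ∫ x in a..b, (Real.log c + Real.log (f x)) := by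
      apply intervalIntegral.integral_congr_ae
      filter_upwards [hf] with x hx _
      rw [Real.log_mul hc.ne' hx]
    rw [this, intervalIntegral.integral_add intervalIntegrable_const i3,
      intervalIntegral.integral_const, smul_eq_mul]
  have e4 : Real.exp ((∫ x in a..b, Real.log (c * f x)) / (b - a))
      = c * Real.exp ((∫ x in a..b, Real.log (f x)) / (b - a)) := by
    rw [e3, add_div, mul_div_cancel_left₀ _ hL.ne', Real.exp_add, Real.exp_log hc]
  constructor
  · rw [e1, e2, e4]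
    have := mul_le_mul_of_nonneg_left h.1 hc.le
    calc (c * ∫ x in a..b, f x) ^ 2 * (c⁻¹ * ∫ x in a..b, (f x)⁻¹)
        = c * ((∫ x in a..b, f x) ^ 2 * ∫ x in a..b, (f x)⁻¹) := by field_simp
      _ ≤ _ := this
      _ = _ := by ring
  · rw [e1, e2, e4]
    calc (c * ∫ x in a..b, f x) * (c⁻¹ * ∫ x in a..b, (f x)⁻¹) ^ 2
          * (c * Real.exp ((∫ x in a..b, Real.log (f x)) / (b - a)))
        = (∫ x in a..b, f x) * (∫ x in a..b, (f x)⁻¹) ^ 2
          * Real.exp ((∫ x in a..b, Real.log (f x)) / (b - a)) := by field_simp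
      _ ≤ _ := h.2

/-- affine change of variables -/
lemma PP_comp {K : ℝ} {f : ℝ → ℝ} {a b c e : ℝ} (he : 0 < e)
    (h : PP K f ((a - c) / e) ((b - c) / e)) : PP K (fun x => f ((x - c) / e)) a b := by
  have ee : ∀ g : ℝ → ℝ, ∫ x in a..b, g ((x - c) / e) = e * ∫ x in (a - c)/e..(b - c)/e, g x := by
    intro g
    have := intervalIntegral.integral_comp_div_sub (f := g) (a := a) (b := b) he.ne' (c / e)
    simp only [← sub_div, smul_eq_mul] at this
    exact this
  have d1 : (b - c) / e - (a - c) / e = (b - a) / e := by ring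
  have e1 := ee f
  have e2 := ee (fun x => (f x)⁻¹)
  have e3 := ee (fun x => Real.log (f x))
  beta_reduce at e1 e2 e3
  unfold PP at h ⊢
  rw [e1, e2, e3]
  rw [d1] at h
  have e4 : (∫ x in (a - c)/e..(b - c)/e, Real.log (f x)) / ((b - a) / e)
      = e * (∫ x in (a - c)/e..(b - c)/e, Real.log (f x)) / (b - a) := by
    field_simp
  rw [e4] at h
  have e3' : 0 < e ^ 3 := by positivity
  constructor
  · have := mul_le_mul_of_nonneg_left h.1 e3'.le
    calc _ = e ^ 3 * ((∫ x in (a - c)/e..(b - c)/e, f x) ^ 2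
          * ∫ x in (a - c)/e..(b - c)/e, (f x)⁻¹) := by ring
      _ ≤ _ := this
      _ = _ := by field_simp
  · have := mul_le_mul_of_nonneg_left h.2 e3'.le
    calc _ = e ^ 3 * ((∫ x in (a - c)/e..(b - c)/e, f x)
          * (∫ x in (a - c)/e..(b - c)/e, (f x)⁻¹) ^ 2
          * Real.exp (e * (∫ x in (a - c)/e..(b - c)/e, Real.log (f x)) / (b - a))) := by ring
      _ ≤ _ := this
      _ = _ := by field_simp

end Pool.Agent.H414R5
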