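import Pool.Agent.H414R5.W9

set_option autoImplicit false
set_option linter.unusedSectionVars false
open MeasureTheory Set
open scoped ENNReal

namespace Pool.Agent.H414R5

lemma exists_par (R : ℝ) : ∃ P : Par, P.Good ∧
    R * (1 + 1 / (P.ε * Real.log (1 / P.ε) ^ 3)) ≤ P.J := by
  obtain ⟨l, hl⟩ := exists_nat_ge (28 + 1536 * |R|)
  have hR0 := abs_nonneg R
  have hR := le_abs_self R
  have l28 : (28:ℝ) ≤ l := by linarith
  have lR : 1536 * R ≤ (l:ℝ) ^ 2 := by nlinarith
  have l0 : (0:ℝ) < l := by linarith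
  have hexp : (l:ℝ) ^ 3 / 6 ≤ Real.exp l := by
    have := Real.pow_div_factorial_le_exp (l:ℝ) l0.le 3
    simpa [Nat.factorial] using this
  set E := Real.exp (l:ℝ) with hE
  have E0 : 0 < E := Real.exp_pos _
  set J := ⌊E / (64 * l)⌋₊ with hJ
  have hJ1 : (J:ℝ) ≤ E / (64 * l) := Nat.floor_le (by positivity)
  have hJ2 : E / (64 * l) < J + 1 := Nat.lt_floor_add_one _
  have hEl : 2 ≤ E / (64 * l) := by
    rw [le_div_iff₀ (by positivity)]
    nlinarith
  have hJ3 : 2 ≤ J := Nat.le_floor (by exact_mod_cast hEl)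
  have hJ4 : E / (128 * l) ≤ J := by
    have : E / (128 * l) = E / (64 * l) / 2 := by field_simp; norm_num
    rw [this]; linarith
  have hlog : Real.log (1 / Real.exp (-(l:ℝ))) = l := by
    rw [one_div, ← Real.exp_neg, neg_neg, Real.log_exp]
  refine ⟨⟨Real.exp (-(l:ℝ)), J, (Real.exp (-(l:ℝ)) ^ (4 * J))⁻¹⟩, ⟨Real.exp_pos _, ?_, hJ3, rfl, ?_⟩, ?_⟩
  · change Real.exp (-(l:ℝ)) ≤ 1/16
    rw [Real.exp_neg, ← one_div]
    apply one_div_le_one_div_of_le (by norm_num)
    nlinarith
  · change Real.exp (-(l:ℝ)) * (J * Real.log (1 / Real.exp (-(l:ℝ)))) ≤ 1/64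
    rw [hlog, Real.exp_neg]
    rw [inv_mul_le_iff₀ E0]
    rw [le_div_iff₀ (by positivity)] at hJ1
    linarith
  · change R * (1 + 1 / (Real.exp (-(l:ℝ)) * Real.log (1 / Real.exp (-(l:ℝ))) ^ 3)) ≤ J
    rw [hlog, Real.exp_neg]
    refine le_trans ?_ hJ4
    have e1 : 1 / (E⁻¹ * (l:ℝ) ^ 3) = E / l ^ 3 := by field_simp
    rw [e1]
    have a1 : R ≤ E / (256 * l) := by
      rw [le_div_iff₀ (by positivity)]
      nlinarith
    have a2 : R * (E / l ^ 3) ≤ E / (256 * l) := by
      rw [← mul_div_assoc, div_le_div_iff₀ (by positivity) (by positivity)]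
      have : R * 256 ≤ (l:ℝ) ^ 2 := by nlinarith
      calc R * E * (256 * l) = (R * 256) * (E * l) := by ring
        _ ≤ (l:ℝ) ^ 2 * (E * l) := by gcongr
        _ = _ := by ring
    have a3 : E / (256 * l) + E / (256 * l) = E / (128 * l) := by field_simp; norm_num
    calc R * (1 + E / l ^ 3) = R + R * (E / l ^ 3) := by ring
      _ ≤ _ := by linarith

namespace Par

variable {P : Par}

namespace Good

variable (G : P.Good)
include G

lemma wt_meas (n j : ℕ) : Measurable (P.wt n j) := by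
  induction n generalizing j with
  | zero => exact measurable_const (a := (1:ℝ))
  | succ n ih =>
    have e : P.wt (n+1) j = fun x => P.b j * qq (P.kap j) x
      + P.Cs.indicator (fun x => P.wt n (P.nx j) ((x - 1/4) / P.ε) - P.b j) x
      + P.Cc.indicator (fun x => P.A j * P.wt n 1 ((x - 1/2) / P.ε) - P.b j) x :=
      funext (G.split (fun x => x) n j)
    rw [e]
    have m0 : Measurable (fun x => P.b j * qq (P.kap j) x) := by
      apply Measurable.const_mul
      exact ((pf_cont (G.kap_nonneg j)).comp (by fun_prop : Continuous fun x : ℝ => 16 * x - 11)).measurable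
    have m1 : Measurable fun x : ℝ => P.wt n (P.nx j) ((x - 1/4) / P.ε) - P.b j := by
      have : Measurable fun x : ℝ => P.wt n (P.nx j) ((x - 1/4) / P.ε) := (ih _).comp (by fun_prop)
      exact this.sub_const _
    have m2 : Measurable fun x : ℝ => P.A j * P.wt n 1 ((x - 1/2) / P.ε) - P.b j := by
      have : Measurable fun x : ℝ => P.wt n 1 ((x - 1/2) / P.ε) := (ih _).comp (by fun_prop)
      exact (this.const_mul _).sub_const _
    exact (m0.add (m1.indicator measurableSet_Ico)).add (m2.indicator measurableSet_Ico)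

lemma gg_meas (n j : ℕ) : Measurable (P.gg n j) := by
  classical
  induction n generalizing j with
  | zero => exact measurable_const (a := (0:ℝ))
  | succ n ih =>
    have e : P.gg (n+1) j = fun x =>
      if x ∈ P.Cs then P.gg n (P.nx j) ((x - 1/4) / P.ε)
      else if x ∈ P.Cc then P.A j * P.gg n 1 ((x - 1/2) / P.ε)
      else if x ∈ Ico (5/8 : ℝ) (3/4) then (if j = P.J then (P.J : ℝ) else 0)
      else 0 := by ext x; simp only [gg]
    rw [e]
    have m1 : Measurable fun x : ℝ => P.gg n (P.nx j) ((x - 1/4) / P.ε) := (ih _).comp (by fun_prop)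
    have m2 : Measurable fun x : ℝ => P.A j * P.gg n 1 ((x - 1/2) / P.ε) := by
      have : Measurable fun x : ℝ => P.gg n 1 ((x - 1/2) / P.ε) := (ih _).comp (by fun_prop)
      exact this.const_mul _
    exact Measurable.ite measurableSet_Ico m1 (Measurable.ite measurableSet_Ico m2
      (Measurable.ite measurableSet_Ico measurable_const measurable_const))

lemma gg_nonneg (n j : ℕ) (x : ℝ) : 0 ≤ P.gg n j x := by
  induction n generalizing j x with
  | zero => simp [gg]
  | succ n ih =>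
    simp only [gg]
    split_ifs
    · exact ih _ _
    · exact mul_nonneg (by linarith [G.A_one j]) (ih _ _)
    · positivity
    · exact le_rfl
    · exact le_rfl

lemma gg_out (n j : ℕ) {x : ℝ} (hx : x < 0 ∨ 1 < x) : P.gg n j x = 0 := by
  cases n with
  | zero => rfl
  | succ n =>
    have h1 : x ∉ P.Cs := fun h => by
      have := G.Cs_sub h; rcases hx with h2 | h2 <;> linarith [this.1, this.2]
    have h2 : x ∉ P.Cc := fun h => by
      have := G.Cc_sub h; rcases hx with h2 | h2 <;> linarith [this.1, this.2]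
    have h3 : x ∉ Ico (5/8 : ℝ) (3/4) := fun h => by
      rcases hx with h2 | h2 <;> linarith [h.1, h.2]
    simp only [gg, if_neg h1, if_neg h2, if_neg h3]

/-- the truncated test function -/
lemma exists_f : ∃ (n : ℕ) (f : ℝ → ℝ) (N F : ℝ), Measurable f ∧ (∀ x, 0 ≤ f x) ∧ (∀ x, f x ≤ N) ∧
    (∀ x, x < 0 ∨ 1 < x → f x = 0) ∧
    (∀ x, f x ^ 2 * P.wt n 1 x = f x * P.gg n 1 x) ∧
    IntervalIntegrable (fun x => f x * P.gg n 1 x) volume 0 1 ∧
    (∫ x in (0:ℝ)..1, f x * P.gg n 1 x) = F ∧ (P.J:ℝ) * P.h ^ 3 / 32 ≤ F := by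
  obtain ⟨n, hn⟩ := G.exists_n
  have hI := G.GG_ii n 1 0 1
  set g : ℝ → ℝ := fun x => P.gg n 1 x * (P.wt n 1 x)⁻¹ with hg
  have gm : Measurable g := (G.gg_meas n 1).mul (G.wt_meas n 1).inv
  have g0 : ∀ x, 0 ≤ g x := fun x => mul_nonneg (G.gg_nonneg _ _ _) (inv_nonneg.2 (G.wt_nonneg _ _ _))
  set S : ℕ → Set ℝ := fun N => {x | g x ≤ N} with hS
  have Sm : ∀ N, MeasurableSet (S N) := fun N => measurableSet_le gm measurable_const
  have Smono : Monotone S := by
    intro a b hab x hx
    have : (a:ℝ) ≤ b := by exact_mod_cast hab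
    exact le_trans hx this
  have SU : (⋃ N, S N) = univ := by
    rw [eq_univ_iff_forall]
    intro x
    obtain ⟨N, hN⟩ := exists_nat_ge (g x)
    exact mem_iUnion.2 ⟨N, hN⟩
  have lim := tendsto_setIntegral_of_monotone (μ := volume.restrict (Ioc (0:ℝ) 1))
    (f := fun x => P.gg n 1 x ^ 2 * (P.wt n 1 x)⁻¹) Sm Smono
    (by rw [SU, integrableOn_univ]; exact hI.1)
  rw [SU, Measure.restrict_univ, ← intervalIntegral.integral_of_le (by norm_num)] at lim
  have hpos : 0 < (P.J:ℝ) * P.h ^ 3 := by have := G.Jpos; have := G.h_pos; positivity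
  have hlt : (P.J:ℝ) * P.h ^ 3 / 32 < ∫ x in (0:ℝ)..1, P.gg n 1 x ^ 2 * (P.wt n 1 x)⁻¹ := by linarith
  obtain ⟨N, hN⟩ := (lim.eventually (lt_mem_nhds hlt)).exists
  have key : ∀ x, (S N).indicator g x * P.gg n 1 x
      = (S N).indicator (fun x => P.gg n 1 x ^ 2 * (P.wt n 1 x)⁻¹) x := by
    intro x
    by_cases hx : x ∈ S N
    · rw [indicator_of_mem hx, indicator_of_mem hx, hg]; simp only; ring
    · rw [indicator_of_notMem hx, indicator_of_notMem hx, zero_mul]
  refine ⟨n, (S N).indicator g, N, ∫ x in (0:ℝ)..1, (S N).indicator g x * P.gg n 1 x, gm.indicator (Sm N),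
    fun x => indicator_nonneg (fun x _ => g0 x) x, ?_, ?_, ?_, ?_, rfl, ?_⟩
  · intro x
    by_cases hx : x ∈ S N
    · rw [indicator_of_mem hx]; exact hx
    · rw [indicator_of_notMem hx]; positivity
  · intro x hx
    by_cases hx2 : x ∈ S N
    · rw [indicator_of_mem hx2, hg]; simp only; rw [G.gg_out n 1 hx, zero_mul]
    · rw [indicator_of_notMem hx2]
  · intro x
    by_cases hx : x ∈ S N
    · rw [indicator_of_mem hx, hg]
      simp only
      by_cases hw : P.wt n 1 x = 0
      · rw [hw]; simp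
      · field_simp
    · rw [indicator_of_notMem hx]; ring
  · simp_rw [key]
    exact ii_ind (Sm N) hI
  · simp_rw [key]
    rw [intervalIntegral.integral_of_le (by norm_num), integral_indicator (Sm N)]
    exact hN.le

/-- lower bound by duality -/
lemma dual (n : ℕ) {f : ℝ → ℝ} {N : ℝ} (fm : Measurable f) (f0 : ∀ x, 0 ≤ f x) (fN : ∀ x, f x ≤ N)
    (fi : IntervalIntegrable (fun x => f x * P.gg n 1 x) volume 0 1) :
    ENNReal.ofReal (1/2 * ∫ x in (0:ℝ)..1, f x * P.gg n 1 x)
      ≤ ∫⁻ x in Ioc (0:ℝ) 1, ENNReal.ofReal (∫ y in (0:ℝ)..1, kk P.ε n x y * f y)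
        * ENNReal.ofReal (P.wt n 1 x) := by
  have e0 := G.e0
  have e1 := G.e1
  have fI : ∀ a b, IntervalIntegrable f volume a b := by
    intro a b
    have hb : ∀ s : Set ℝ, volume s < ⊤ → IntegrableOn f s volume := by
      intro s hs
      apply Measure.integrableOn_of_bounded (M := N) hs.ne fm.aestronglyMeasurable
      apply Filter.Eventually.of_forall
      intro x
      rw [Real.norm_eq_abs, abs_of_nonneg (f0 x)]; exact fN x
    exact ⟨hb _ (by simp), hb _ (by simp)⟩
  have kf : ∀ x, ENNReal.ofReal (∫ y in (0:ℝ)..1, kk P.ε n x y * f y)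
      = ∫⁻ y in Ioc (0:ℝ) 1, ENNReal.ofReal (kk P.ε n x y * f y) := by
    intro x
    rw [intervalIntegral.integral_of_le (by norm_num),
      ofReal_integral_eq_lintegral_ofReal (kk_mul_ii e0 e1 n x fI 0 1).1
      (Filter.Eventually.of_forall fun y => mul_nonneg (kk_nonneg e0 _ _ _) (f0 y))]
  have kw : ∀ y, ENNReal.ofReal (∫ x in (0:ℝ)..1, kk P.ε n y x * P.wt n 1 x)
      = ∫⁻ x in Ioc (0:ℝ) 1, ENNReal.ofReal (kk P.ε n y x * P.wt n 1 x) := by
    intro y
    rw [intervalIntegral.integral_of_le (by norm_num),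
      ofReal_integral_eq_lintegral_ofReal (kk_mul_ii e0 e1 n y (G.ii1 n 1) 0 1).1
      (Filter.Eventually.of_forall fun x => mul_nonneg (kk_nonneg e0 _ _ _) (G.wt_nonneg _ _ _))]
  have mk : Measurable fun p : ℝ × ℝ => kk P.ε n p.1 p.2 := (kk_cont e0 n).measurable
  have mkx : ∀ x, Measurable fun y => kk P.ε n x y := fun x => (kk_cont_y e0 e1 n x).measurable
  have wm := G.wt_meas n 1
  calc ENNReal.ofReal (1/2 * ∫ x in (0:ℝ)..1, f x * P.gg n 1 x)
      = ∫⁻ y in Ioc (0:ℝ) 1, ENNReal.ofReal (1/2 * (f y * P.gg n 1 y)) := by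
        rw [← intervalIntegral.integral_const_mul, intervalIntegral.integral_of_le (by norm_num),
          ofReal_integral_eq_lintegral_ofReal (fi.1.const_mul _)]
        exact Filter.Eventually.of_forall fun y =>
          mul_nonneg (by norm_num) (mul_nonneg (f0 y) (G.gg_nonneg _ _ _))
    _ ≤ ∫⁻ y in Ioc (0:ℝ) 1, ENNReal.ofReal (f y)
          * ∫⁻ x in Ioc (0:ℝ) 1, ENNReal.ofReal (kk P.ε n y x * P.wt n 1 x) := by
        apply lintegral_mono
        intro y
        simp only
        rw [← kw, ← ENNReal.ofReal_mul (f0 y)]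
        apply ENNReal.ofReal_le_ofReal
        have t := G.tau n 1 y le_rfl (by have := G.J2; omega)
        norm_num at t
        have := mul_le_mul_of_nonneg_left t (f0 y)
        linarith
    _ = ∫⁻ y in Ioc (0:ℝ) 1, ∫⁻ x in Ioc (0:ℝ) 1,
          ENNReal.ofReal (f y) * ENNReal.ofReal (kk P.ε n y x * P.wt n 1 x) := by
        congr 1; ext y
        have m4 : Measurable fun x => ENNReal.ofReal (kk P.ε n y x * P.wt n 1 x) :=
          ((mkx y).mul wm).ennreal_ofReal
        rw [lintegral_const_mul _ m4]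
    _ = ∫⁻ x in Ioc (0:ℝ) 1, ∫⁻ y in Ioc (0:ℝ) 1,
          ENNReal.ofReal (f y) * ENNReal.ofReal (kk P.ε n y x * P.wt n 1 x) := by
        apply lintegral_lintegral_swap
        apply Measurable.aemeasurable
        have q1 : Measurable fun p : ℝ × ℝ => ENNReal.ofReal (f p.1) :=
          (fm.comp measurable_fst).ennreal_ofReal
        have q2 : Measurable fun p : ℝ × ℝ => ENNReal.ofReal (kk P.ε n p.1 p.2 * P.wt n 1 p.2) :=
          (mk.mul (wm.comp measurable_snd)).ennreal_ofReal
        exact q1.mul q2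
    _ = ∫⁻ x in Ioc (0:ℝ) 1, ENNReal.ofReal (∫ y in (0:ℝ)..1, kk P.ε n x y * f y)
        * ENNReal.ofReal (P.wt n 1 x) := by
        congr 1; ext x
        rw [kf]
        have m4 : Measurable fun y => ENNReal.ofReal (kk P.ε n x y * f y) :=
          ((mkx x).mul fm).ennreal_ofReal
        rw [← lintegral_mul_const _ m4]
        congr 1; ext y
        rw [← ENNReal.ofReal_mul (f0 y), ← ENNReal.ofReal_mul (mul_nonneg (kk_nonneg e0 _ _ _) (f0 y)),
          kk_symm n y x]
        congr 1; ring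

end Good

end Par

end Pool.Agent.H414R5
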