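import Pool.Agent.H414R5.W10
import Pool.Agent.H414R5.K3

set_option autoImplicit false
set_option linter.unusedSectionVars false
open MeasureTheory Set
open scoped ENNReal

namespace Pool.Agent.H414R5

lemma layer {μ : Measure ℝ} (hμ : μ univ ≤ 1) {g : ℝ → ℝ} (gm : AEMeasurable g μ)
    (g0 : ∀ x, 0 ≤ g x) {D s : ℝ} (hD : 0 ≤ D) (hs : 0 < s)
    (h : ∀ t > 0, μ {x | t < g x} ≤ ENNReal.ofReal (D / t ^ 2)) :
    ∫⁻ x, ENNReal.ofReal (g x) ∂μ ≤ ENNReal.ofReal (s + D / s) := by
  rw [lintegral_eq_lintegral_meas_lt μ (Filter.Eventually.of_forall g0) gm]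
  have hU : Ioi (0:ℝ) = Ioc 0 s ∪ Ioi s := (Ioc_union_Ioi_eq_Ioi hs.le).symm
  have hdisj : Disjoint (Ioc 0 s) (Ioi s) := by
    rw [Set.disjoint_left]; intro x hx hx2; exact absurd hx.2 (not_le.2 hx2)
  rw [hU, lintegral_union measurableSet_Ioi hdisj, ENNReal.ofReal_add hs.le (by positivity)]
  gcongr
  · calc ∫⁻ t in Ioc 0 s, μ {a | t < g a} ≤ ∫⁻ t in Ioc 0 s, 1 :=
          lintegral_mono (fun t => (measure_mono (subset_univ _)).trans hμ)
      _ = ENNReal.ofReal s := by simp
  · have hi : IntegrableOn (fun t : ℝ => D * t ^ (-2 : ℝ)) (Ioi s) volume :=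
      (integrableOn_Ioi_rpow_of_lt (by norm_num) hs).const_mul D
    calc ∫⁻ t in Ioi s, μ {a | t < g a} ≤ ∫⁻ t in Ioi s, ENNReal.ofReal (D * t ^ (-2 : ℝ)) := by
          apply setLIntegral_mono' measurableSet_Ioi
          intro t ht
          have ht0 : 0 < t := hs.trans ht
          refine (h t ht0).trans (le_of_eq ?_)
          congr 1
          rw [Real.rpow_neg ht0.le, Real.rpow_two, div_eq_mul_inv]
      _ = ENNReal.ofReal (∫ t in Ioi s, D * t ^ (-2 : ℝ)) := by
          rw [ofReal_integral_eq_lintegral_ofReal hi]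
          filter_upwards [ae_restrict_mem measurableSet_Ioi] with t ht
          have ht0 : 0 < t := hs.trans ht
          positivity
      _ = ENNReal.ofReal (D / s) := by
          rw [integral_const_mul, integral_Ioi_rpow_of_lt (by norm_num) hs]
          congr 1
          norm_num
          rw [Real.rpow_neg hs.le, Real.rpow_one]; ring

lemma lshift (G : ℝ → ℝ≥0∞) (c : ℝ) :
    ∫⁻ x in Ioc c (c+1), G (x - c) = ∫⁻ x in Ioc (0:ℝ) 1, G x := by
  rw [← lintegral_indicator measurableSet_Ioc, ← lintegral_indicator measurableSet_Ioc,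
    ← lintegral_sub_right_eq_self (fun x => (Ioc (0:ℝ) 1).indicator G x) c]
  congr 1; ext x
  by_cases hx : x ∈ Ioc c (c+1)
  · have h2 : x - c ∈ Ioc (0:ℝ) 1 := ⟨by linarith [hx.1], by linarith [hx.2]⟩
    rw [indicator_of_mem hx, indicator_of_mem h2]
  · have h2 : x - c ∉ Ioc (0:ℝ) 1 := fun h => hx ⟨by linarith [h.1], by linarith [h.2]⟩
    rw [indicator_of_notMem hx, indicator_of_notMem h2]

lemma PP_congr_ae {K : ℝ} {f g : ℝ → ℝ} {a b : ℝ} (h : ∀ᵐ x, f x = g x)
    (hf : PP K f a b) : PP K g a b := by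
  have e1 : ∫ x in a..b, f x = ∫ x in a..b, g x :=
    intervalIntegral.integral_congr_ae (by filter_upwards [h] with x hx _ using hx)
  have e2 : ∫ x in a..b, (f x)⁻¹ = ∫ x in a..b, (g x)⁻¹ :=
    intervalIntegral.integral_congr_ae (by filter_upwards [h] with x hx _; rw [hx])
  have e3 : ∫ x in a..b, Real.log (f x) = ∫ x in a..b, Real.log (g x) :=
    intervalIntegral.integral_congr_ae (by filter_upwards [h] with x hx _; rw [hx])
  unfold PP at *
  rwa [e1, e2, e3] at hf

section
variable {e : ℕ → ℝ} (n : ℕ → ℕ) (e0 : ∀ m, 0 < e m) (e1 : ∀ m, e m ≤ 1/16)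
include e0 e1

lemma TT_meas {f : ℝ → ℝ} (hf : Measurable f) : Measurable (TT e n f) := by
  have mK : Measurable (fun p : ℝ × ℝ => KK e n p.1 p.2) := KK_meas n e0 e1
  have : StronglyMeasurable (Function.uncurry fun x y => KK e n x y * f y) :=
    (mK.mul (hf.comp measurable_snd)).stronglyMeasurable
  exact this.integral_prod_right.measurable

lemma TT_nonneg {f : ℝ → ℝ} (hf : ∀ x, 0 ≤ f x) (x : ℝ) : 0 ≤ TT e n f x :=
  integral_nonneg (fun y => mul_nonneg (KK_nonneg n e0 e1 x y) (hf y))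

lemma TT_block {f : ℝ → ℝ} (hf : ∀ x, x < 0 ∨ 1 < x → f x = 0) {m : ℕ} {x : ℝ}
    (hx : 0 ≤ x - 2 * m ∧ x - 2 * m ≤ 1) :
    TT e n (fun y => f (y - 2 * m)) x = ∫ y in (0:ℝ)..1, kk (e m) (n m) (x - 2 * m) y * f y := by
  unfold TT
  have h1 : ∀ y, KK e n x y * f (y - 2 * m)
      = (fun z => kk (e m) (n m) (x - 2 * m) z * f z) (y - 2 * m) := by
    intro y; rw [KK_mem n e0 e1 (Or.inl hx)]
  simp_rw [h1]
  rw [integral_sub_right_eq_self (fun z => kk (e m) (n m) (x - 2 * m) z * f z) (2 * (m:ℝ)),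
    intervalIntegral.integral_of_le (by norm_num), ← integral_Icc_eq_integral_Ioc]
  symm
  apply setIntegral_eq_integral_of_forall_compl_eq_zero
  intro z hz
  have : z < 0 ∨ 1 < z := by by_contra h; push Not at h; exact hz h
  rw [hf z this, mul_zero]

end

/-- the constant in front -/
noncomputable def c0 : ℝ := 3200 * (10 ^ 7 * Real.exp 64)

theorem core : ∃ (e : ℕ → ℝ) (n : ℕ → ℕ), (∀ m, 0 < e m) ∧ (∀ m, e m ≤ 1/16) ∧
    ∀ C : ℝ, 0 ≤ C → ∃ (w f : ℝ → ℝ) (K F N : ℝ), Measurable w ∧ (∀ x, 0 < w x) ∧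
      (∀ a b, IntervalIntegrable w volume a b) ∧
      (∀ a b, IntervalIntegrable (fun x => (w x)⁻¹) volume a b) ∧
      (∀ a b, IntervalIntegrable (fun x => Real.log (w x)) volume a b) ∧
      (∀ a b, a < b → PP K w a b) ∧ 0 < K ∧ 0 < F ∧
      Measurable f ∧ (∀ x, 0 ≤ f x) ∧ (∀ x, f x ≤ N) ∧ (∃ c, ∀ x, x < c ∨ c + 1 < x → f x = 0) ∧
      (∫⁻ x, ENNReal.ofReal (f x ^ 2 * w x)) ≤ ENNReal.ofReal F ∧
      ∃ t > 0, ENNReal.ofReal (4 * C ^ 2 * K * F / t ^ 2) <
        (volume.withDensity (fun x => ENNReal.ofReal (w x))) {x | t < TT e n f x} := by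
  choose P hG hR using fun m : ℕ => exists_par (c0 * ((m:ℝ) + 1) ^ 2)
  choose n f N F fm f0 fN fout fw fI fF hF using fun m => (hG m).exists_f
  refine ⟨fun m => (P m).ε, n, fun m => (hG m).e0, fun m => (hG m).e1, ?_⟩
  intro C hC
  obtain ⟨m, hm⟩ := exists_nat_ge C
  have G := hG m
  set v : ℝ → ℝ := (P m).wt (n m) 1 with hv
  have vm : Measurable v := G.wt_meas _ _
  have vne : ∀ᵐ x, v x ≠ 0 := G.wt_ne _ _
  have v0 : ∀ x, 0 ≤ v x := G.wt_nonneg _ _
  classical
  set w : ℝ → ℝ := fun x => if v (x - 2 * m) = 0 then 1 else v (x - 2 * m) with hw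
  have vm2 : Measurable fun x : ℝ => v (x - 2 * m) := vm.comp (by fun_prop)
  have hwv : ∀ᵐ x, v (x - 2 * m) = w x := by
    have q : Filter.Tendsto (fun x : ℝ => x - 2 * (m:ℝ)) (ae volume) (ae volume) :=
      (measurePreserving_sub_right volume (2 * (m:ℝ))).quasiMeasurePreserving.tendsto_ae
    filter_upwards [q.eventually vne] with x hx
    rw [hw]; simp only; rw [if_neg hx]
  have wm : Measurable w := Measurable.ite (vm2 (measurableSet_singleton 0)) measurable_const vm2
  have w0 : ∀ x, 0 < w x := by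
    intro x
    rw [hw]; simp only
    split_ifs with h
    · exact one_pos
    · exact lt_of_le_of_ne (v0 _) (Ne.symm h)
  have shiftii : ∀ u : ℝ → ℝ, (∀ a b, IntervalIntegrable u volume a b) → ∀ a b,
      IntervalIntegrable (fun x => u (x - 2 * m)) volume a b := by
    intro u hu a b
    have := ii_comp hu (2 * m) one_pos a b
    simpa using this
  have K0 : 0 < (P m).cK := by
    have h1 := G.cK_ge3 (x := 1) (by norm_num)
    have := G.h_pos
    have : 0 < (P m).h ^ 3 := by positivity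
    linarith
  have F0 : 0 < F m := by
    have := hF m
    have := G.Jpos
    have := G.h_pos
    have : 0 < ((P m).J:ℝ) * (P m).h ^ 3 / 32 := by positivity
    linarith
  set ff : ℝ → ℝ := fun x => f m (x - 2 * m) with hff
  have ffm : Measurable ff := (fm m).comp (by fun_prop)
  have e0 : ∀ m, 0 < (P m).ε := fun m => (hG m).e0
  have e1 : ∀ m, (P m).ε ≤ 1/16 := fun m => (hG m).e1
  refine ⟨w, ff, (P m).cK, F m, N m, wm, w0, ?_, ?_, ?_, ?_, K0, F0, ffm, fun x => f0 m _,
    fun x => fN m _, ⟨2 * m, fun x hx => fout m _ (by rcases hx with h | h; left; linarith; right; linarith)⟩, ?_, ?_⟩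
  · intro a b
    exact (shiftii v (G.ii1 _ _) a b).congr_ae (ae_restrict_of_ae hwv)
  · intro a b
    refine (shiftii (fun x => (v x)⁻¹) (G.ii2 _ _) a b).congr_ae (ae_restrict_of_ae ?_)
    filter_upwards [hwv] with x hx; rw [hx]
  · intro a b
    refine (shiftii (fun x => Real.log (v x)) (G.ii3 _ _) a b).congr_ae (ae_restrict_of_ae ?_)
    filter_upwards [hwv] with x hx; rw [hx]
  · intro a b hab
    have h1 := G.wt_PP (n m) 1 le_rfl (by have := G.J2; omega) (a := (a - 2 * m) / 1)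
      (b := (b - 2 * m) / 1) (by linarith)
    have h2 := PP_comp (a := a) (b := b) (c := 2 * m) one_pos h1
    refine PP_congr_ae ?_ h2
    filter_upwards [hwv] with x hx
    rw [div_one]; exact hx
  · -- the norm of f
    have h1 : ∫⁻ x, ENNReal.ofReal (ff x ^ 2 * w x)
        = ∫⁻ x, (fun z => ENNReal.ofReal (f m z * (P m).gg (n m) 1 z)) (x - 2 * m) := by
      apply lintegral_congr_ae
      filter_upwards [hwv] with x hx
      rw [← hx, hff]
      simp only
      rw [fw m]
    rw [h1, lintegral_sub_right_eq_self (fun z => ENNReal.ofReal (f m z * (P m).gg (n m) 1 z)) (2 * (m:ℝ))]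
    have h2 : (fun z => ENNReal.ofReal (f m z * (P m).gg (n m) 1 z))
        = (Icc (0:ℝ) 1).indicator (fun z => ENNReal.ofReal (f m z * (P m).gg (n m) 1 z)) := by
      ext z
      by_cases hz : z ∈ Icc (0:ℝ) 1
      · rw [indicator_of_mem hz]
      · rw [indicator_of_notMem hz]
        have : z < 0 ∨ 1 < z := by by_contra h; push Not at h; exact hz h
        rw [fout m z this]; simp
    rw [h2, lintegral_indicator measurableSet_Icc, ← restrict_Ioc_eq_restrict_Icc,
      ← ofReal_integral_eq_lintegral_ofReal (fI m).1]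
    · apply ENNReal.ofReal_le_ofReal
      rw [← intervalIntegral.integral_of_le (by norm_num), fF m]
    · exact Filter.Eventually.of_forall fun z => mul_nonneg (f0 m z) (G.gg_nonneg _ _ _)
  · -- failure
    by_contra hcon
    push Not at hcon
    set μ := (volume.withDensity (fun x => ENNReal.ofReal (w x))).restrict (Ioc (2 * (m:ℝ)) (2 * m + 1)) with hμ
    have hWm : Measurable fun x => ENNReal.ofReal (w x) := wm.ennreal_ofReal
    have μeq : μ = (volume.restrict (Ioc (2 * (m:ℝ)) (2 * m + 1))).withDensity (fun x => ENNReal.ofReal (w x)) :=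
      restrict_withDensity measurableSet_Ioc _
    have μ1 : μ univ ≤ 1 := by
      rw [μeq, withDensity_apply _ MeasurableSet.univ, Measure.restrict_univ]
      have h1 : ∫⁻ x in Ioc (2 * (m:ℝ)) (2 * m + 1), ENNReal.ofReal (w x)
          = ∫⁻ x in Ioc (2 * (m:ℝ)) (2 * m + 1), (fun z => ENNReal.ofReal (v z)) (x - 2 * m) := by
        apply lintegral_congr_ae
        apply ae_restrict_of_ae
        filter_upwards [hwv] with x hx
        rw [hx]
      rw [h1, lshift (fun z => ENNReal.ofReal (v z)) (2 * (m:ℝ)), ← ofReal_integral_eq_lintegral_ofReal (G.ii1 (n m) 1 0 1).1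
        (Filter.Eventually.of_forall v0), ← intervalIntegral.integral_of_le (by norm_num), G.ag1]
      simp
    set g := TT (fun m => (P m).ε) n ff with hg
    have gm : Measurable g := TT_meas n e0 e1 ffm
    have g0 : ∀ x, 0 ≤ g x := TT_nonneg n e0 e1 (fun x => f0 m _)
    have up := layer μ1 gm.aemeasurable g0 (D := 4 * C ^ 2 * (P m).cK * F m) (s := F m / 8)
      (by positivity) (by positivity) (fun t ht => (Measure.restrict_apply_le _ _).trans (hcon t ht))
    have low : ENNReal.ofReal (1/2 * F m) ≤ ∫⁻ x, ENNReal.ofReal (g x) ∂μ := by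
      rw [μeq, lintegral_withDensity_eq_lintegral_mul _ hWm gm.ennreal_ofReal]
      have d := G.dual (n m) (fm m) (f0 m) (fN m) (fI m)
      rw [fF m, ← lshift _ (2 * (m:ℝ))] at d
      refine d.trans (le_of_eq ?_)
      apply lintegral_congr_ae
      filter_upwards [ae_restrict_mem measurableSet_Ioc, ae_restrict_of_ae hwv] with x hx hx2
      simp only [Pi.mul_apply]
      rw [mul_comm]
      congr 1
      · rw [← hx2]
      · rw [hg, hff, TT_block n e0 e1 (fout m) ⟨by linarith [hx.1], by linarith [hx.2]⟩]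
    have tot := low.trans up
    rw [ENNReal.ofReal_le_ofReal_iff (by positivity)] at tot
    have t2 : 3 * F m ≤ 256 * (C ^ 2 * (P m).cK) := by
      have h8 : 4 * C ^ 2 * (P m).cK * F m / (F m / 8) = 32 * (C ^ 2 * (P m).cK) := by
        field_simp; ring
      rw [h8] at tot
      linarith
    have hh := G.h_pos
    have h3 : 0 < (P m).h ^ 3 := by positivity
    have h4 := hR m
    have h5 := hF m
    have h6 : c0 * ((m:ℝ) + 1) ^ 2 * (1 + 1 / ((P m).ε * Real.log (1 / (P m).ε) ^ 3)) * (P m).h ^ 3 / 32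
        ≤ F m := by
      refine le_trans ?_ h5
      gcongr
    have h7 : c0 * ((m:ℝ) + 1) ^ 2 * (1 + 1 / ((P m).ε * Real.log (1 / (P m).ε) ^ 3)) * (P m).h ^ 3 / 32
        = 100 * (((m:ℝ) + 1) ^ 2 * (P m).cK) := by
      unfold c0 Par.cK; ring
    rw [h7] at h6
    have h8 : C ^ 2 * (P m).cK ≤ ((m:ℝ) + 1) ^ 2 * (P m).cK := by
      gcongr; linarith
    have h9 : 0 < ((m:ℝ) + 1) ^ 2 * (P m).cK := by positivity
    linarith

end Pool.Agent.H414R5
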