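import Pool.Agent.H414R5.W1

set_option autoImplicit false
open MeasureTheory Set

namespace Pool.Agent.H414R5

lemma ii_abs {r : ℝ} (h : -1 < r) (a b : ℝ) :
    IntervalIntegrable (fun y : ℝ => |y| ^ r) volume a b := by
  have h0 : ∀ c : ℝ, 0 ≤ c → IntervalIntegrable (fun y : ℝ => |y| ^ r) volume 0 c := by
    intro c hc
    have h1 := intervalIntegral.intervalIntegrable_rpow' (a := 0) (b := c) h
    refine h1.congr ?_
    intro y hy
    rw [uIoc_of_le hc] at hy
    simp only [abs_of_pos hy.1]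
  have h1 : ∀ c : ℝ, 0 ≤ c → IntervalIntegrable (fun y : ℝ => |y| ^ r) volume (-c) 0 := by
    intro c hc
    have h2 := (h0 c hc)
    rw [IntervalIntegrable.iff_comp_neg] at h2
    simp only [abs_neg, neg_zero] at h2
    exact h2.symm
  have h2 : ∀ R : ℝ, 0 ≤ R → IntervalIntegrable (fun y : ℝ => |y| ^ r) volume (-R) R :=
    fun R hR => (h1 R hR).trans (h0 R hR)
  have hR : (0:ℝ) ≤ |a| + |b| := by positivity
  refine (h2 _ hR).mono_set ?_
  rw [uIcc_of_le (by linarith : -(|a| + |b|) ≤ |a| + |b|)]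
  apply uIcc_subset_Icc
  · constructor
    · have := neg_abs_le a; have := abs_nonneg b; linarith
    · have := le_abs_self a; have := abs_nonneg b; linarith
  · constructor
    · have := neg_abs_le b; have := abs_nonneg a; linarith
    · have := le_abs_self b; have := abs_nonneg a; linarith

lemma int_abs {r : ℝ} (h : -1 < r) {c : ℝ} (hc : 0 ≤ c) :
    ∫ y in (-c)..c, |y| ^ r = 2 * (c ^ (r + 1) / (r + 1)) := by
  have e0 : ∫ y in (0:ℝ)..c, |y| ^ r = c ^ (r + 1) / (r + 1) := by
    have : ∫ y in (0:ℝ)..c, |y| ^ r = ∫ y in (0:ℝ)..c, y ^ r := by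
      apply intervalIntegral.integral_congr
      intro y hy
      rw [uIcc_of_le hc] at hy
      simp only [abs_of_nonneg hy.1]
    rw [this, integral_rpow (Or.inl h), Real.zero_rpow (by linarith), sub_zero]
  have e1 : ∫ y in (-c)..0, |y| ^ r = ∫ y in (0:ℝ)..c, |y| ^ r := by
    have := intervalIntegral.integral_comp_neg (f := fun y : ℝ => |y| ^ r) (a := 0) (b := c)
    simp only [abs_neg, neg_zero] at this
    exact this.symm
  rw [← intervalIntegral.integral_add_adjacent_intervals (ii_abs h _ 0) (ii_abs h 0 _), e1, e0]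
  ring

/-- the profile in the variable `y` -/
noncomputable def pf (κ y : ℝ) : ℝ := (min 1 |y|) ^ κ

lemma pf_cont {κ : ℝ} (h0 : 0 ≤ κ) : Continuous (pf κ) := by
  unfold pf
  exact (continuous_const.min continuous_abs).rpow_const (fun _ => Or.inr h0)

lemma pf_nonneg (κ y : ℝ) : 0 ≤ pf κ y := Real.rpow_nonneg (by positivity) _

lemma pf_le_one {κ : ℝ} (h0 : 0 ≤ κ) (y : ℝ) : pf κ y ≤ 1 :=
  Real.rpow_le_one (by positivity) (min_le_left _ _) h0

lemma pf_eq {κ y : ℝ} (hy : |y| ≤ 1) : pf κ y = |y| ^ κ := by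
  unfold pf; rw [min_eq_right hy]

lemma pf_one {κ y : ℝ} (hy : 1 ≤ |y|) : pf κ y = 1 := by
  unfold pf; rw [min_eq_left hy, Real.one_rpow]

lemma pf_inv_le {κ : ℝ} (y : ℝ) : (pf κ y)⁻¹ ≤ 1 + |y| ^ (-κ) := by
  rcases le_total |y| 1 with h | h
  · rw [pf_eq h, ← Real.rpow_neg (abs_nonneg y)]
    have : (0:ℝ) ≤ |y| ^ (-κ) := Real.rpow_nonneg (abs_nonneg y) _
    linarith
  · rw [pf_one h, inv_one]
    have : (0:ℝ) ≤ |y| ^ (-κ) := Real.rpow_nonneg (abs_nonneg y) _
    linarith

lemma pf_ii (κ : ℝ) (h0 : 0 ≤ κ) (a b : ℝ) : IntervalIntegrable (pf κ) volume a b :=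
  (pf_cont h0).intervalIntegrable _ _

lemma pf_ii_inv (κ : ℝ) (h0 : 0 ≤ κ) (h1 : κ < 1) (a b : ℝ) :
    IntervalIntegrable (fun y => (pf κ y)⁻¹) volume a b := by
  have h2 : IntervalIntegrable (fun y : ℝ => 1 + |y| ^ (-κ)) volume a b :=
    intervalIntegrable_const.add (ii_abs (by linarith) a b)
  refine h2.mono_fun ?_ ?_
  · exact ((pf_cont h0).measurable.inv).aestronglyMeasurable
  · refine Filter.Eventually.of_forall (fun y => ?_)
    have h3 := pf_inv_le (κ := κ) y
    have h4 : 0 ≤ (pf κ y)⁻¹ := inv_nonneg.2 (pf_nonneg κ y)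
    beta_reduce
    rw [Real.norm_of_nonneg h4, Real.norm_of_nonneg (h4.trans h3)]
    exact h3

lemma pf_log (κ y : ℝ) (hy : |y| ≤ 1) : Real.log (pf κ y) = κ * Real.log y := by
  rw [pf_eq hy]
  rcases eq_or_ne y 0 with h | h
  · subst h
    rcases eq_or_ne κ 0 with h' | h'
    · subst h'; simp
    · rw [abs_zero, Real.zero_rpow h']; simp
  · rw [Real.log_rpow (abs_pos.2 h), Real.log_abs]

lemma pf_log_one (κ y : ℝ) (hy : 1 ≤ |y|) : Real.log (pf κ y) = 0 := by
  rw [pf_one hy, Real.log_one]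

lemma pf_ii_log (κ : ℝ) (h0 : 0 ≤ κ) (a b : ℝ) :
    IntervalIntegrable (fun y => Real.log (pf κ y)) volume a b := by
  have h2 : IntervalIntegrable (fun y : ℝ => κ * Real.log y) volume a b :=
    (intervalIntegral.intervalIntegrable_log').const_mul κ
  refine h2.mono_fun ?_ ?_
  · exact (Real.measurable_log.comp (pf_cont h0).measurable).aestronglyMeasurable
  · refine Filter.Eventually.of_forall (fun y => ?_)
    beta_reduce
    rcases le_total |y| 1 with h | h
    · rw [pf_log κ y h]
    · rw [pf_log_one κ y h, norm_zero]; exact norm_nonneg _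

lemma xlogx {a b : ℝ} (hab : a < b) :
    (b - a) * Real.log ((b - a) / 2) ≤ b * Real.log b - a * Real.log a := by
  have key : ∀ a b : ℝ, 0 ≤ a → a < b →
      (b - a) * Real.log ((b - a) / 2) ≤ b * Real.log b - a * Real.log a := by
    intro a b ha hab
    have hb : 0 < b := ha.trans_lt hab
    have h1 : Real.log ((b - a)/2) ≤ Real.log b :=
      Real.log_le_log (by linarith) (by linarith)
    have h2 : a * Real.log a ≤ a * Real.log b := by
      rcases ha.eq_or_lt with h | h
      · rw [← h]; simp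
      · exact mul_le_mul_of_nonneg_left (Real.log_le_log h hab.le) ha
    nlinarith [mul_le_mul_of_nonneg_left h1 (sub_pos.2 hab).le]
  rcases le_or_gt 0 a with ha | ha
  · exact key a b ha hab
  rcases le_or_gt b 0 with hb | hb
  · have := key (-b) (-a) (by linarith) (by linarith)
    rw [Real.log_neg_eq_log, Real.log_neg_eq_log] at this
    have e : -a - -b = b - a := by ring
    rw [e] at this
    linarith
  · have hm : 0 < (b - a) / 2 := by linarith
    have t : ∀ x : ℝ, 0 < x → x * Real.log ((b-a)/2) + x - (b-a)/2 ≤ x * Real.log x := by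
      intro x hx
      have h1 := Real.one_sub_inv_le_log_of_pos (div_pos hx hm)
      rw [Real.log_div hx.ne' hm.ne', inv_div] at h1
      have h2 := mul_le_mul_of_nonneg_left h1 hx.le
      have h3 : x * (1 - (b-a)/2/x) = x - (b-a)/2 := by field_simp
      rw [h3] at h2
      nlinarith
    have t1 := t b hb
    have t2 := t (-a) (by linarith)
    rw [Real.log_neg_eq_log] at t2
    linarith

/-- the power profile -/
lemma pf_PP {κ H : ℝ} (h0 : 0 ≤ κ) (h1 : κ < 1) (hH : (1 - κ)⁻¹ ≤ H) {a b : ℝ} (hab : a < b)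
    (hL : b - a ≤ 1/4) : PP (64 * H ^ 2) (pf κ) a b := by
  have hH1 : 1 ≤ H := by
    refine le_trans ?_ hH
    rw [one_le_inv₀ (by linarith)]; linarith
  have hLp : 0 < b - a := sub_pos.2 hab
  have i1 := pf_ii κ h0 a b
  have i2 := pf_ii_inv κ h0 h1 a b
  have i3 := pf_ii_log κ h0 a b
  have far : ∀ m : ℝ, b - a ≤ m → (∀ y ∈ Icc a b, m ≤ |y| ∧ |y| ≤ 2 * m) →
      PP (64 * H ^ 2) (pf κ) a b := by
    intro m hm hy
    have hm0 : 0 < m := hLp.trans_le hm
    have hmm : 0 < min 1 m := lt_min one_pos hm0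
    have hu : 0 < (min 1 m) ^ κ := Real.rpow_pos_of_pos hmm _
    apply PP_bd hab hu i1 i2 i3 (U := 2 * (min 1 m) ^ κ)
    · intro y hy'
      obtain ⟨g1, g2⟩ := hy y hy'
      constructor
      · exact Real.rpow_le_rpow hmm.le (min_le_min le_rfl g1) h0
      · have h2 : min 1 |y| ≤ 2 * min 1 m := by
          rcases le_total 1 m with h | h
          · rw [min_eq_left h]; linarith [min_le_left 1 |y|]
          · rw [min_eq_right h]; exact (min_le_right _ _).trans g2
        calc pf κ y ≤ (2 * min 1 m) ^ κ := Real.rpow_le_rpow (by positivity) h2 h0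
          _ = 2 ^ κ * (min 1 m) ^ κ := Real.mul_rpow (by norm_num) hmm.le
          _ ≤ 2 * (min 1 m) ^ κ := by
              apply mul_le_mul_of_nonneg_right _ hu.le
              calc (2:ℝ) ^ κ ≤ 2 ^ (1:ℝ) := Real.rpow_le_rpow_of_exponent_le (by norm_num) h1.le
                _ = 2 := Real.rpow_one 2
    · have : (1:ℝ) ≤ H ^ 2 := one_le_pow₀ hH1
      nlinarith [sq_nonneg ((min 1 m) ^ κ)]
  rcases le_or_gt (b - a) a with ha | ha
  · exact far a ha (fun y hy => by
      have hy0 : 0 ≤ y := by linarith [hy.1]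
      rw [abs_of_nonneg hy0]; exact ⟨hy.1, by linarith [hy.2]⟩)
  rcases le_or_gt b (-(b - a)) with hb | hb
  · exact far (-b) (by linarith) (fun y hy => by
      have hy0 : y ≤ 0 := by linarith [hy.2]
      rw [abs_of_nonpos hy0]; exact ⟨by linarith [hy.2], by linarith [hy.1]⟩)
  -- near the zero
  set L := b - a with hLd
  have hI : ∀ y ∈ Icc a b, |y| ≤ 2 * L := by
    intro y hy
    rw [abs_le]; constructor <;> linarith [hy.1, hy.2]
  have hI1 : ∀ y ∈ Icc a b, |y| ≤ 1 := fun y hy => (hI y hy).trans (by linarith)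
  have hL2 : 0 < 2 * L := by linarith
  have c : ∀ c : ℝ, ∫ _ in a..b, c = (b - a) * c := fun c => by
    rw [intervalIntegral.integral_const, smul_eq_mul]
  have hk : -1 < -κ := by linarith
  set X := (2 * L) ^ κ with hX
  have hXp : 0 < X := Real.rpow_pos_of_pos hL2 _
  have hHp : 0 < H := by linarith
  apply PP_of (X := X) (Y := 4 * H * X⁻¹)
    (g1 := κ * Real.log (2 * L) - (Real.log 4 + 1)) (g2 := κ * Real.log (2 * L)) hab
  · exact intervalIntegral.integral_nonneg hab.le (fun x _ => pf_nonneg κ x)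
  · rw [← c]
    refine intervalIntegral.integral_mono_on hab.le i1 intervalIntegrable_const (fun y hy => ?_)
    rw [pf_eq (hI1 y hy)]
    exact Real.rpow_le_rpow (abs_nonneg y) (hI y hy) h0
  · exact intervalIntegral.integral_nonneg hab.le (fun x _ => inv_nonneg.2 (pf_nonneg κ x))
  · have e1 : ∫ y in a..b, (pf κ y)⁻¹ = ∫ y in a..b, |y| ^ (-κ) := by
      apply intervalIntegral.integral_congr
      intro y hy
      rw [uIcc_of_le hab.le] at hy
      beta_reduce
      rw [pf_eq (hI1 y hy), ← Real.rpow_neg (abs_nonneg y)]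
    have e2 : ∫ y in a..b, |y| ^ (-κ) ≤ ∫ y in (-(2 * L))..(2 * L), |y| ^ (-κ) := by
      apply intervalIntegral.integral_mono_interval (by linarith) hab.le (by linarith)
      · exact Filter.Eventually.of_forall (fun y => Real.rpow_nonneg (abs_nonneg y) _)
      · exact ii_abs hk _ _
    rw [int_abs hk hL2.le] at e2
    have e3 : (2 * L) ^ (-κ + 1) = (2 * L) * X⁻¹ := by
      rw [Real.rpow_add hL2, Real.rpow_one, Real.rpow_neg hL2.le, mul_comm]
    rw [e1]
    refine e2.trans ?_
    rw [e3]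
    have e4 : 2 * (2 * L * X⁻¹ / (-κ + 1)) = L * (4 * (1 - κ)⁻¹ * X⁻¹) := by
      have : (1 - κ) ≠ 0 := by linarith
      rw [show -κ + 1 = 1 - κ by ring]; field_simp; ring
    rw [e4]
    apply mul_le_mul_of_nonneg_left _ hLp.le
    apply mul_le_mul_of_nonneg_right _ (inv_nonneg.2 hXp.le)
    linarith
  · have e1 : ∫ y in a..b, Real.log (pf κ y) = κ * (b * Real.log b - a * Real.log a - b + a) := by
      rw [← integral_log, ← intervalIntegral.integral_const_mul]
      apply intervalIntegral.integral_congr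
      intro y hy
      rw [uIcc_of_le hab.le] at hy
      exact pf_log κ y (hI1 y hy)
    rw [e1]
    have e2 := xlogx hab
    rw [← hLd] at e2
    have e3 : Real.log (2 * L) - Real.log 4 = Real.log (L / 2) := by
      rw [← Real.log_div (by positivity) (by norm_num)]; congr 1; ring
    have hl4 : 0 ≤ Real.log 4 := Real.log_nonneg (by norm_num)
    have e4 : κ * (L * Real.log (L/2)) ≤ κ * (b * Real.log b - a * Real.log a) :=
      mul_le_mul_of_nonneg_left e2 h0
    have e5 : κ * (b * Real.log b - a * Real.log a - b + a)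
        = κ * (b * Real.log b - a * Real.log a) - κ * L := by rw [hLd]; ring
    rw [e5]
    rw [← e3] at e4
    have e6 : κ * L ≤ L := by nlinarith
    have e7 : κ * (L * Real.log 4) ≤ L * Real.log 4 := by
      have : 0 ≤ L * Real.log 4 := by positivity
      nlinarith
    nlinarith
  · have e8 : ∀ᵐ y : ℝ, y ≠ 0 := by
      have : (volume : Measure ℝ) {0} = 0 := by simp
      exact compl_mem_ae_iff.2 this
    rw [← c]
    apply intervalIntegral.integral_mono_ae_restrict hab.le i3 intervalIntegrable_const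
    rw [Filter.EventuallyLE, ae_restrict_iff' measurableSet_Icc]
    filter_upwards [e8] with y hy hyI
    rw [pf_log κ y (hI1 y hyI)]
    apply mul_le_mul_of_nonneg_left _ h0
    rw [← Real.log_abs]
    exact Real.log_le_log (abs_pos.2 hy) (hI y hyI)
  · rw [Real.exp_sub, Real.exp_add, Real.exp_log (by norm_num : (0:ℝ) < 4)]
    have e9 : Real.exp (κ * Real.log (2 * L)) = X := by
      rw [hX, Real.rpow_def_of_pos hL2, mul_comm]
    rw [e9]
    have he : Real.exp 1 ≤ 3 := by have := Real.exp_one_lt_d9; linarith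
    have e10 : X ^ 2 * (4 * H * X⁻¹) = 4 * H * X := by field_simp
    rw [e10]
    have e11 : 64 * H ^ 2 * (X / (4 * Real.exp 1)) = 16 * H ^ 2 * X / Real.exp 1 := by
      field_simp; ring
    rw [e11, le_div_iff₀ (Real.exp_pos _)]
    have : 4 * H * X * Real.exp 1 ≤ 4 * H * X * 3 := by
      apply mul_le_mul_of_nonneg_left he (by positivity)
    nlinarith [mul_nonneg (mul_nonneg hHp.le hXp.le) (sub_nonneg.2 hH1)]
  · have e9 : Real.exp (κ * Real.log (2 * L)) = X := by
      rw [hX, Real.rpow_def_of_pos hL2, mul_comm]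
    rw [e9]
    have e10 : X * (4 * H * X⁻¹) ^ 2 * X = 16 * H ^ 2 := by field_simp; ring
    rw [e10]
    nlinarith [sq_nonneg H]

end Pool.Agent.H414R5
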