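import Pool.Agent.H414R5.W2

set_option autoImplicit false
open MeasureTheory Set

namespace Pool.Agent.H414R5

lemma qq_eq (κ x : ℝ) : qq κ x = pf κ (16 * x - 11) := rfl

lemma int_ind {a b c d : ℝ} (hab : a ≤ b) (u : ℝ → ℝ) (h : max a c ≤ min b d) :
    ∫ x in a..b, (Ico c d).indicator u x = ∫ x in (max a c)..(min b d), u x := by
  rw [intervalIntegral.integral_of_le hab, intervalIntegral.integral_of_le h,
    setIntegral_indicator measurableSet_Ico]
  have h1 : (Ioc a b ∩ Ico c d : Set ℝ) =ᵐ[volume] (Ioc a b ∩ Ioc c d : Set ℝ) :=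
    (Filter.EventuallyEq.refl _ _).inter Ico_ae_eq_Ioc
  rw [setIntegral_congr_set h1, Ioc_inter_Ioc]

lemma int_ind_zero {a b c d : ℝ} (hab : a ≤ b) (u : ℝ → ℝ) (h : min b d ≤ max a c) :
    ∫ x in a..b, (Ico c d).indicator u x = 0 := by
  rw [intervalIntegral.integral_of_le hab,
    setIntegral_indicator measurableSet_Ico]
  have h1 : (Ioc a b ∩ Ico c d : Set ℝ) =ᵐ[volume] (Ioc a b ∩ Ioc c d : Set ℝ) :=
    (Filter.EventuallyEq.refl _ _).inter Ico_ae_eq_Ioc
  rw [setIntegral_congr_set h1, Ioc_inter_Ioc]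
  have : Ioc (max a c) (min b d) = (∅ : Set ℝ) := Ioc_eq_empty (not_lt.2 h)
  have h2 : Ioc (a ⊔ c) (b ⊓ d) = (∅ : Set ℝ) := this
  rw [h2]; simp

lemma ii_comp {f : ℝ → ℝ} (hf : ∀ a b, IntervalIntegrable f volume a b) (c : ℝ) {e : ℝ}
    (he : 0 < e) (a b : ℝ) : IntervalIntegrable (fun x => f ((x - c) / e)) volume a b := by
  have h1 := (hf ((a - c) / e) ((b - c) / e)).comp_mul_right (c := e⁻¹)
  have h2 := h1.comp_sub_right c
  have e1 : (a - c) / e / e⁻¹ + c = a := by field_simp; ring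
  have e2 : (b - c) / e / e⁻¹ + c = b := by field_simp; ring
  rw [e1, e2] at h2
  simpa only [div_eq_mul_inv] using h2

lemma ii_ind {f : ℝ → ℝ} {s : Set ℝ} (hs : MeasurableSet s) {a b : ℝ}
    (hf : IntervalIntegrable f volume a b) : IntervalIntegrable (s.indicator f) volume a b :=
  ⟨hf.1.indicator hs, hf.2.indicator hs⟩

lemma int_comp (g : ℝ → ℝ) (a b c : ℝ) {e : ℝ} (he : 0 < e) :
    ∫ x in a..b, g ((x - c) / e) = e * ∫ x in (a - c)/e..(b - c)/e, g x := by
  have := intervalIntegral.integral_comp_div_sub (f := g) (a := a) (b := b) he.ne' (c / e)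
  simp only [← sub_div, smul_eq_mul] at this
  exact this

namespace Par

variable {P : Par}

namespace Good

variable (G : P.Good)
include G

lemma e_lt1 : P.ε < 1 := lt_of_le_of_lt G.e1 (by norm_num)

lemma h_pos : 0 < P.h := by
  rw [G.hh]; have := G.e0; positivity

lemma pow_le_one' (k : ℕ) : P.ε ^ k ≤ 1 := pow_le_one₀ G.e0.le G.e_lt1.le

lemma h_big : 16 ≤ P.h := by
  rw [G.hh]
  rw [le_inv_comm₀ (by norm_num) (pow_pos G.e0 _)]
  have h1 : 4 * P.J ≥ 1 := by have := G.J2; omega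
  calc P.ε ^ (4 * P.J) ≤ P.ε ^ 1 := pow_le_pow_of_le_one G.e0.le G.e_lt1.le h1
    _ = P.ε := pow_one _
    _ ≤ 1/16 := G.e1
    _ = (16:ℝ)⁻¹ := by norm_num

lemma one_le_h : 1 ≤ P.h := by linarith [G.h_big]

lemma b_pos (j : ℕ) : 0 < P.b j := div_pos (pow_pos G.e0 _) G.h_pos

lemma b_le (j : ℕ) : P.b j ≤ 1 / P.h :=
  div_le_div_of_nonneg_right (G.pow_le_one' _) G.h_pos.le

lemma b_le' (j : ℕ) : P.b j ≤ 1 / 16 :=
  (G.b_le j).trans (one_div_le_one_div_of_le (by norm_num) G.h_big)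

lemma kap_nonneg (j : ℕ) : 0 ≤ P.kap j := by
  unfold kap
  split_ifs
  · exact le_rfl
  · have : 1 / P.h ≤ 1 := by rw [div_le_one G.h_pos]; exact G.one_le_h
    linarith

lemma kap_lt (j : ℕ) : P.kap j < 1 := by
  unfold kap
  split_ifs
  · exact one_pos
  · have : 0 < 1 / P.h := one_div_pos.2 G.h_pos
    linarith

lemma kap_inv (j : ℕ) : (1 - P.kap j)⁻¹ ≤ P.h := by
  unfold kap
  split_ifs
  · simp [G.one_le_h]
  · rw [sub_sub_cancel, one_div, inv_inv]

lemma nx_le (j : ℕ) : P.nx j ≤ P.J := min_le_right _ _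

lemma one_le_nx {j : ℕ} : 1 ≤ P.nx j := by
  have := G.J2
  unfold nx; omega

lemma b_mono_nx (j : ℕ) : P.b j ≤ P.b (P.nx j) := by
  unfold b
  apply div_le_div_of_nonneg_right _ G.h_pos.le
  apply pow_le_pow_of_le_one G.e0.le G.e_lt1.le
  unfold nx; omega

lemma b_nx_le {j : ℕ} (hj : j ≤ P.J) : P.b (P.nx j) ≤ P.b j / P.ε := by
  have h0 := G.e0
  rcases hj.eq_or_lt with h | h
  · have : P.nx j = P.J := by unfold nx; omega
    rw [this, h]
    rw [le_div_iff₀ h0]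
    have := G.b_pos P.J
    nlinarith [G.e_lt1]
  · have e1 : P.nx j = j + 1 := by unfold nx; omega
    have e2 : P.J - j = (P.J - (j+1)) + 1 := by omega
    rw [e1]
    unfold b
    rw [e2, pow_succ]
    have := G.h_pos
    apply le_of_eq
    field_simp

lemma mu_le (j : ℕ) : P.mu j ≤ 1 := by
  unfold mu
  have h1 : ∫ x in (0:ℝ)..1, qq (P.kap j) x ≤ ∫ x in (0:ℝ)..1, (1:ℝ) := by
    apply intervalIntegral.integral_mono_on (by norm_num)
    · exact ((pf_cont (G.kap_nonneg j)).comp (by fun_prop)).intervalIntegrable _ _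
    · exact intervalIntegrable_const
    · intro x _; exact pf_le_one (G.kap_nonneg j) _
  simpa using h1

lemma qii (j : ℕ) (a b : ℝ) : IntervalIntegrable (qq (P.kap j)) volume a b :=
  ((pf_cont (G.kap_nonneg j)).comp (by fun_prop : Continuous fun x : ℝ => 16 * x - 11)).intervalIntegrable _ _

lemma qq_one {κ x : ℝ} (hx : x ≤ 5/8 ∨ 3/4 ≤ x) : qq κ x = 1 := by
  rw [qq_eq]
  apply pf_one
  rcases hx with h | h
  · rw [abs_of_nonpos (by linarith)]; linarith
  · rw [abs_of_nonneg (by linarith)]; linarith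

lemma mu_ge (j : ℕ) : 1 / 2 ≤ P.mu j := by
  unfold mu
  rw [← intervalIntegral.integral_add_adjacent_intervals (G.qii j 0 (1/2)) (G.qii j (1/2) 1)]
  have h1 : ∫ x in (0:ℝ)..(1/2), qq (P.kap j) x = 1/2 := by
    have : ∫ x in (0:ℝ)..(1/2), qq (P.kap j) x = ∫ x in (0:ℝ)..(1/2), (1:ℝ) := by
      apply intervalIntegral.integral_congr
      intro x hx
      rw [uIcc_of_le (by norm_num)] at hx
      exact G.qq_one (Or.inl (by linarith [hx.2]))
    rw [this]; norm_num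
  have h2 : 0 ≤ ∫ x in (1/2:ℝ)..1, qq (P.kap j) x :=
    intervalIntegral.integral_nonneg (by norm_num) (fun x _ => pf_nonneg _ _)
  linarith

lemma A_mul (j : ℕ) : P.ε * P.A j = 1 - P.ε - P.b j * (P.mu j - 2 * P.ε) := by
  unfold A; have := G.e0; field_simp

lemma A_ge (j : ℕ) : 1 / 2 ≤ P.ε * P.A j := by
  rw [G.A_mul]
  have h1 := G.b_le' j
  have h2 := G.b_pos j
  have h3 := G.mu_le j
  have h4 := G.e1
  have h5 := G.e0
  nlinarith

lemma A_le (j : ℕ) : P.ε * P.A j ≤ 1 := by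
  rw [G.A_mul]
  have h2 := G.b_pos j
  have h3 := G.mu_ge j
  have h4 := G.e1
  have h5 := G.e0
  nlinarith

lemma A_one (j : ℕ) : 1 ≤ P.A j := by
  have h1 := G.A_ge j
  have h2 := G.e1
  have h5 := G.e0
  by_contra h
  push Not at h
  nlinarith

lemma A_le' (j : ℕ) : P.A j ≤ 1 / P.ε := by
  rw [le_div_iff₀ G.e0, mul_comm]; exact G.A_le j

end Good

end Par

end Pool.Agent.H414R5
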