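import Pool.Agent.H414R5.W4

set_option autoImplicit false
set_option linter.unusedSectionVars false
open MeasureTheory Set

namespace Pool.Agent.H414R5

lemma pf_log_int {κ : ℝ} (h0 : 0 ≤ κ) (h1 : κ ≤ 1) :
    -2 ≤ ∫ y in (-11:ℝ)..5, Real.log (pf κ y) := by
  rw [← intervalIntegral.integral_add_adjacent_intervals (pf_ii_log κ h0 (-11) (-1))
    (pf_ii_log κ h0 (-1) 5), ← intervalIntegral.integral_add_adjacent_intervals
    (pf_ii_log κ h0 (-1) 1) (pf_ii_log κ h0 1 5)]
  have i1 : ∫ y in (-11:ℝ)..(-1), Real.log (pf κ y) = 0 := by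
    have : ∫ y in (-11:ℝ)..(-1), Real.log (pf κ y) = ∫ y in (-11:ℝ)..(-1), (0:ℝ) := by
      apply intervalIntegral.integral_congr
      intro y hy
      rw [uIcc_of_le (by norm_num)] at hy
      apply pf_log_one
      rw [abs_of_nonpos (by linarith [hy.2])]; linarith [hy.2]
    rw [this]; simp
  have i3 : ∫ y in (1:ℝ)..5, Real.log (pf κ y) = 0 := by
    have : ∫ y in (1:ℝ)..5, Real.log (pf κ y) = ∫ y in (1:ℝ)..5, (0:ℝ) := by
      apply intervalIntegral.integral_congr
      intro y hy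
      rw [uIcc_of_le (by norm_num)] at hy
      apply pf_log_one
      rw [abs_of_nonneg (by linarith [hy.1])]; linarith [hy.1]
    rw [this]; simp
  have i2 : ∫ y in (-1:ℝ)..1, Real.log (pf κ y) = κ * (-2) := by
    have : ∫ y in (-1:ℝ)..1, Real.log (pf κ y) = ∫ y in (-1:ℝ)..1, κ * Real.log y := by
      apply intervalIntegral.integral_congr
      intro y hy
      rw [uIcc_of_le (by norm_num)] at hy
      exact pf_log κ y (abs_le.2 hy)
    rw [this, intervalIntegral.integral_const_mul, integral_log]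
    norm_num
  rw [i1, i2, i3]; linarith

namespace Par

variable (P : Par)

/-- bound for the average of the inverse -/
noncomputable def r (j : ℕ) : ℝ := P.h ^ 2 * P.ε ^ (P.J - j) * (3 - j / P.J)

variable {P}

namespace Good

variable (G : P.Good)
include G

lemma L_ge : 2 ≤ Real.log (1 / P.ε) := by
  have h1 : (16:ℝ) ≤ 1 / P.ε := by
    rw [le_div_iff₀ G.e0]; have := G.e1; linarith
  have h2 : Real.log 16 ≤ Real.log (1 / P.ε) := Real.log_le_log (by norm_num) h1
  have h3 : Real.log 16 = 4 * Real.log 2 := by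
    rw [show (16:ℝ) = 2 ^ (4:ℕ) by norm_num, Real.log_pow]; norm_num
  have := Real.log_two_gt_d9
  linarith

lemma log_e : Real.log P.ε = - Real.log (1 / P.ε) := by
  rw [one_div, Real.log_inv]; ring

lemma Jpos : (0:ℝ) < P.J := by have := G.J2; positivity

lemma J2' : (2:ℝ) ≤ P.J := by exact_mod_cast G.J2

lemma eJ : P.ε * P.J ≤ 1 / 128 := by
  have h1 := G.sm
  have h2 := G.L_ge
  have h3 : 0 ≤ P.ε * P.J := mul_nonneg G.e0.le G.Jpos.le
  nlinarith

lemma eL : P.ε * Real.log (1 / P.ε) ≤ 1 / 64 := by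
  have h1 := G.sm
  have h2 := G.L_ge
  have h3 : 0 ≤ P.ε * Real.log (1 / P.ε) := mul_nonneg G.e0.le (by linarith)
  have h4 := G.J2'
  nlinarith

lemma log_h : Real.log P.h = 4 * (P.J * Real.log (1 / P.ε)) := by
  rw [G.hh, Real.log_inv, Real.log_pow, G.log_e]; push_cast; ring

lemma log_b (j : ℕ) : Real.log (P.b j) = - ((P.J - j : ℕ) : ℝ) * Real.log (1 / P.ε) - Real.log P.h := by
  unfold b
  rw [Real.log_div (pow_pos G.e0 _).ne' G.h_pos.ne', Real.log_pow, G.log_e]; ring

lemma log_b_le (j : ℕ) : Real.log (P.b j) ≤ - Real.log P.h := by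
  rw [G.log_b]
  have := G.L_ge
  have h : (0:ℝ) ≤ ((P.J - j : ℕ) : ℝ) := by positivity
  nlinarith

lemma log_b_ge (j : ℕ) : -(P.J * Real.log (1 / P.ε)) - Real.log P.h ≤ Real.log (P.b j) := by
  rw [G.log_b]
  have := G.L_ge
  have h : ((P.J - j : ℕ) : ℝ) ≤ P.J := by exact_mod_cast Nat.sub_le _ _
  nlinarith

lemma eh (k : ℕ) (hk : k ≤ 4 * P.J) : P.h * P.ε ^ k = (P.ε ^ (4 * P.J - k))⁻¹ := by
  rw [G.hh]
  have : P.ε ^ (4 * P.J) = P.ε ^ k * P.ε ^ (4 * P.J - k) := by rw [← pow_add]; congr 1; omega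
  rw [this]
  have h1 := (pow_pos G.e0 k).ne'
  have h2 := (pow_pos G.e0 (4 * P.J - k)).ne'
  field_simp

lemma inv_pow_ge {k : ℕ} (hk : 1 ≤ k) : 1 / P.ε ≤ (P.ε ^ k)⁻¹ := by
  rw [one_div]
  apply inv_anti₀ (pow_pos G.e0 _)
  calc P.ε ^ k ≤ P.ε ^ 1 := pow_le_pow_of_le_one G.e0.le G.e_lt1.le hk
    _ = P.ε := pow_one _

lemma oneE_ge : 128 * P.J ≤ 1 / P.ε := by
  rw [le_div_iff₀ G.e0]; have := G.eJ; linarith

lemma qinv_int (j : ℕ) : ∫ x in (0:ℝ)..1, (qq (P.kap j) x)⁻¹ ≤ 3 / 2 * P.h := by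
  have e : (fun x : ℝ => (qq (P.kap j) x)⁻¹) = fun x => (fun y => (pf (P.kap j) y)⁻¹) ((x - 11/16) / (1/16)) := by
    ext x; rw [qq_eq]; congr 2; ring
  have e3 := int_comp (fun y => (pf (P.kap j) y)⁻¹) 0 1 (11/16) (e := 1/16) (by norm_num)
  have e1 : ((0:ℝ) - 11/16) / (1/16) = -11 := by norm_num
  have e2 : ((1:ℝ) - 11/16) / (1/16) = 5 := by norm_num
  rw [e1, e2] at e3
  rw [e]
  refine le_trans (le_of_eq e3) ?_
  have k1 := G.kap_lt j
  have k0 := G.kap_nonneg j
  have ia : IntervalIntegrable (fun y : ℝ => |y| ^ (-(P.kap j))) volume (-11) 11 :=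
    ii_abs (by linarith) _ _
  have h1 : ∫ y in (-11:ℝ)..5, (pf (P.kap j) y)⁻¹ ≤ ∫ y in (-11:ℝ)..11, (pf (P.kap j) y)⁻¹ :=
    intervalIntegral.integral_mono_interval le_rfl (by norm_num) (by norm_num)
      (Filter.Eventually.of_forall (fun y => inv_nonneg.2 (pf_nonneg _ _)))
      (pf_ii_inv _ k0 k1 _ _)
  have h2 : ∫ y in (-11:ℝ)..11, (pf (P.kap j) y)⁻¹ ≤ ∫ y in (-11:ℝ)..11, (1 + |y| ^ (-(P.kap j))) :=
    intervalIntegral.integral_mono_on (by norm_num) (pf_ii_inv _ k0 k1 _ _)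
      (intervalIntegrable_const.add ia) (fun y _ => pf_inv_le y)
  rw [intervalIntegral.integral_add intervalIntegrable_const ia,
    int_abs (by linarith) (by norm_num), intervalIntegral.integral_const, smul_eq_mul] at h2
  have h3 : (11:ℝ) ^ (-(P.kap j) + 1) ≤ 11 := by
    calc (11:ℝ) ^ (-(P.kap j) + 1) ≤ (11:ℝ) ^ (1:ℝ) :=
          Real.rpow_le_rpow_of_exponent_le (by norm_num) (by linarith)
      _ = 11 := Real.rpow_one _
  have h4 : (11:ℝ) ^ (-(P.kap j) + 1) / (-(P.kap j) + 1) ≤ 11 * P.h := by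
    rw [div_eq_mul_inv]
    have h5 := G.kap_inv j
    have h6 : (-(P.kap j) + 1)⁻¹ = (1 - P.kap j)⁻¹ := by congr 1; ring
    rw [h6]
    have h7 : 0 ≤ (1 - P.kap j)⁻¹ := inv_nonneg.2 (by linarith)
    exact mul_le_mul h3 h5 h7 (by norm_num)
  have := G.h_big
  norm_num at h2 ⊢
  linarith

lemma qinv_one {j : ℕ} (hj : j < P.J) : ∫ x in (0:ℝ)..1, (qq (P.kap j) x)⁻¹ = 1 := by
  have : (fun x : ℝ => (qq (P.kap j) x)⁻¹) = fun _ => 1 := by
    ext x; unfold qq kap; rw [if_pos hj, Real.rpow_zero, inv_one]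
  rw [this]; simp

lemma r_bounds {j : ℕ} (hj : j ≤ P.J) : 2 * (P.h ^ 2 * P.ε ^ (P.J - j)) ≤ P.r j ∧
    P.r j ≤ 3 * (P.h ^ 2 * P.ε ^ (P.J - j)) := by
  have h1 : 0 ≤ P.h ^ 2 * P.ε ^ (P.J - j) := by have := G.e0; positivity
  have h2 : (j:ℝ) / P.J ≤ 1 := by rw [div_le_one G.Jpos]; exact_mod_cast hj
  have h3 : 0 ≤ (j:ℝ) / P.J := by positivity
  unfold r
  constructor <;> nlinarith

lemma r_le {j : ℕ} (hj : j ≤ P.J) : P.r j ≤ 3 * (P.h ^ 3 * P.b j) := by
  refine (G.r_bounds hj).2.trans (le_of_eq ?_)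
  unfold b; have := G.h_pos; field_simp

/-- (A2) -/
lemma ag2 (n j : ℕ) (hj1 : 1 ≤ j) (hj : j ≤ P.J) : ∫ x in (0:ℝ)..1, (P.wt n j x)⁻¹ ≤ P.r j := by
  have e0 := G.e0
  have hp := G.h_pos
  induction n generalizing j with
  | zero =>
    simp only [wt, inv_one, intervalIntegral.integral_const, sub_zero, one_smul]
    refine le_trans ?_ (G.r_bounds hj).1
    have h1 := G.eh (P.J - j) (by omega)
    have h2 : 1 ≤ (P.ε ^ (4 * P.J - (P.J - j)))⁻¹ := by
      rw [one_le_inv₀ (pow_pos e0 _)]; exact G.pow_le_one' _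
    have h3 := G.one_le_h
    calc (1:ℝ) ≤ P.h * (P.h * P.ε ^ (P.J - j)) := by rw [h1]; nlinarith
      _ ≤ 2 * (P.h * (P.h * P.ε ^ (P.J - j))) := by
          have : 0 ≤ P.h * (P.h * P.ε ^ (P.J - j)) := by positivity
          linarith
      _ = _ := by ring
  | succ n ih =>
    have hA := G.A_one j
    have hb := G.b_pos j
    have s := G.int_split (fun x => x⁻¹) n j
      (fun a b => by simp only [mul_inv]; exact (G.qi_inv j a b).const_mul _)
      (G.ii2 n (P.nx j)) (fun a b => by simp only [mul_inv]; exact (G.ii2 n 1 a b).const_mul _)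
    simp only [mul_inv] at s
    rw [intervalIntegral.integral_const_mul, intervalIntegral.integral_const_mul] at s
    have i1 := ih 1 le_rfl (by have := G.J2; omega)
    have i2 := ih (P.nx j) G.one_le_nx (G.nx_le j)
    have r1 := (G.r_bounds (j := 1) (by have := G.J2; omega)).2
    have hA2 := G.A_ge j
    have hAi : P.ε * (P.A j)⁻¹ ≤ 2 * P.ε ^ 2 := by
      rw [← div_eq_mul_inv, div_le_iff₀ (by linarith)]
      nlinarith
    have hAr : P.ε * ((P.A j)⁻¹ * ∫ x in (0:ℝ)..1, (P.wt n 1 x)⁻¹)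
        ≤ 6 * (P.h ^ 2 * P.ε ^ (P.J + 1)) := by
      have w0 : 0 ≤ ∫ x in (0:ℝ)..1, (P.wt n 1 x)⁻¹ :=
        intervalIntegral.integral_nonneg (by norm_num) (fun x _ => inv_nonneg.2 (G.wt_nonneg _ _ _))
      calc P.ε * ((P.A j)⁻¹ * ∫ x in (0:ℝ)..1, (P.wt n 1 x)⁻¹)
          = (P.ε * (P.A j)⁻¹) * ∫ x in (0:ℝ)..1, (P.wt n 1 x)⁻¹ := by ring
        _ ≤ (2 * P.ε ^ 2) * (3 * (P.h ^ 2 * P.ε ^ (P.J - 1))) := by
            apply mul_le_mul hAi (i1.trans r1) w0 (by positivity)
        _ = 6 * (P.h ^ 2 * (P.ε ^ 2 * P.ε ^ (P.J - 1))) := by ring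
        _ = _ := by rw [← pow_add, show 2 + (P.J - 1) = P.J + 1 by have := G.J2; omega]
    have hbi : 0 ≤ P.ε * (P.b j)⁻¹ := by positivity
    have hmain : (∫ x in (0:ℝ)..1, (P.wt (n+1) j x)⁻¹) ≤ (P.b j)⁻¹ * (∫ x in (0:ℝ)..1, (qq (P.kap j) x)⁻¹)
        + P.ε * P.r (P.nx j) + 6 * (P.h ^ 2 * P.ε ^ (P.J + 1)) := by
      rw [s]
      have := mul_le_mul_of_nonneg_left i2 e0.le
      linarith
    refine hmain.trans ?_
    rcases hj.eq_or_lt with h | h
    · -- j = J
      have hn : P.nx j = j := by unfold nx; omega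
      rw [hn]
      have q1 := G.qinv_int j
      have bJ : (P.b j)⁻¹ = P.h := by unfold b; rw [h]; simp
      rw [bJ]
      have rJ1 : P.r j = 2 * P.h ^ 2 := by
        unfold r; rw [h]; rw [div_self G.Jpos.ne']; simp; ring
      rw [rJ1]
      have p1 : P.ε ^ (P.J + 1) ≤ P.ε ^ 2 :=
        pow_le_pow_of_le_one e0.le G.e_lt1.le (by have := G.J2; omega)
      have p2 : P.ε ^ 2 ≤ 1 / 256 := by have := G.e1; nlinarith
      have p3 : P.h * ∫ x in (0:ℝ)..1, (qq (P.kap j) x)⁻¹ ≤ P.h * (3 / 2 * P.h) :=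
        mul_le_mul_of_nonneg_left q1 hp.le
      have h2 : 0 ≤ P.h ^ 2 := by positivity
      have p4 : P.h ^ 2 * P.ε ^ (P.J + 1) ≤ P.h ^ 2 * (1 / 256) :=
        mul_le_mul_of_nonneg_left (p1.trans p2) h2
      have p5 : P.ε * (2 * P.h ^ 2) ≤ 1 / 16 * (2 * P.h ^ 2) :=
        mul_le_mul_of_nonneg_right G.e1 (by positivity)
      nlinarith
    · rw [G.qinv_one h, mul_one]
      have hn : P.nx j = j + 1 := by unfold nx; omega
      rw [hn]
      set E := P.ε ^ (P.J - j) with hE
      have Epos : 0 < E := pow_pos e0 _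
      have eE : P.ε * P.ε ^ (P.J - (j + 1)) = E := by
        rw [hE, ← pow_succ']; congr 1; omega
      have H1 : 2 * P.J ≤ P.h * E ^ 2 := by
        rw [hE, ← pow_mul, G.eh ((P.J - j) * 2) (by omega)]
        have := G.inv_pow_ge (k := 4 * P.J - (P.J - j) * 2) (by omega)
        have := G.oneE_ge
        have := G.Jpos
        linarith
      have H2 : 12 * P.J * P.ε ^ (P.J + 1) ≤ E := by
        have : P.ε ^ (P.J + 1) = E * P.ε ^ (j + 1) := by rw [hE, ← pow_add]; congr 1; omega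
        rw [this]
        have p1 : P.ε ^ (j + 1) ≤ P.ε ^ 2 :=
          pow_le_pow_of_le_one e0.le G.e_lt1.le (by omega)
        have p2 : 12 * P.J * P.ε ^ (j+1) ≤ 1 := by
          have := G.eJ
          have := G.e1
          have := G.Jpos
          calc 12 * P.J * P.ε ^ (j+1) ≤ 12 * P.J * P.ε ^ 2 := by gcongr
            _ = 12 * (P.ε * P.J) * P.ε := by ring
            _ ≤ 12 * (1/128) * (1/16) := by gcongr
            _ ≤ 1 := by norm_num
        calc 12 * P.J * (E * P.ε ^ (j + 1)) = E * (12 * P.J * P.ε ^ (j+1)) := by ring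
          _ ≤ E * 1 := by gcongr
          _ = E := mul_one _
      have bj : (P.b j)⁻¹ = P.h / E := by unfold b; rw [inv_div]
      rw [bj]
      have rj : P.r j = P.h ^ 2 * E * (3 - j / P.J) := rfl
      have rj1 : P.ε * P.r (j+1) = P.h ^ 2 * E * (3 - (j + 1) / P.J) := by
        unfold r; rw [← eE]; push_cast; ring
      rw [rj, rj1]
      have Jp := G.Jpos
      have k1 : P.h / E ≤ P.h ^ 2 * E / (2 * P.J) := by
        rw [div_le_div_iff₀ Epos (by positivity)]
        calc P.h * (2 * P.J) ≤ P.h * (P.h * E ^ 2) := by gcongr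
          _ = _ := by ring
      have k2 : 6 * (P.h ^ 2 * P.ε ^ (P.J + 1)) ≤ P.h ^ 2 * E / (2 * P.J) := by
        rw [le_div_iff₀ (by positivity)]
        calc 6 * (P.h ^ 2 * P.ε ^ (P.J + 1)) * (2 * P.J) = P.h ^ 2 * (12 * P.J * P.ε ^ (P.J + 1)) := by ring
          _ ≤ P.h ^ 2 * E := by gcongr
      have k3 : P.h ^ 2 * E * (3 - j / P.J) - P.h ^ 2 * E * (3 - (j + 1) / P.J)
          = P.h ^ 2 * E / (2 * P.J) + P.h ^ 2 * E / (2 * P.J) := by field_simp; ring
      linarith

lemma ii4 (c : ℝ) (n j : ℕ) (a b : ℝ) :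
    IntervalIntegrable (fun x => max (c - Real.log (P.wt n j x)) 0) volume a b :=
  ii_max0 (intervalIntegrable_const.sub (G.ii3 n j a b))

lemma ii5 (c : ℝ) (n j : ℕ) (a b : ℝ) :
    IntervalIntegrable (fun x => max (Real.log (P.wt n j x) - c) 0) volume a b :=
  ii_max0 ((G.ii3 n j a b).sub intervalIntegrable_const)

lemma iiq (j i : ℕ) (a b : ℝ) :
    IntervalIntegrable (fun x => Real.log (P.b j * qq (P.kap i) x)) volume a b := by
  refine ((intervalIntegrable_const (c := Real.log (P.b j))).add (G.qi_log i a b)).congr_ae ?_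
  apply ae_restrict_of_ae
  filter_upwards [G.qq_ne i] with x hx
  rw [Real.log_mul (G.b_pos j).ne' hx]

lemma iiA (n j : ℕ) (a b : ℝ) :
    IntervalIntegrable (fun x => Real.log (P.A j * P.wt n 1 x)) volume a b := by
  refine ((intervalIntegrable_const (c := Real.log (P.A j))).add (G.ii3 n 1 a b)).congr_ae ?_
  apply ae_restrict_of_ae
  filter_upwards [G.log_A n j] with x hx
  rw [hx]

lemma log_A_le (j : ℕ) : Real.log (P.A j) ≤ Real.log (1 / P.ε) :=
  Real.log_le_log (by linarith [G.A_one j]) (G.A_le' j)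

lemma log_A_nonneg (j : ℕ) : 0 ≤ Real.log (P.A j) := Real.log_nonneg (G.A_one j)

/-- (A3) -/
lemma ag3 (n j : ℕ) : ∫ x in (0:ℝ)..1, max (Real.log (P.b j) - Real.log (P.wt n j x)) 0 ≤ 1 := by
  have e0 := G.e0
  have hlh : 0 ≤ Real.log P.h := Real.log_nonneg G.one_le_h
  induction n generalizing j with
  | zero =>
    have h1 : Real.log (P.b j) ≤ 0 := (G.log_b_le j).trans (by linarith)
    simp only [wt, Real.log_one, sub_zero]
    rw [max_eq_right h1]; simp
  | succ n ih =>
    have s := G.int_split (fun x => max (Real.log (P.b j) - Real.log x) 0) n j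
      (fun a b => ii_max0 (intervalIntegrable_const.sub (G.iiq j j a b)))
      (fun a b => G.ii4 _ _ _ a b)
      (fun a b => ii_max0 (intervalIntegrable_const.sub (G.iiA n j a b)))
    simp only [sub_self, max_self, sub_zero] at s
    rw [s]
    have t1 : ∫ x in (0:ℝ)..1, max (Real.log (P.b j) - Real.log (P.b j * qq (P.kap j) x)) 0 ≤ 1 / 8 := by
      have e1 : ∫ x in (0:ℝ)..1, max (Real.log (P.b j) - Real.log (P.b j * qq (P.kap j) x)) 0
          = ∫ x in (0:ℝ)..1, -Real.log (qq (P.kap j) x) := by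
        apply intervalIntegral.integral_congr_ae
        filter_upwards [G.qq_ne j] with x hx _
        rw [Real.log_mul (G.b_pos j).ne' hx]
        have h1 : Real.log (qq (P.kap j) x) ≤ 0 :=
          Real.log_nonpos (pf_nonneg _ _) (pf_le_one (G.kap_nonneg j) _)
        rw [max_eq_left (by linarith)]; ring
      have e2 : ∫ x in (0:ℝ)..1, Real.log (qq (P.kap j) x)
          = 1/16 * ∫ y in (-11:ℝ)..5, Real.log (pf (P.kap j) y) := by
        have e3 := int_comp (fun y => Real.log (pf (P.kap j) y)) 0 1 (11/16) (e := 1/16) (by norm_num)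
        have a1 : ((0:ℝ) - 11/16) / (1/16) = -11 := by norm_num
        have a2 : ((1:ℝ) - 11/16) / (1/16) = 5 := by norm_num
        rw [a1, a2] at e3
        rw [← e3]
        congr 1; ext x
        rw [qq_eq]; congr 2; ring
      rw [e1, intervalIntegral.integral_neg, e2]
      have := pf_log_int (G.kap_nonneg j) (G.kap_lt j).le
      linarith
    have t2 : ∫ x in (0:ℝ)..1, max (Real.log (P.b j) - Real.log (P.wt n (P.nx j) x)) 0 ≤ 1 := by
      refine le_trans ?_ (ih (P.nx j))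
      apply intervalIntegral.integral_mono_on (by norm_num) (G.ii4 _ _ _ _ _) (G.ii4 _ _ _ _ _)
      intro x _
      apply max_le_max _ le_rfl
      have := Real.log_le_log (G.b_pos j) (G.b_mono_nx j)
      linarith
    have t3 : ∫ x in (0:ℝ)..1, max (Real.log (P.b j) - Real.log (P.A j * P.wt n 1 x)) 0
        ≤ 1 + P.J * Real.log (1 / P.ε) := by
      have e1 : ∫ x in (0:ℝ)..1, max (Real.log (P.b j) - Real.log (P.A j * P.wt n 1 x)) 0
          = ∫ x in (0:ℝ)..1, max (Real.log (P.b j) - (Real.log (P.A j) + Real.log (P.wt n 1 x))) 0 := by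
        apply intervalIntegral.integral_congr_ae
        filter_upwards [G.log_A n j] with x hx _
        rw [hx]
      rw [e1]
      have e2 : ∫ x in (0:ℝ)..1, max (Real.log (P.b j) - (Real.log (P.A j) + Real.log (P.wt n 1 x))) 0
          ≤ ∫ x in (0:ℝ)..1, (max (Real.log (P.b 1) - Real.log (P.wt n 1 x)) 0 + P.J * Real.log (1 / P.ε)) := by
        apply intervalIntegral.integral_mono_on (by norm_num) _
          ((G.ii4 _ _ _ _ _).add intervalIntegrable_const)
        · intro x _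
          have l1 := G.log_b_le j
          have l2 := G.log_b_ge 1
          have l3 := G.log_A_nonneg j
          have l4 : 0 ≤ P.J * Real.log (1 / P.ε) := mul_nonneg G.Jpos.le (by linarith [G.L_ge])
          apply max_le
          · have := le_max_left (Real.log (P.b 1) - Real.log (P.wt n 1 x)) 0
            linarith
          · have := le_max_right (Real.log (P.b 1) - Real.log (P.wt n 1 x)) 0
            linarith
        · exact ii_max0 (intervalIntegrable_const.sub (intervalIntegrable_const.add (G.ii3 n 1 _ _)))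
      refine e2.trans ?_
      rw [intervalIntegral.integral_add (G.ii4 _ _ _ _ _) intervalIntegrable_const]
      have := ih 1
      simp
      linarith
    have m1 := mul_le_mul_of_nonneg_left t2 e0.le
    have m2 := mul_le_mul_of_nonneg_left t3 e0.le
    have := G.sm
    have := G.e1
    linarith

/-- (A4) -/
lemma ag4 (n j : ℕ) : ∫ x in (0:ℝ)..1, max (Real.log (P.wt (n+1) j x) - Real.log (P.b j)) 0 ≤ 1 := by
  have e0 := G.e0
  have hLL : 0 ≤ Real.log (1 / P.ε) := by linarith [G.L_ge]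
  have hJL : 0 ≤ P.J * Real.log (1 / P.ε) := mul_nonneg G.Jpos.le hLL
  have s := G.int_split (fun x => max (Real.log x - Real.log (P.b j)) 0) n j
      (fun a b => ii_max0 ((G.iiq j j a b).sub intervalIntegrable_const))
      (fun a b => G.ii5 _ _ _ a b)
      (fun a b => ii_max0 ((G.iiA n j a b).sub intervalIntegrable_const))
  simp only [sub_self, max_self, sub_zero] at s
  rw [s]
  have t1 : ∫ x in (0:ℝ)..1, max (Real.log (P.b j * qq (P.kap j) x) - Real.log (P.b j)) 0 = 0 := by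
    have e1 : ∫ x in (0:ℝ)..1, max (Real.log (P.b j * qq (P.kap j) x) - Real.log (P.b j)) 0
          = ∫ x in (0:ℝ)..1, (0:ℝ) := by
        apply intervalIntegral.integral_congr_ae
        filter_upwards [G.qq_ne j] with x hx _
        rw [Real.log_mul (G.b_pos j).ne' hx]
        have h1 : Real.log (qq (P.kap j) x) ≤ 0 :=
          Real.log_nonpos (pf_nonneg _ _) (pf_le_one (G.kap_nonneg j) _)
        rw [max_eq_right (by linarith)]
    rw [e1]; simp
  have lb : - Real.log (P.b j) ≤ 5 * (P.J * Real.log (1 / P.ε)) := by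
    have := G.log_b_ge j
    have := G.log_h
    linarith
  have t2 : ∫ x in (0:ℝ)..1, max (Real.log (P.wt n (P.nx j) x) - Real.log (P.b j)) 0
      ≤ 5 * (P.J * Real.log (1 / P.ε)) + 1 := by
    have e2 : ∫ x in (0:ℝ)..1, max (Real.log (P.wt n (P.nx j) x) - Real.log (P.b j)) 0
      ≤ ∫ x in (0:ℝ)..1, (5 * (P.J * Real.log (1 / P.ε)) + P.wt n (P.nx j) x) := by
      apply intervalIntegral.integral_mono_on (by norm_num) (G.ii5 _ _ _ _ _)
        (intervalIntegrable_const.add (G.ii1 _ _ _ _))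
      intro x _
      have w0 := G.wt_nonneg n (P.nx j) x
      have := Real.log_le_self w0
      apply max_le <;> linarith
    refine e2.trans ?_
    rw [intervalIntegral.integral_add intervalIntegrable_const (G.ii1 _ _ _ _), G.ag1]
    simp
  have t3 : ∫ x in (0:ℝ)..1, max (Real.log (P.A j * P.wt n 1 x) - Real.log (P.b j)) 0
      ≤ 5 * (P.J * Real.log (1 / P.ε)) + Real.log (1 / P.ε) + 1 := by
    have e2 : ∫ x in (0:ℝ)..1, max (Real.log (P.A j * P.wt n 1 x) - Real.log (P.b j)) 0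
      ≤ ∫ x in (0:ℝ)..1, (5 * (P.J * Real.log (1 / P.ε)) + Real.log (1 / P.ε) + P.wt n 1 x) := by
      apply intervalIntegral.integral_mono_on (by norm_num)
        (ii_max0 ((G.iiA n j _ _).sub intervalIntegrable_const))
        (intervalIntegrable_const.add (G.ii1 _ _ _ _))
      intro x _
      have w0 := G.wt_nonneg n 1 x
      have h1 := Real.log_le_self w0
      have h2 := G.log_A_le j
      have h3 : Real.log (P.A j * P.wt n 1 x) ≤ Real.log (1 / P.ε) + P.wt n 1 x := by
        by_cases h : P.wt n 1 x = 0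
        · rw [h]; simp at hLL ⊢; linarith
        · rw [Real.log_mul (by linarith [G.A_one j]) h]; linarith
      apply max_le <;> linarith
    refine e2.trans ?_
    rw [intervalIntegral.integral_add intervalIntegrable_const (G.ii1 _ _ _ _), G.ag1]
    simp
  have m1 := mul_le_mul_of_nonneg_left t2 e0.le
  have m2 := mul_le_mul_of_nonneg_left t3 e0.le
  have := G.sm
  have := G.e1
  have := G.eL
  rw [t1]
  linarith

end Good

end Par

end Pool.Agent.H414R5
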