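import Pool.Agent.H414R5.W5

set_option autoImplicit false
set_option linter.unusedSectionVars false
open MeasureTheory Set

namespace Pool.Agent.H414R5

lemma int_congr_Ioo {f g : ℝ → ℝ} {a b : ℝ} (hab : a ≤ b) (h : ∀ x ∈ Ioo a b, f x = g x) :
    ∫ x in a..b, f x = ∫ x in a..b, g x := by
  rw [intervalIntegral.integral_of_le hab, intervalIntegral.integral_of_le hab,
    integral_Ioc_eq_integral_Ioo, integral_Ioc_eq_integral_Ioo]
  exact setIntegral_congr_fun measurableSet_Ioo h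

lemma PP_congr {K : ℝ} {f g : ℝ → ℝ} {a b : ℝ} (hab : a ≤ b) (h : ∀ x ∈ Ioo a b, f x = g x)
    (hf : PP K f a b) : PP K g a b := by
  unfold PP at *
  rw [int_congr_Ioo hab h, int_congr_Ioo (f := fun x => (f x)⁻¹) (g := fun x => (g x)⁻¹) hab
    (fun x hx => by rw [h x hx]),
    int_congr_Ioo (f := fun x => Real.log (f x)) (g := fun x => Real.log (g x)) hab
    (fun x hx => by rw [h x hx])] at hf
  exact hf

lemma cube_exp {x : ℝ} (hx : 0 ≤ x) : x ^ 3 * Real.exp (-x) ≤ 6 := by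
  have h : x ^ 3 / 6 ≤ Real.exp x := by
    have := Real.pow_div_factorial_le_exp x hx 3
    simpa [Nat.factorial] using this
  rw [Real.exp_neg, ← div_eq_mul_inv, div_le_iff₀ (Real.exp_pos _)]
  linarith

namespace Par

variable (P : Par)

/-- the constant -/
noncomputable def cK : ℝ :=
  10 ^ 7 * Real.exp 64 * P.h ^ 3 * (1 + 1 / (P.ε * Real.log (1 / P.ε) ^ 3))

variable {P}

namespace Good

variable (G : P.Good)
include G

lemma cK_ge1 : 10 ^ 7 * Real.exp 64 * P.h ^ 3 ≤ P.cK := by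
  unfold cK
  have h1 : 0 ≤ 1 / (P.ε * Real.log (1 / P.ε) ^ 3) := by
    have := G.e0; have := G.L_ge; positivity
  have h2 : 0 ≤ 10 ^ 7 * Real.exp 64 * P.h ^ 3 := by have := G.h_pos; positivity
  nlinarith

lemma cK_ge2 : 10 ^ 7 * Real.exp 64 * P.h ^ 3 * (1 / (P.ε * Real.log (1 / P.ε) ^ 3)) ≤ P.cK := by
  unfold cK
  have h2 : 0 ≤ 10 ^ 7 * Real.exp 64 * P.h ^ 3 := by have := G.h_pos; positivity
  nlinarith

lemma cK_ge3 {x : ℝ} (hx : x ≤ 10 ^ 7) : x * P.h ^ 3 ≤ P.cK := by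
  refine le_trans ?_ G.cK_ge1
  have h1 : (1:ℝ) ≤ Real.exp 64 := Real.one_le_exp (by norm_num)
  have h2 : 0 ≤ P.h ^ 3 := by have := G.h_pos; positivity
  have h3 : x ≤ 10 ^ 7 * Real.exp 64 := by nlinarith
  exact mul_le_mul_of_nonneg_right h3 h2

lemma h23 : P.h ^ 2 ≤ P.h ^ 3 := by
  have := G.one_le_h
  exact pow_le_pow_right₀ this (by norm_num)

lemma out {j : ℕ} (n : ℕ) {x : ℝ} (h1 : x ∉ P.Cs) (h2 : x ∉ P.Cc) (h3 : x ≤ 5/8 ∨ 3/4 ≤ x) :
    P.wt (n+1) j x = P.b j := by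
  simp only [wt, if_neg h1, if_neg h2]
  rw [G.qq_one h3, mul_one]

lemma b_ge (j : ℕ) : P.ε ^ P.J / P.h ≤ P.b j := by
  unfold b
  apply div_le_div_of_nonneg_right _ G.h_pos.le
  exact pow_le_pow_of_le_one G.e0.le G.e_lt1.le (Nat.sub_le _ _)

lemma b_le1 (j : ℕ) : P.b j ≤ 1 := (G.b_le' j).trans (by norm_num)

/-- `1/b^2 ≤ h^3` and a bit more -/
lemma inv_b_sq : P.ε ^ (-2 : ℤ) * (P.h / P.ε ^ P.J) ^ 2 ≤ P.h ^ 3 := by
  have e0 := G.e0
  have h1 := G.eh (2 * P.J + 2) (by have := G.J2; omega)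
  have h2 : 1 ≤ (P.ε ^ (4 * P.J - (2 * P.J + 2)))⁻¹ := by
    rw [one_le_inv₀ (pow_pos e0 _)]; exact G.pow_le_one' _
  rw [← h1] at h2
  have hp := G.h_pos
  have h3 : P.ε ^ (-2 : ℤ) * (P.h / P.ε ^ P.J) ^ 2 = P.h ^ 2 / P.ε ^ (2 * P.J + 2) := by
    rw [div_pow, ← pow_mul, zpow_neg, pow_add, mul_comm P.J 2]
    field_simp
  rw [h3, div_le_iff₀ (by positivity)]
  calc P.h ^ 2 = P.h ^ 2 * 1 := by ring
    _ ≤ P.h ^ 2 * (P.h * P.ε ^ (2 * P.J + 2)) := by gcongr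
    _ = _ := by ring

lemma inv_b (j : ℕ) : (P.b j)⁻¹ ≤ P.h / P.ε ^ P.J := by
  have := G.b_ge j
  have h2 : 0 < P.ε ^ P.J / P.h := div_pos (pow_pos G.e0 _) G.h_pos
  calc (P.b j)⁻¹ ≤ (P.ε ^ P.J / P.h)⁻¹ := inv_anti₀ h2 this
    _ = _ := by rw [inv_div]

lemma ep2 : 1 ≤ P.ε ^ (-2 : ℤ) := by
  have e0 := G.e0
  rw [zpow_neg, one_le_inv₀ (by positivity)]
  have := G.pow_le_one' 2
  exact_mod_cast this

lemma inv_b2 (j : ℕ) : (P.b j)⁻¹ ^ 2 ≤ P.h ^ 3 := by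
  have h1 : (P.b j)⁻¹ ^ 2 ≤ (P.h / P.ε ^ P.J) ^ 2 :=
    pow_le_pow_left₀ (inv_nonneg.2 (G.b_pos j).le) (G.inv_b j) 2
  have h2 : (P.h / P.ε ^ P.J) ^ 2 ≤ P.ε ^ (-2 : ℤ) * (P.h / P.ε ^ P.J) ^ 2 := by
    have := G.ep2
    have h3 : 0 ≤ (P.h / P.ε ^ P.J) ^ 2 := by positivity
    nlinarith
  exact (h1.trans h2).trans G.inv_b_sq

/-- large intervals -/
lemma PP_large (n j : ℕ) (hj1 : 1 ≤ j) (hj : j ≤ P.J) {a b : ℝ} (hab : a < b) (hl : 1/64 ≤ b - a) :
    PP P.cK (P.wt (n+1) j) a b := by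
  have e0 := G.e0
  have hL : 0 < b - a := sub_pos.2 hab
  have hb := G.b_pos j
  have hh := G.h_pos
  have hout : ∀ x, x ∉ Ico (0:ℝ) 1 → P.wt (n+1) j x = P.b j := by
    intro x hx
    apply G.out n
    · intro h; apply hx; have := G.Cs_sub h; exact ⟨by linarith [this.1], by linarith [this.2]⟩
    · intro h; apply hx; have := G.Cc_sub h; exact ⟨by linarith [this.1], by linarith [this.2]⟩
    · by_contra h
      push Not at h
      exact hx ⟨by linarith [h.1], by linarith [h.2]⟩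
  obtain ⟨t, ht⟩ : ∃ t, t = 1 / (b - a) := ⟨_, rfl⟩
  have ht0 : 0 < t := by rw [ht]; positivity
  have ht1 : (b - a) * t = 1 := by rw [ht]; field_simp
  have ht2 : t ≤ 64 := by
    rw [ht, div_le_iff₀ hL]; linarith
  have c1 := loc_le (G.ii1 (n+1) j) (G.wt_nonneg _ _) (zero_le_one' ℝ) hab.le
    (fun x _ hx => (hout x hx).le) hb.le (G.ag1 (n+1) j).le
  have c2 := loc_le (G.ii2 (n+1) j) (fun x => inv_nonneg.2 (G.wt_nonneg _ _ x)) (zero_le_one' ℝ) hab.le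
    (fun x _ hx => by rw [hout x hx]) (inv_nonneg.2 hb.le) (G.ag2 (n+1) j hj1 hj)
  have c3 := loc_le (G.ii4 (Real.log (P.b j)) (n+1) j) (fun x => le_max_right _ _) (zero_le_one' ℝ) hab.le
    (fun x _ hx => by rw [hout x hx, sub_self, max_self]) le_rfl (G.ag3 (n+1) j)
  have c4 := loc_le (G.ii5 (Real.log (P.b j)) (n+1) j) (fun x => le_max_right _ _) (zero_le_one' ℝ) hab.le
    (fun x _ hx => by rw [hout x hx, sub_self, max_self]) le_rfl (G.ag4 n j)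
  have d3 : (b - a) * Real.log (P.b j) - 1 ≤ ∫ x in a..b, Real.log (P.wt (n+1) j x) := by
    have : ∫ x in a..b, (Real.log (P.b j) - max (Real.log (P.b j) - Real.log (P.wt (n+1) j x)) 0)
        ≤ ∫ x in a..b, Real.log (P.wt (n+1) j x) := by
      apply intervalIntegral.integral_mono_on hab.le
        (intervalIntegrable_const.sub (G.ii4 _ _ _ _ _)) (G.ii3 _ _ _ _)
      intro x _
      linarith [le_max_left (Real.log (P.b j) - Real.log (P.wt (n+1) j x)) 0]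
    rw [intervalIntegral.integral_sub intervalIntegrable_const (G.ii4 _ _ _ _ _),
      intervalIntegral.integral_const, smul_eq_mul] at this
    linarith
  have d4 : (∫ x in a..b, Real.log (P.wt (n+1) j x)) ≤ (b - a) * Real.log (P.b j) + 1 := by
    have : ∫ x in a..b, Real.log (P.wt (n+1) j x)
        ≤ ∫ x in a..b, (Real.log (P.b j) + max (Real.log (P.wt (n+1) j x) - Real.log (P.b j)) 0) := by
      apply intervalIntegral.integral_mono_on hab.le (G.ii3 _ _ _ _)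
        (intervalIntegrable_const.add (G.ii5 _ _ _ _ _))
      intro x _
      linarith [le_max_left (Real.log (P.wt (n+1) j x) - Real.log (P.b j)) 0]
    rw [intervalIntegral.integral_add intervalIntegrable_const (G.ii5 _ _ _ _ _),
      intervalIntegral.integral_const, smul_eq_mul] at this
    linarith
  have hr := G.r_le hj
  have hr0 : 0 ≤ P.r j := le_trans (by positivity) (G.r_bounds hj).1
  have hi := G.inv_b2 j
  have hb1 := G.b_le1 j
  have hex : Real.exp t ≤ Real.exp 64 := Real.exp_le_exp.2 ht2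
  have hex0 := Real.exp_pos t
  have hbi : P.b j * (P.b j)⁻¹ = 1 := mul_inv_cancel₀ hb.ne'
  have hbi0 : 0 < (P.b j)⁻¹ := inv_pos.2 hb
  have h3p : 0 < P.h ^ 3 := by positivity
  have hY : t * P.r j + (P.b j)⁻¹ ≤ 3 * t * P.h ^ 3 * P.b j + (P.b j)⁻¹ := by
    have := mul_le_mul_of_nonneg_left hr ht0.le
    linarith
  refine PP_of (X := t + P.b j) (Y := t * P.r j + (P.b j)⁻¹) (g1 := Real.log (P.b j) - t)
    (g2 := Real.log (P.b j) + t) hab ?_ ?_ ?_ ?_ ?_ ?_ ?_ ?_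
  · exact intervalIntegral.integral_nonneg hab.le (fun x _ => G.wt_nonneg _ _ x)
  · linarith
  · exact intervalIntegral.integral_nonneg hab.le (fun x _ => inv_nonneg.2 (G.wt_nonneg _ _ x))
  · have : (b - a) * (t * P.r j + (P.b j)⁻¹) = P.r j * ((b - a) * t) + (b - a) * (P.b j)⁻¹ := by ring
    rw [this, ht1]; linarith
  · linarith
  · linarith
  · rw [Real.exp_sub, Real.exp_log hb, mul_div_assoc', le_div_iff₀ hex0]
    calc (t + P.b j) ^ 2 * (t * P.r j + (P.b j)⁻¹) * Real.exp t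
        ≤ (t + P.b j) ^ 2 * (3 * t * P.h ^ 3 * P.b j + (P.b j)⁻¹) * Real.exp 64 := by gcongr
      _ = (t + P.b j) ^ 2 * ((3 * t * P.h ^ 3 + (P.b j)⁻¹ ^ 2) * P.b j) * Real.exp 64 := by
          congr 2; field_simp
      _ ≤ (64 + 1) ^ 2 * ((3 * 64 * P.h ^ 3 + P.h ^ 3) * P.b j) * Real.exp 64 := by gcongr
      _ = (815425 * Real.exp 64 * P.h ^ 3) * P.b j := by ring
      _ ≤ (10 ^ 7 * Real.exp 64 * P.h ^ 3) * P.b j := by
          gcongr; norm_num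
      _ ≤ P.cK * P.b j := by gcongr; exact G.cK_ge1
  · rw [Real.exp_add, Real.exp_log hb]
    have h1 : (t * P.r j + (P.b j)⁻¹) ^ 2 * P.b j ≤ 2 * (9 * 64 ^ 2 * P.h ^ 3 + P.h ^ 3) := by
      have h2 : (t * P.r j + (P.b j)⁻¹) ^ 2 ≤ 2 * ((3 * t * P.h ^ 3 * P.b j) ^ 2 + (P.b j)⁻¹ ^ 2) := by
        have h3 : (t * P.r j + (P.b j)⁻¹) ^ 2 ≤ (3 * t * P.h ^ 3 * P.b j + (P.b j)⁻¹) ^ 2 :=
          pow_le_pow_left₀ (by positivity) hY 2
        nlinarith [sq_nonneg (3 * t * P.h ^ 3 * P.b j - (P.b j)⁻¹)]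
      have hbh : P.h * P.b j ≤ 1 := by
        have := G.b_le j
        rw [le_div_iff₀ hh] at this
        linarith
      have hbh0 : 0 ≤ P.h * P.b j := by positivity
      calc (t * P.r j + (P.b j)⁻¹) ^ 2 * P.b j
          ≤ 2 * ((3 * t * P.h ^ 3 * P.b j) ^ 2 + (P.b j)⁻¹ ^ 2) * P.b j := by gcongr
        _ = 2 * (9 * t ^ 2 * (P.h * P.b j) ^ 3 * P.h ^ 3 + (P.b j)⁻¹ ^ 2 * P.b j) := by ring
        _ ≤ 2 * (9 * 64 ^ 2 * 1 ^ 3 * P.h ^ 3 + P.h ^ 3 * 1) := by gcongr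
        _ = _ := by ring
    calc (t + P.b j) * (t * P.r j + (P.b j)⁻¹) ^ 2 * (P.b j * Real.exp t)
        = (t + P.b j) * ((t * P.r j + (P.b j)⁻¹) ^ 2 * P.b j) * Real.exp t := by ring
      _ ≤ (64 + 1) * (2 * (9 * 64 ^ 2 * P.h ^ 3 + P.h ^ 3)) * Real.exp 64 := by gcongr
      _ = 4792450 * Real.exp 64 * P.h ^ 3 := by ring
      _ ≤ 10 ^ 7 * Real.exp 64 * P.h ^ 3 := by gcongr; norm_num
      _ ≤ P.cK := G.cK_ge1

/-- intervals away from the children -/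
lemma PP_bulk (j : ℕ) {a b : ℝ} (hab : a < b) (hl : b - a ≤ 1/64) :
    PP P.cK (fun x => P.b j * qq (P.kap j) x) a b := by
  apply PP_smul hab (G.b_pos j) (G.qq_ne j) (G.qi_log j a b)
  have h1 := pf_PP (G.kap_nonneg j) (G.kap_lt j) (G.kap_inv j) (a := (a - 11/16) / (1/16))
    (b := (b - 11/16) / (1/16)) (by linarith) (by linarith)
  have h2 := PP_comp (a := a) (b := b) (c := 11/16) (e := 1/16) (by norm_num) h1
  have e : (fun x : ℝ => pf (P.kap j) ((x - 11/16) / (1/16))) = qq (P.kap j) := by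
    ext x; rw [qq_eq]; congr 1; ring
  rw [e] at h2
  refine PP_mono hab h2 ?_
  refine le_trans ?_ (G.cK_ge3 (x := 64) (by norm_num))
  have := G.h23
  linarith

end Good

end Par

end Pool.Agent.H414R5
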