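import Pool.Agent.H414R5.W6

set_option autoImplicit false
set_option linter.unusedSectionVars false
open MeasureTheory Set

namespace Pool.Agent.H414R5

namespace Par

variable {P : Par}

namespace Good

variable (G : P.Good)
include G

lemma inv_b_sq' : (1 / P.ε) ^ 2 * (P.h / P.ε ^ P.J) ^ 2 ≤ P.h ^ 3 := by
  have h := G.inv_b_sq
  have : P.ε ^ (-2 : ℤ) = (1 / P.ε) ^ 2 := by rw [zpow_neg, one_div, inv_pow]; norm_cast
  rwa [this] at h

lemma edge (n j : ℕ) {y : ℝ} (hy : y < 1/4 ∨ 3/4 ≤ y) :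
    P.ε ^ P.J / P.h ≤ P.wt n j y ∧ P.wt n j y ≤ 1 := by
  cases n with
  | zero =>
    simp only [wt]
    refine ⟨?_, le_rfl⟩
    rw [div_le_one G.h_pos]
    exact (G.pow_le_one' _).trans G.one_le_h
  | succ n =>
    rw [G.out n]
    · exact ⟨G.b_ge j, G.b_le1 j⟩
    · intro h; have := G.Cs_sub h; rcases hy with h1 | h1 <;> linarith [this.1, this.2]
    · intro h; have := G.Cc_sub h; rcases hy with h1 | h1 <;> linarith [this.1, this.2]
    · rcases hy with h1 | h1
      · left; linarith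
      · right; exact h1

lemma b_eps (j : ℕ) : P.b j ≤ P.ε := by
  refine (G.b_le j).trans ?_
  rw [G.hh, one_div, inv_inv]
  calc P.ε ^ (4 * P.J) ≤ P.ε ^ 1 := pow_le_pow_of_le_one G.e0.le G.e_lt1.le (by have := G.J2; omega)
    _ = P.ε := pow_one _

lemma PP_child (n j j' : ℕ)  (hj1' : 1 ≤ j') (hj' : j' ≤ P.J)
    {f : ℝ → ℝ} {c A a b : ℝ} (hA1 : 1 ≤ A) (hA2 : P.ε * A ≤ 1)
    (hAb : P.ε * (A * P.b j') ≤ P.b j)
    (i1 : ∀ a b, IntervalIntegrable f volume a b)
    (i2 : ∀ a b, IntervalIntegrable (fun x => (f x)⁻¹) volume a b)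
    (i3 : ∀ a b, IntervalIntegrable (fun x => Real.log (f x)) volume a b)
    (hn : ∀ x, 0 ≤ f x)
    (hin : ∀ x ∈ Ico c (c + P.ε), f x = A * P.wt n j' ((x - c) / P.ε))
    (hab : a < b) (hl : b - a < 1/64)
    (hout : ∀ x ∈ Icc a b, x ∉ Ico c (c + P.ε) → f x = P.b j)
    (hm : max a c < min b (c + P.ε)) (hnot : ¬ (c ≤ a ∧ b ≤ c + P.ε)) : PP P.cK f a b := by
  have e0 := G.e0
  have hL : 0 < b - a := sub_pos.2 hab
  have hb := G.b_pos j
  have hb' := G.b_pos j'
  have hh := G.h_pos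
  have hA0 : 0 < A := by linarith
  have hKh := G.cK_ge3 (x := 1) (by norm_num)
  have h3p : 0 < P.h ^ 3 := by positivity
  by_cases hcase : n = 0 ∨ min b (c + P.ε) - max a c < P.ε / 4
  · have hval : ∀ x ∈ Icc a b, P.ε ^ P.J / P.h ≤ f x ∧ f x ≤ 1 / P.ε := by
      intro x hx
      have he1 : 1 ≤ 1 / P.ε := by rw [le_div_iff₀ e0]; linarith [G.e_lt1]
      by_cases hxC : x ∈ Ico c (c + P.ε)
      · rw [hin x hxC]
        have key : P.ε ^ P.J / P.h ≤ P.wt n j' ((x - c) / P.ε) ∧ P.wt n j' ((x - c) / P.ε) ≤ 1 := by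
          rcases hcase with h | h
          · subst h
            simp only [wt]
            refine ⟨?_, le_rfl⟩
            rw [div_le_one G.h_pos]
            exact (G.pow_le_one' _).trans G.one_le_h
          · apply G.edge
            by_cases hac : a < c
            · left
              rw [max_eq_right hac.le] at h
              rw [div_lt_iff₀ e0]
              rcases min_choice b (c + P.ε) with h1 | h1
              · rw [h1] at h; linarith [hx.2]
              · rw [h1] at h; linarith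
            · right
              have hca : c ≤ a := not_lt.1 hac
              have hbd : c + P.ε < b := by
                by_contra hb2; exact hnot ⟨hca, not_lt.1 hb2⟩
              rw [max_eq_left hca, min_eq_right hbd.le] at h
              rw [le_div_iff₀ e0]
              linarith [hx.1]
        have hA3 : A ≤ 1 / P.ε := by rw [le_div_iff₀ e0]; linarith
        have hw0 := G.wt_nonneg n j' ((x - c) / P.ε)
        constructor
        · nlinarith [key.1]
        · nlinarith [key.2]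
      · rw [hout x hx hxC]
        exact ⟨G.b_ge j, (G.b_le1 j).trans he1⟩
    have hu : 0 < P.ε ^ P.J / P.h := div_pos (pow_pos e0 _) hh
    apply PP_bd hab hu (i1 a b) (i2 a b) (i3 a b) hval
    have h1 := G.inv_b_sq'
    have h2 : (P.h / P.ε ^ P.J) ^ 2 * (P.ε ^ P.J / P.h) ^ 2 = 1 := by
      have := (pow_pos e0 P.J).ne'
      field_simp
    calc (1 / P.ε) ^ 2 = ((1 / P.ε) ^ 2 * (P.h / P.ε ^ P.J) ^ 2) * (P.ε ^ P.J / P.h) ^ 2 := by
          rw [mul_assoc, h2, mul_one]
      _ ≤ P.h ^ 3 * (P.ε ^ P.J / P.h) ^ 2 := by gcongr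
      _ ≤ P.cK * (P.ε ^ P.J / P.h) ^ 2 := by
          have : P.h ^ 3 ≤ P.cK := by linarith
          gcongr
  push Not at hcase
  obtain ⟨hn0, hmε⟩ := hcase
  obtain ⟨n', rfl⟩ := Nat.exists_eq_succ_of_ne_zero hn0
  have tr : ∀ F : ℝ → ℝ, ∫ x in c..(c + P.ε), F (f x)
      = P.ε * ∫ y in (0:ℝ)..1, F (A * P.wt (n' + 1) j' y) := by
    intro F
    have h1 := int_congr_Ioo (f := fun x => F (f x))
      (g := fun x => (fun y => F (A * P.wt (n' + 1) j' y)) ((x - c) / P.ε))
      (by linarith : c ≤ c + P.ε) (fun x hx => by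
        simp only; rw [hin x ⟨hx.1.le, hx.2⟩])
    have h2 := int_comp (fun y => F (A * P.wt (n' + 1) j' y)) c (c + P.ε) c e0
    have a1 : (c - c) / P.ε = 0 := by simp
    have a2 : (c + P.ε - c) / P.ε = 1 := by rw [add_sub_cancel_left]; exact div_self e0.ne'
    rw [a1, a2] at h2
    rw [h1]; exact h2
  have hcd : c ≤ c + P.ε := by linarith
  have S1 : ∫ x in c..(c + P.ε), f x ≤ P.ε * A := by
    have := tr (fun x => x)
    rw [this, intervalIntegral.integral_const_mul, G.ag1, mul_one]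
  have S2 : ∫ x in c..(c + P.ε), (f x)⁻¹ ≤ P.ε * (A⁻¹ * P.r j') := by
    have := tr (fun x => x⁻¹)
    simp only [mul_inv] at this
    rw [this, intervalIntegral.integral_const_mul]
    have := G.ag2 (n' + 1) j' hj1' hj'
    gcongr
  have S3 : ∫ x in c..(c + P.ε), max (Real.log (A * P.b j') - Real.log (f x)) 0 ≤ P.ε := by
    have h1 := tr (fun x => max (Real.log (A * P.b j') - Real.log x) 0)
    rw [h1]
    have h2 : ∫ y in (0:ℝ)..1, max (Real.log (A * P.b j') - Real.log (A * P.wt (n' + 1) j' y)) 0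
        = ∫ y in (0:ℝ)..1, max (Real.log (P.b j') - Real.log (P.wt (n' + 1) j' y)) 0 := by
      apply intervalIntegral.integral_congr_ae
      filter_upwards [G.wt_ne (n' + 1) j'] with x hx _
      rw [Real.log_mul hA0.ne' hx, Real.log_mul hA0.ne' hb'.ne']
      congr 1; ring
    rw [h2]
    have := mul_le_mul_of_nonneg_left (G.ag3 (n' + 1) j') e0.le
    linarith
  set B := max (A * P.b j') (P.b j) with hB
  have hB0 : 0 < B := lt_max_of_lt_right hb
  have S4 : ∫ x in c..(c + P.ε), max (Real.log (f x) - Real.log B) 0 ≤ P.ε := by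
    have h1 := tr (fun x => max (Real.log x - Real.log B) 0)
    rw [h1]
    have h2 : ∫ y in (0:ℝ)..1, max (Real.log (A * P.wt (n' + 1) j' y) - Real.log B) 0
        ≤ ∫ y in (0:ℝ)..1, max (Real.log (P.wt (n' + 1) j' y) - Real.log (P.b j')) 0 := by
      have e1 : ∫ y in (0:ℝ)..1, max (Real.log (A * P.wt (n' + 1) j' y) - Real.log B) 0
          = ∫ y in (0:ℝ)..1, max (Real.log A + Real.log (P.wt (n' + 1) j' y) - Real.log B) 0 := by
        apply intervalIntegral.integral_congr_ae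
        filter_upwards [G.wt_ne (n' + 1) j'] with x hx _
        rw [Real.log_mul hA0.ne' hx]
      rw [e1]
      apply intervalIntegral.integral_mono_on (by norm_num) _ (G.ii5 _ _ _ _ _)
      · intro x _
        apply max_le_max _ le_rfl
        have h3 : Real.log (A * P.b j') ≤ Real.log B :=
          Real.log_le_log (by positivity) (le_max_left _ _)
        rw [Real.log_mul hA0.ne' hb'.ne'] at h3
        linarith
      · exact ii_max0 ((intervalIntegrable_const.add (G.ii3 _ _ _ _)).sub intervalIntegrable_const)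
    have := mul_le_mul_of_nonneg_left (h2.trans (G.ag4 n' j')) e0.le
    linarith
  -- the four local bounds
  have c1 := loc_le i1 hn hcd hab.le (fun x hx hxc => (hout x hx hxc).le) hb.le S1
  have c2 := loc_le i2 (fun x => inv_nonneg.2 (hn x)) hcd hab.le
    (fun x hx hxc => by rw [hout x hx hxc]) (inv_nonneg.2 hb.le) S2
  have c3 := loc_ge i3 hab.le hm.le (fun x hx hxc => by rw [hout x hx hxc]) S3
  have c4 := loc_le (fun a b => ii_max0 ((i3 a b).sub intervalIntegrable_const))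
    (fun x => le_max_right _ _) hcd hab.le
    (fun x hx hxc => by
      rw [hout x hx hxc]
      apply max_le _ le_rfl
      have h3 : Real.log (P.b j) ≤ Real.log B := Real.log_le_log hb (le_max_right _ _)
      linarith) le_rfl S4
  have d4 : (∫ x in a..b, Real.log (f x)) ≤ (b - a) * Real.log B + P.ε := by
    have : ∫ x in a..b, Real.log (f x)
        ≤ ∫ x in a..b, (Real.log B + max (Real.log (f x) - Real.log B) 0) := by
      apply intervalIntegral.integral_mono_on hab.le (i3 _ _)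
        (intervalIntegrable_const.add (ii_max0 ((i3 a b).sub intervalIntegrable_const)))
      intro x _
      linarith [le_max_left (Real.log (f x) - Real.log B) 0]
    rw [intervalIntegral.integral_add intervalIntegrable_const
      (ii_max0 ((i3 a b).sub intervalIntegrable_const)),
      intervalIntegral.integral_const, smul_eq_mul] at this
    linarith
  obtain ⟨m, hmd⟩ : ∃ m, m = min b (c + P.ε) - max a c := ⟨_, rfl⟩
  rw [← hmd] at hmε c3
  have hml : m ≤ b - a := by
    rw [hmd]; linarith [min_le_left b (c + P.ε), le_max_left a c]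
  obtain ⟨t, ht⟩ : ∃ t, t = P.ε / (b - a) := ⟨_, rfl⟩
  have ht0 : 0 < t := by rw [ht]; positivity
  have ht1 : (b - a) * t = P.ε := by rw [ht]; field_simp
  have ht4 : t ≤ 4 := by rw [ht, div_le_iff₀ hL]; linarith
  have hte : P.ε ≤ t := by rw [ht, le_div_iff₀ hL]; nlinarith
  obtain ⟨τ, hτ⟩ : ∃ τ, τ = m / (b - a) := ⟨_, rfl⟩
  have hτ1 : (b - a) * τ = m := by rw [hτ]; field_simp
  have hτ2 : τ ≤ 1 := by rw [hτ, div_le_one hL]; exact hml
  have hτ3 : t / 4 ≤ τ := by
    rw [hτ, ht, div_div, div_le_div_iff₀ (by positivity) hL]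
    nlinarith
  obtain ⟨Ai, hAi⟩ : ∃ Ai, Ai = A⁻¹ := ⟨_, rfl⟩
  have hAi0 : 0 < Ai := by rw [hAi]; positivity
  have hAi1 : A * Ai = 1 := by rw [hAi]; exact mul_inv_cancel₀ hA0.ne'
  have hAi2 : Ai ≤ 1 := by nlinarith
  have hAi3 : P.ε ≤ Ai := by
    have : P.ε * (A * Ai) ≤ 1 * Ai := by rw [← mul_assoc]; gcongr
    rw [hAi1] at this; linarith
  rw [← hAi] at c2
  have hr := G.r_le hj'
  have hr0 : 0 ≤ P.r j' := le_trans (by positivity) (G.r_bounds hj').1
  have hX : t * A + P.b j ≤ 2 * (t * A) := by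
    have := G.b_eps j
    nlinarith
  have hbi0 : 0 < (P.b j)⁻¹ := inv_pos.2 hb
  have hY0 : (P.b j)⁻¹ ≤ t * P.h ^ 3 * P.b j' * Ai := by
    have q1 : (P.b j)⁻¹ * (P.b j')⁻¹ ≤ (P.h / P.ε ^ P.J) ^ 2 := by
      rw [sq]
      exact mul_le_mul (G.inv_b j) (G.inv_b j') (inv_nonneg.2 hb'.le) (by positivity)
    have q2 : (P.h / P.ε ^ P.J) ^ 2 ≤ P.ε ^ 2 * P.h ^ 3 := by
      have := mul_le_mul_of_nonneg_left G.inv_b_sq' (by positivity : 0 ≤ P.ε ^ 2)
      have e : P.ε ^ 2 * ((1 / P.ε) ^ 2 * (P.h / P.ε ^ P.J) ^ 2) = (P.h / P.ε ^ P.J) ^ 2 := by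
        field_simp
      rw [e] at this
      exact this
    have q3 : (P.b j)⁻¹ = ((P.b j)⁻¹ * (P.b j')⁻¹) * P.b j' := by
      rw [mul_assoc, inv_mul_cancel₀ hb'.ne', mul_one]
    calc (P.b j)⁻¹ = ((P.b j)⁻¹ * (P.b j')⁻¹) * P.b j' := q3
      _ ≤ (P.ε ^ 2 * P.h ^ 3) * P.b j' := mul_le_mul_of_nonneg_right (q1.trans q2) hb'.le
      _ = P.ε * P.h ^ 3 * P.b j' * P.ε := by ring
      _ ≤ t * P.h ^ 3 * P.b j' * Ai := by gcongr
  have hY : t * (Ai * P.r j') + (P.b j)⁻¹ ≤ 4 * (t * P.h ^ 3 * P.b j' * Ai) := by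
    have : t * (Ai * P.r j') ≤ t * (Ai * (3 * (P.h ^ 3 * P.b j'))) := by gcongr
    linarith
  have hLe := G.L_ge
  set L := Real.log (1 / P.ε) with hLdef
  have hbc : 0 < A * P.b j' := by positivity
  have hD : Real.log (A * P.b j') - Real.log (P.b j) ≤ L := by
    have h1 : A * P.b j' ≤ P.b j * (1 / P.ε) := by
      rw [mul_one_div, le_div_iff₀ e0]; linarith
    have h2 := Real.log_le_log hbc h1
    rw [Real.log_mul hb.ne' (by positivity)] at h2
    linarith
  refine PP_of (X := t * A + P.b j) (Y := t * (Ai * P.r j') + (P.b j)⁻¹)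
    (g1 := Real.log (P.b j) + τ * (Real.log (A * P.b j') - Real.log (P.b j)) - t)
    (g2 := Real.log B + t) hab ?_ ?_ ?_ ?_ ?_ ?_ ?_ ?_
  · exact intervalIntegral.integral_nonneg hab.le (fun x _ => hn x)
  · have : (b - a) * (t * A + P.b j) = ((b - a) * t) * A + (b - a) * P.b j := by ring
    rw [this, ht1]; linarith
  · exact intervalIntegral.integral_nonneg hab.le (fun x _ => inv_nonneg.2 (hn x))
  · have : (b - a) * (t * (Ai * P.r j') + (P.b j)⁻¹)
        = ((b - a) * t) * (Ai * P.r j') + (b - a) * (P.b j)⁻¹ := by ring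
    rw [this, ht1]; linarith
  · have : (b - a) * (Real.log (P.b j) + τ * (Real.log (A * P.b j') - Real.log (P.b j)) - t)
        = (b - a) * Real.log (P.b j) + ((b - a) * τ) * (Real.log (A * P.b j') - Real.log (P.b j))
          - (b - a) * t := by ring
    rw [this, ht1, hτ1]; linarith
  · have : (b - a) * (Real.log B + t) = (b - a) * Real.log B + (b - a) * t := by ring
    rw [this, ht1]; exact d4
  · -- k1
    have a1 : (t * A + P.b j) ^ 2 * (t * (Ai * P.r j') + (P.b j)⁻¹)
        ≤ 16 * t ^ 3 * P.h ^ 3 * (A * P.b j') := by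
      calc (t * A + P.b j) ^ 2 * (t * (Ai * P.r j') + (P.b j)⁻¹)
          ≤ (2 * (t * A)) ^ 2 * (4 * (t * P.h ^ 3 * P.b j' * Ai)) := by gcongr
        _ = 16 * t ^ 3 * P.h ^ 3 * (A * P.b j') * (A * Ai) := by ring
        _ = _ := by rw [hAi1, mul_one]
    have a2 : A * P.b j' * Real.exp (-L + t * L / 4 - 4)
        ≤ Real.exp (Real.log (P.b j) + τ * (Real.log (A * P.b j') - Real.log (P.b j)) - t) := by
      rw [← Real.exp_log hbc, ← Real.exp_add, Real.exp_log hbc]
      apply Real.exp_le_exp.2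
      have q1 : (1 - τ) * (Real.log (A * P.b j') - Real.log (P.b j)) ≤ (1 - τ) * L :=
        mul_le_mul_of_nonneg_left hD (by linarith)
      have q2 : t / 4 * L ≤ τ * L := mul_le_mul_of_nonneg_right hτ3 (by linarith)
      linarith
    have a3 : 16 * t ^ 3 * P.h ^ 3 ≤ P.cK * Real.exp (-L + t * L / 4 - 4) := by
      have q1 := cube_exp (x := t * L / 4) (by positivity)
      have q2 : t ^ 3 * L ^ 3 ≤ 384 * Real.exp (t * L / 4) := by
        rw [Real.exp_neg, ← div_eq_mul_inv, div_le_iff₀ (Real.exp_pos _)] at q1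
        have : (t * L / 4) ^ 3 = t ^ 3 * L ^ 3 / 64 := by ring
        rw [this] at q1; linarith
      have q3 : Real.exp (-L) = P.ε := by
        rw [hLdef, one_div, Real.log_inv, neg_neg, Real.exp_log e0]
      have q4 : Real.exp (-L + t * L / 4 - 4) = P.ε * Real.exp (t * L / 4) * Real.exp (-4) := by
        have q7 : -L + t * L / 4 - 4 = -L + t * L / 4 + (-4) := by ring
        rw [q7, Real.exp_add, Real.exp_add, q3]
      rw [q4]
      have q5 : Real.exp 64 * Real.exp (-4) = Real.exp 60 := by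
        rw [← Real.exp_add]; norm_num
      have q6 : 1 ≤ Real.exp 60 := Real.one_le_exp (by norm_num)
      have hL3 : 0 < L ^ 3 := by positivity
      calc 16 * t ^ 3 * P.h ^ 3 = 16 * P.h ^ 3 * (t ^ 3 * L ^ 3) / L ^ 3 := by field_simp
        _ ≤ 16 * P.h ^ 3 * (384 * Real.exp (t * L / 4)) / L ^ 3 := by gcongr
        _ = 6144 * 1 * P.h ^ 3 * Real.exp (t * L / 4) / L ^ 3 := by ring
        _ ≤ 10 ^ 7 * Real.exp 60 * P.h ^ 3 * Real.exp (t * L / 4) / L ^ 3 := by
            gcongr <;> norm_num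
        _ = 10 ^ 7 * (Real.exp 64 * Real.exp (-4)) * P.h ^ 3 * Real.exp (t * L / 4) / L ^ 3 := by
            rw [q5]
        _ = (10 ^ 7 * Real.exp 64 * P.h ^ 3 * (1 / (P.ε * L ^ 3)))
              * (P.ε * Real.exp (t * L / 4) * Real.exp (-4)) := by field_simp
        _ ≤ P.cK * (P.ε * Real.exp (t * L / 4) * Real.exp (-4)) := by
            gcongr; exact G.cK_ge2
    have hK0 : 0 ≤ P.cK := h3p.le.trans (by linarith)
    calc (t * A + P.b j) ^ 2 * (t * (Ai * P.r j') + (P.b j)⁻¹)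
        ≤ (16 * t ^ 3 * P.h ^ 3) * (A * P.b j') := a1
      _ ≤ (P.cK * Real.exp (-L + t * L / 4 - 4)) * (A * P.b j') := by gcongr
      _ = P.cK * (A * P.b j' * Real.exp (-L + t * L / 4 - 4)) := by ring
      _ ≤ _ := by gcongr
  · -- k2
    rw [Real.exp_add, Real.exp_log hB0]
    have hbh' : P.h * P.b j' ≤ 1 := by
      have := G.b_le j'
      rw [le_div_iff₀ hh] at this; linarith
    have hbh : P.h * P.b j ≤ 1 := by
      have := G.b_le j
      rw [le_div_iff₀ hh] at this; linarith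
    have hBB : P.h * (Ai * B) ≤ 1 := by
      rw [hB]
      rcases max_choice (A * P.b j') (P.b j) with h | h
      · rw [h]
        calc P.h * (Ai * (A * P.b j')) = (P.h * P.b j') * (A * Ai) := by ring
          _ ≤ 1 := by rw [hAi1, mul_one]; exact hbh'
      · rw [h]
        calc P.h * (Ai * P.b j) ≤ P.h * (1 * P.b j) := by gcongr
          _ ≤ 1 := by rw [one_mul]; exact hbh
    have q6 : Real.exp t ≤ Real.exp 64 := Real.exp_le_exp.2 (by linarith)
    calc (t * A + P.b j) * (t * (Ai * P.r j') + (P.b j)⁻¹) ^ 2 * (B * Real.exp t)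
        ≤ (2 * (t * A)) * (4 * (t * P.h ^ 3 * P.b j' * Ai)) ^ 2 * (B * Real.exp 64) := by gcongr
      _ = 32 * t ^ 3 * P.h ^ 3 * (P.h * P.b j') ^ 2 * (P.h * (Ai * B)) * (A * Ai) * Real.exp 64 := by ring
      _ ≤ 32 * 4 ^ 3 * P.h ^ 3 * 1 ^ 2 * 1 * 1 * Real.exp 64 := by
          rw [hAi1]; gcongr
      _ = 2048 * Real.exp 64 * P.h ^ 3 := by ring
      _ ≤ 10 ^ 7 * Real.exp 64 * P.h ^ 3 := by gcongr; norm_num
      _ ≤ P.cK := G.cK_ge1

end Good

end Par

end Pool.Agent.H414R5
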