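import Pool.Agent.H414R5.W7

set_option autoImplicit false
set_option linter.unusedSectionVars false
open MeasureTheory Set

namespace Pool.Agent.H414R5

namespace Par

variable {P : Par}

namespace Good

variable (G : P.Good)
include G

lemma b1_le {j : ℕ} (hj1 : 1 ≤ j) : P.b 1 ≤ P.b j := by
  unfold b
  apply div_le_div_of_nonneg_right _ G.h_pos.le
  apply pow_le_pow_of_le_one G.e0.le G.e_lt1.le
  omega

lemma wt_PP (n j : ℕ) (hj1 : 1 ≤ j) (hj : j ≤ P.J) {a b : ℝ} (hab : a < b) :
    PP P.cK (P.wt n j) a b := by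
  have e0 := G.e0
  have e1 := G.e1
  induction n generalizing j a b with
  | zero =>
    apply PP_bd hab one_pos (U := 1) (G.ii1 _ _ _ _) (G.ii2 _ _ _ _) (G.ii3 _ _ _ _)
    · intro x _; simp [wt]
    · have := G.cK_ge3 (x := 1) (by norm_num)
      have h1 : 1 ≤ P.h ^ 3 := one_le_pow₀ G.one_le_h
      linarith
  | succ n ih =>
    by_cases hC1 : 1/4 ≤ a ∧ b ≤ 1/4 + P.ε
    · have h1 := ih (P.nx j) G.one_le_nx (G.nx_le j) (a := (a - 1/4) / P.ε) (b := (b - 1/4) / P.ε)
        (div_lt_div_of_pos_right (by linarith) e0)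
      refine PP_congr hab.le ?_ (PP_comp e0 h1)
      intro x hx
      have : x ∈ P.Cs := ⟨by linarith [hx.1, hC1.1], by linarith [hx.2, hC1.2]⟩
      simp only [wt, if_pos this]
    by_cases hC2 : 1/2 ≤ a ∧ b ≤ 1/2 + P.ε
    · have h1 := ih 1 le_rfl (by have := G.J2; omega) (a := (a - 1/2) / P.ε) (b := (b - 1/2) / P.ε)
        (div_lt_div_of_pos_right (by linarith) e0)
      have h2 := PP_smul (div_lt_div_of_pos_right (by linarith) e0) (by linarith [G.A_one j] : 0 < P.A j)
        (G.wt_ne n 1) (G.ii3 n 1 _ _) h1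
      refine PP_congr hab.le ?_ (PP_comp e0 h2)
      intro x hx
      have : x ∈ P.Cc := ⟨by linarith [hx.1, hC2.1], by linarith [hx.2, hC2.2]⟩
      have h3 : x ∉ P.Cs := fun h => by
        have a1 := G.Cs_sub h; have a2 := G.Cc_sub this; linarith [a1.2, a2.1]
      simp only [wt, if_pos this, if_neg h3]
    by_cases hl : 1/64 ≤ b - a
    · exact G.PP_large n j hj1 hj hab hl
    push Not at hl
    by_cases hm1 : max a (1/4) < min b (1/4 + P.ε)
    · have q1 : a < 1/4 + P.ε := lt_of_le_of_lt (le_max_left _ _) (hm1.trans_le (min_le_right _ _))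
      have q2 : 1/4 < b := lt_of_le_of_lt (le_max_right _ _) (hm1.trans_le (min_le_left _ _))
      refine G.PP_child n j (P.nx j) G.one_le_nx (G.nx_le j) (A := 1) (c := 1/4) le_rfl
        (by linarith) ?_ (G.ii1 _ _) (G.ii2 _ _) (G.ii3 _ _) (G.wt_nonneg _ _) ?_ hab hl ?_ hm1 hC1
      · have := G.b_nx_le hj
        rw [le_div_iff₀ e0] at this
        linarith
      · intro x hx
        have : x ∈ P.Cs := hx
        simp only [wt, if_pos this, one_mul]
      · intro x hx hxc
        apply G.out n hxc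
        · intro h; have := G.Cc_sub h; linarith [this.1, hx.2]
        · left; linarith [hx.2]
    by_cases hm2 : max a (1/2) < min b (1/2 + P.ε)
    · have q1 : a < 1/2 + P.ε := lt_of_le_of_lt (le_max_left _ _) (hm2.trans_le (min_le_right _ _))
      have q2 : 1/2 < b := lt_of_le_of_lt (le_max_right _ _) (hm2.trans_le (min_le_left _ _))
      refine G.PP_child n j 1 le_rfl (by have := G.J2; omega) (A := P.A j) (c := 1/2) (G.A_one j)
        (G.A_le j) ?_ (G.ii1 _ _) (G.ii2 _ _) (G.ii3 _ _) (G.wt_nonneg _ _) ?_ hab hl ?_ hm2 hC2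
      · have h1 := G.b1_le hj1
        have h2 := G.A_le j
        have h3 := G.b_pos 1
        have h4 := G.A_ge j
        calc P.ε * (P.A j * P.b 1) = (P.ε * P.A j) * P.b 1 := by ring
          _ ≤ 1 * P.b 1 := by gcongr
          _ ≤ P.b j := by linarith
      · intro x hx
        have h4 : x ∈ P.Cc := hx
        have h3 : x ∉ P.Cs := fun h => by
          have a1 := G.Cs_sub h; have a2 := G.Cc_sub h4; linarith [a1.2, a2.1]
        simp only [wt, if_pos h4, if_neg h3]
      · intro x hx hxc
        apply G.out n _ hxc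
        · left; linarith [hx.2]
        · intro h; have := G.Cs_sub h; linarith [this.2, hx.1]
    · refine PP_congr hab.le ?_ (G.PP_bulk j hab hl.le)
      intro x hx
      have h1 : x ∉ P.Cs := fun h => by
        apply hm1
        exact (max_le hx.1.le h.1).trans_lt (lt_min hx.2 h.2)
      have h2 : x ∉ P.Cc := fun h => by
        apply hm2
        exact (max_le hx.1.le h.1).trans_lt (lt_min hx.2 h.2)
      simp only [wt, if_neg h1, if_neg h2]

end Good

end Par

end Pool.Agent.H414R5
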