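import Pool.Agent.H414R5.W8
import Pool.Agent.H414R5.K2

set_option autoImplicit false
set_option linter.unusedSectionVars false
open MeasureTheory Set

namespace Pool.Agent.H414R5

namespace Par

variable (P : Par)

/-- values of the recursion -/
noncomputable def vv : ℕ → ℕ → ℝ
  | 0, _ => 0
  | n + 1, j => P.ε * vv n (P.nx j) + P.ε * P.A j * vv n 1 + if j = P.J then 1 else 0

/-- subsolution -/
noncomputable def zz (j : ℕ) : ℝ :=
  P.ε ^ (P.J - j) + (1 - ((P.J - j : ℕ) + 1) * P.b j) * (P.h / P.J)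

variable {P}

namespace Good

variable (G : P.Good)
include G

lemma phi_mass (n j : ℕ) : 1/2 ≤ ∫ y in (0:ℝ)..1, phi y * P.wt (n+1) j y := by
  have e0 := G.e0
  have e1 := G.e1
  have hI : ∀ a b, IntervalIntegrable (fun x => P.A j * P.wt n 1 x) volume a b :=
    fun a b => (G.ii1 n 1 a b).const_mul _
  have i1 := int_child hI (c := 1/2) (by norm_num) e0 (by linarith) 0
  rw [intervalIntegral.integral_const_mul, G.ag1, mul_one, sub_zero] at i1
  have h2 : ∫ x in (0:ℝ)..1, (Ico (1/2 : ℝ) (1/2 + P.ε)).indicator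
      (fun x => P.A j * P.wt n 1 ((x - 1/2) / P.ε) - 0) x
      ≤ ∫ y in (0:ℝ)..1, phi y * P.wt (n+1) j y := by
    apply intervalIntegral.integral_mono_on (by norm_num)
      (ii_ind measurableSet_Ico ((ii_comp hI _ e0 0 1).sub intervalIntegrable_const))
      ((G.ii1 (n+1) j 0 1).continuousOn_mul phi_cont.continuousOn)
    intro y _
    by_cases hy : y ∈ P.Cc
    · have h3 : y ∉ P.Cs := fun h => by
        have a1 := G.Cs_sub h; have a2 := G.Cc_sub hy; linarith [a1.2, a2.1]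
      have hy' := G.Cc_sub hy
      have hy2 : y ∈ Ico (1/2 : ℝ) (1/2 + P.ε) := hy
      rw [indicator_of_mem hy2, phi_one (by linarith [hy'.1]) (by linarith [hy'.2])]
      simp only [wt, if_pos hy, if_neg h3]
      linarith
    · have hy2 : y ∉ Ico (1/2 : ℝ) (1/2 + P.ε) := hy
      rw [indicator_of_notMem hy2]
      exact mul_nonneg (phi_nonneg y) (G.wt_nonneg _ _ _)
  rw [i1] at h2
  linarith [G.A_ge j]

/-- the lower bound for the transposed operator -/
lemma tau (n j : ℕ) (x : ℝ) (hj1 : 1 ≤ j) (hj : j ≤ P.J) :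
    P.gg n j x / 2 ≤ (∫ y in (0:ℝ)..1, kk P.ε n x y * P.wt n j y) + ((j:ℝ) - 1) / 2 := by
  have e0 := G.e0
  have e1 := G.e1
  induction n generalizing j x with
  | zero =>
    have : (1:ℝ) ≤ j := by exact_mod_cast hj1
    simp [gg, kk]; linarith
  | succ n ih =>
    have hj1' : (1:ℝ) ≤ j := by exact_mod_cast hj1
    have k := kk_int e0 e1 n x (G.ii1 (n+1) j) (G.ii1 n (P.nx j))
      (fun a b => (G.ii1 n 1 a b).const_mul (P.A j))
      (fun y hy => by
        have h : y ∈ P.Cs := hy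
        simp only [wt, if_pos h])
      (fun y hy => by
        have h : y ∈ P.Cc := hy
        have h3 : y ∉ P.Cs := fun h3 => by
          have a1 := G.Cs_sub h3; have a2 := G.Cc_sub h; linarith [a1.2, a2.1]
        simp only [wt, if_pos h, if_neg h3])
    rw [k]
    have pm := G.phi_mass n j
    have p0 := phi_nonneg x
    have n1 : ∀ z : ℝ, 0 ≤ ∫ y in (0:ℝ)..1, kk P.ε n z y * P.wt n (P.nx j) y := fun z =>
      intervalIntegral.integral_nonneg (by norm_num) (fun y _ =>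
        mul_nonneg (kk_nonneg e0 _ _ _) (G.wt_nonneg _ _ _))
    have e2 : ∀ z : ℝ, ∫ y in (0:ℝ)..1, kk P.ε n z y * (P.A j * P.wt n 1 y)
        = P.A j * ∫ y in (0:ℝ)..1, kk P.ε n z y * P.wt n 1 y := fun z => by
      rw [← intervalIntegral.integral_const_mul]; congr 1; ext y; ring
    have n2 : ∀ z : ℝ, 0 ≤ ∫ y in (0:ℝ)..1, kk P.ε n z y * (P.A j * P.wt n 1 y) := fun z =>
      intervalIntegral.integral_nonneg (by norm_num) (fun y _ =>
        mul_nonneg (kk_nonneg e0 _ _ _) (mul_nonneg (by linarith [G.A_one j]) (G.wt_nonneg _ _ _)))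
    have m1 := n1 ((x - 1/4) / P.ε)
    have m2 := n2 ((x - 1/2) / P.ε)
    by_cases h1 : x ∈ P.Cs
    · have hx := G.Cs_sub h1
      rw [phi_one hx.1 (by linarith [hx.2])]
      simp only [gg, if_pos h1]
      have i := ih (P.nx j) ((x - 1/4) / P.ε) G.one_le_nx (G.nx_le j)
      have hnx : ((P.nx j : ℕ) : ℝ) ≤ j + 1 := by
        have : P.nx j ≤ j + 1 := min_le_left _ _
        exact_mod_cast this
      linarith
    by_cases h2 : x ∈ P.Cc
    · have hx := G.Cc_sub h2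
      rw [phi_one (by linarith [hx.1]) (by linarith [hx.2])]
      simp only [gg, if_pos h2, if_neg h1]
      have i := ih 1 ((x - 1/2) / P.ε) le_rfl (by have := G.J2; omega)
      rw [e2]
      have hA := G.A_one j
      have i' := mul_le_mul_of_nonneg_left i (by linarith : 0 ≤ P.A j)
      norm_num at i'
      linarith
    by_cases h3 : x ∈ Ico (5/8 : ℝ) (3/4)
    · simp only [gg, if_neg h1, if_neg h2, if_pos h3]
      rw [phi_one (by linarith [h3.1]) (by linarith [h3.2])]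
      by_cases hJ : j = P.J
      · rw [if_pos hJ]
        have hJ' : (P.J : ℝ) = j := by rw [hJ]
        linarith
      · rw [if_neg hJ]
        linarith
    · simp only [gg, if_neg h1, if_neg h2, if_neg h3]
      have : 0 ≤ phi x * ∫ y in (0:ℝ)..1, phi y * P.wt (n+1) j y := mul_nonneg p0 (by linarith)
      linarith

lemma GG_split (n j : ℕ) (x : ℝ) : P.gg (n+1) j x ^ 2 * (P.wt (n+1) j x)⁻¹ =
    (Ico (1/4 : ℝ) (1/4 + P.ε)).indicator (fun x => (fun z => P.gg n (P.nx j) z ^ 2 * (P.wt n (P.nx j) z)⁻¹)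
      ((x - 1/4) / P.ε) - 0) x
    + (Ico (1/2 : ℝ) (1/2 + P.ε)).indicator (fun x => (fun z => P.A j * (P.gg n 1 z ^ 2 * (P.wt n 1 z)⁻¹))
      ((x - 1/2) / P.ε) - 0) x
    + (Ico (5/8 : ℝ) (3/4)).indicator (fun x => (if j = P.J then (P.J:ℝ) ^ 2 else 0)
        * ((P.b j)⁻¹ * (qq (P.kap j) x)⁻¹)) x := by
  by_cases h1 : x ∈ P.Cs
  · have hx := G.Cs_sub h1
    have h1' : x ∈ Ico (1/4 : ℝ) (1/4 + P.ε) := h1
    have h2 : x ∉ Ico (1/2 : ℝ) (1/2 + P.ε) := fun h => by linarith [h.1, hx.2]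
    have h3 : x ∉ Ico (5/8 : ℝ) (3/4) := fun h => by linarith [h.1, hx.2]
    rw [indicator_of_mem h1', indicator_of_notMem h2, indicator_of_notMem h3]
    simp only [gg, wt, if_pos h1]; ring
  by_cases h2 : x ∈ P.Cc
  · have hx := G.Cc_sub h2
    have h1' : x ∉ Ico (1/4 : ℝ) (1/4 + P.ε) := h1
    have h2' : x ∈ Ico (1/2 : ℝ) (1/2 + P.ε) := h2
    have h3 : x ∉ Ico (5/8 : ℝ) (3/4) := fun h => by linarith [h.1, hx.2]
    rw [indicator_of_notMem h1', indicator_of_mem h2', indicator_of_notMem h3]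
    simp only [gg, wt, if_neg h1, if_pos h2]
    have hA : P.A j ≠ 0 := by linarith [G.A_one j]
    rw [mul_inv]; field_simp; ring
  have h1' : x ∉ Ico (1/4 : ℝ) (1/4 + P.ε) := h1
  have h2' : x ∉ Ico (1/2 : ℝ) (1/2 + P.ε) := h2
  rw [indicator_of_notMem h1', indicator_of_notMem h2']
  by_cases h3 : x ∈ Ico (5/8 : ℝ) (3/4)
  · rw [indicator_of_mem h3]
    simp only [gg, wt, if_neg h1, if_neg h2, if_pos h3]
    rw [mul_inv]
    by_cases hJ : j = P.J
    · rw [if_pos hJ, if_pos hJ]; ring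
    · rw [if_neg hJ, if_neg hJ]; ring
  · rw [indicator_of_notMem h3]
    simp only [gg, wt, if_neg h1, if_neg h2, if_neg h3]
    ring

lemma GG_ii (n j : ℕ) (a b : ℝ) :
    IntervalIntegrable (fun x => P.gg n j x ^ 2 * (P.wt n j x)⁻¹) volume a b := by
  induction n generalizing j a b with
  | zero => simp only [gg]; simp
  | succ n ih =>
    rw [show (fun x => P.gg (n+1) j x ^ 2 * (P.wt (n+1) j x)⁻¹) = _ from funext (G.GG_split n j)]
    refine ((ii_ind measurableSet_Ico ((ii_comp (ih (P.nx j)) _ G.e0 a b).sub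
      intervalIntegrable_const)).add (ii_ind measurableSet_Ico ?_)).add (ii_ind measurableSet_Ico ?_)
    · have hI : ∀ a b, IntervalIntegrable (fun z => P.A j * (P.gg n 1 z ^ 2 * (P.wt n 1 z)⁻¹)) volume a b :=
        fun a b => (ih 1 a b).const_mul _
      exact (ii_comp hI _ G.e0 a b).sub intervalIntegrable_const
    · exact ((G.qi_inv j a b).const_mul _).const_mul _

lemma qzone {j : ℕ} (hj : j = P.J) : ∫ x in (5/8:ℝ)..(3/4), (qq (P.kap j) x)⁻¹ = P.h / 8 := by
  have e : (fun x : ℝ => (qq (P.kap j) x)⁻¹) = fun x => (fun y => (pf (P.kap j) y)⁻¹) ((x - 11/16) / (1/16)) := by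
    ext x; rw [qq_eq]; congr 2; ring
  have e3 := int_comp (fun y => (pf (P.kap j) y)⁻¹) (5/8) (3/4) (11/16) (e := 1/16) (by norm_num)
  have a1 : ((5/8:ℝ) - 11/16) / (1/16) = -1 := by norm_num
  have a2 : ((3/4:ℝ) - 11/16) / (1/16) = 1 := by norm_num
  rw [a1, a2] at e3
  rw [e]
  refine e3.trans ?_
  have i2 : ∫ y in (-1:ℝ)..1, (pf (P.kap j) y)⁻¹ = ∫ y in (-1:ℝ)..1, |y| ^ (-(P.kap j)) := by
    apply intervalIntegral.integral_congr
    intro y hy
    rw [uIcc_of_le (by norm_num)] at hy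
    simp only
    rw [pf_eq (abs_le.2 hy), Real.rpow_neg (abs_nonneg _)]
  rw [i2, int_abs (by linarith [G.kap_lt j]) (by norm_num)]
  have : -(P.kap j) + 1 = 1 / P.h := by
    unfold kap; rw [if_neg (by omega)]; ring
  rw [this]
  have := G.h_pos
  simp only [Real.one_rpow]
  field_simp
  norm_num

lemma F_eq (n j : ℕ) : ∫ x in (0:ℝ)..1, P.gg n j x ^ 2 * (P.wt n j x)⁻¹
    = (P.J:ℝ) ^ 2 * P.h ^ 2 / 8 * P.vv n j := by
  have e0 := G.e0
  have e1 := G.e1
  induction n generalizing j with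
  | zero => simp [gg, vv]
  | succ n ih =>
    rw [show (fun x => P.gg (n+1) j x ^ 2 * (P.wt (n+1) j x)⁻¹) = _ from funext (G.GG_split n j)]
    have hI : ∀ a b, IntervalIntegrable (fun z => P.A j * (P.gg n 1 z ^ 2 * (P.wt n 1 z)⁻¹)) volume a b :=
        fun a b => (G.GG_ii n 1 a b).const_mul _
    have j1 : IntervalIntegrable ((Ico (1/4 : ℝ) (1/4 + P.ε)).indicator (fun x =>
      (fun z => P.gg n (P.nx j) z ^ 2 * (P.wt n (P.nx j) z)⁻¹) ((x - 1/4) / P.ε) - 0)) volume 0 1 :=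
      ii_ind measurableSet_Ico ((ii_comp (G.GG_ii n (P.nx j)) _ G.e0 0 1).sub intervalIntegrable_const)
    have j2 : IntervalIntegrable ((Ico (1/2 : ℝ) (1/2 + P.ε)).indicator (fun x =>
      (fun z => P.A j * (P.gg n 1 z ^ 2 * (P.wt n 1 z)⁻¹)) ((x - 1/2) / P.ε) - 0)) volume 0 1 :=
      ii_ind measurableSet_Ico ((ii_comp hI _ G.e0 0 1).sub intervalIntegrable_const)
    have j3 : IntervalIntegrable ((Ico (5/8 : ℝ) (3/4)).indicator (fun x => (if j = P.J then (P.J:ℝ) ^ 2 else 0)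
        * ((P.b j)⁻¹ * (qq (P.kap j) x)⁻¹))) volume 0 1 :=
      ii_ind measurableSet_Ico (((G.qi_inv j 0 1).const_mul _).const_mul _)
    rw [intervalIntegral.integral_add (j1.add j2) j3, intervalIntegral.integral_add j1 j2,
      int_child (G.GG_ii n (P.nx j)) (by norm_num) e0 (by linarith) 0,
      int_child hI (by norm_num) e0 (by linarith) 0, intervalIntegral.integral_const_mul, ih, ih]
    have k3 : ∫ x in (0:ℝ)..1, (Ico (5/8 : ℝ) (3/4)).indicator (fun x => (if j = P.J then (P.J:ℝ) ^ 2 else 0)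
        * ((P.b j)⁻¹ * (qq (P.kap j) x)⁻¹)) x = (P.J:ℝ) ^ 2 * P.h ^ 2 / 8 * (if j = P.J then 1 else 0) := by
      have m1 : max (0:ℝ) (5/8) = 5/8 := by norm_num
      have m2 : min (1:ℝ) (3/4) = 3/4 := by norm_num
      rw [int_ind (by norm_num) _ (by rw [m1, m2]; norm_num), m1, m2]
      by_cases hJ : j = P.J
      · rw [if_pos hJ, if_pos hJ, intervalIntegral.integral_const_mul,
          intervalIntegral.integral_const_mul, G.qzone hJ]
        have bJ : (P.b j)⁻¹ = P.h := by unfold b; rw [hJ]; simp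
        rw [bJ]; ring
      · rw [if_neg hJ, if_neg hJ]; simp
    rw [k3]
    simp only [vv]
    ring

lemma zz_one : P.zz 1 = P.h / P.J := by
  unfold zz b
  have h1 := G.J2
  have h2 : (((P.J - 1 : ℕ) : ℝ) + 1) = P.J := by
    rw [Nat.cast_sub (by omega)]; push_cast; ring
  rw [h2]
  have := G.Jpos
  have := G.h_pos
  field_simp
  ring

lemma zz_step {j : ℕ} (hj : j ≤ P.J) : P.zz j ≤ P.ε * P.zz (P.nx j)
    + P.ε * P.A j * P.zz 1 + if j = P.J then 1 else 0 := by
  have e0 := G.e0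
  rw [G.zz_one, G.A_mul]
  have Z0 : 0 < P.h / P.J := div_pos G.h_pos G.Jpos
  have hm := G.mu_le j
  have hb := G.b_pos j
  rcases hj.eq_or_lt with h | h
  · have hn : P.nx j = j := by unfold nx; omega
    rw [hn, if_pos h]
    subst h
    unfold zz
    simp only [Nat.sub_self, pow_zero, Nat.cast_zero, zero_add, one_mul]
    have hb1 := G.b_le1 P.J
    have key : P.b P.J * (P.h / P.J) * P.mu P.J ≤ P.b P.J * (P.h / P.J) * 1 := by gcongr
    have key2 : 0 ≤ P.b P.J * (P.h / P.J) * P.ε := by positivity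
    nlinarith
  · have hn : P.nx j = j + 1 := by unfold nx; omega
    rw [hn, if_neg h.ne]
    have hbj : P.ε * P.b (j+1) = P.b j := by
      unfold b
      rw [← mul_div_assoc, ← pow_succ']
      congr 2; omega
    have hpj : P.ε * P.ε ^ (P.J - (j+1)) = P.ε ^ (P.J - j) := by
      rw [← pow_succ']; congr 1; omega
    have hc : (((P.J - (j+1) : ℕ) : ℝ) + 1) = ((P.J - j : ℕ) : ℝ) := by
      have : P.J - j = (P.J - (j+1)) + 1 := by omega
      rw [this]; push_cast; ring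
    have e2 : P.ε * P.zz (j+1) = P.ε ^ (P.J - j) + (P.ε - ((P.J - j : ℕ) : ℝ) * P.b j) * (P.h / P.J) := by
      unfold zz
      rw [hc, mul_add, hpj, ← hbj]; ring
    rw [e2]
    unfold zz
    have key : P.b j * (P.h / P.J) * P.mu j ≤ P.b j * (P.h / P.J) * 1 := by gcongr
    have key2 : 0 ≤ P.b j * (P.h / P.J) * P.ε := by positivity
    nlinarith

lemma vv_ge (n j : ℕ) (hj1 : 1 ≤ j) (hj : j ≤ P.J) :
    P.zz j - P.vv n j ≤ (1 - 3/8 * (P.ε ^ P.J / P.h)) ^ n * (1 + P.h) := by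
  have e0 := G.e0
  have e1 := G.e1
  have hd : 0 < P.ε ^ P.J / P.h := div_pos (pow_pos e0 _) G.h_pos
  have hd1 : P.ε ^ P.J / P.h ≤ 1 := by
    rw [div_le_one G.h_pos]; exact (G.pow_le_one' _).trans G.one_le_h
  induction n generalizing j with
  | zero =>
    simp only [vv, pow_zero, one_mul, sub_zero]
    unfold zz
    have h1 := G.pow_le_one' (P.J - j)
    have h2 : 0 ≤ (((P.J - j : ℕ) : ℝ) + 1) * P.b j := by have := G.b_pos j; positivity
    have Z0 : 0 < P.h / P.J := div_pos G.h_pos G.Jpos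
    have Z1 : P.h / P.J ≤ P.h := by
      rw [div_le_iff₀ G.Jpos]; have := G.J2'; have := G.h_pos; nlinarith
    nlinarith
  | succ n ih =>
    have s := G.zz_step hj
    have i1 := ih (P.nx j) G.one_le_nx (G.nx_le j)
    have i2 := ih 1 le_rfl (by have := G.J2; omega)
    simp only [vv]
    set D := (1 - 3/8 * (P.ε ^ P.J / P.h)) ^ n * (1 + P.h) with hD
    have hD0 : 0 ≤ D := by
      have : 0 ≤ 1 - 3/8 * (P.ε ^ P.J / P.h) := by linarith
      have := G.h_pos
      positivity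
    have hA0 : 0 ≤ P.ε * P.A j := by linarith [G.A_ge j]
    have j1 := mul_le_mul_of_nonneg_left i1 e0.le
    have j2 := mul_le_mul_of_nonneg_left i2 hA0
    have j3 : P.ε * D + P.ε * P.A j * D ≤ (1 - 3/8 * (P.ε ^ P.J / P.h)) * D := by
      rw [G.A_mul]
      have b1 := G.b_ge j
      have b2 := G.mu_ge j
      have : 3/8 * (P.ε ^ P.J / P.h) ≤ P.b j * (P.mu j - 2 * P.ε) := by nlinarith
      nlinarith
    have j4 : (1 - 3/8 * (P.ε ^ P.J / P.h)) ^ (n+1) * (1 + P.h)
        = (1 - 3/8 * (P.ε ^ P.J / P.h)) * D := by rw [hD, pow_succ]; ring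
    rw [j4]
    linarith

lemma exists_n : ∃ n, (P.J:ℝ) * P.h ^ 3 / 16 ≤ ∫ x in (0:ℝ)..1, P.gg n 1 x ^ 2 * (P.wt n 1 x)⁻¹ := by
  have e0 := G.e0
  have hd : 0 < P.ε ^ P.J / P.h := div_pos (pow_pos e0 _) G.h_pos
  have hd1 : P.ε ^ P.J / P.h ≤ 1 := by
    rw [div_le_one G.h_pos]; exact (G.pow_le_one' _).trans G.one_le_h
  have hh := G.h_pos
  have hJ := G.Jpos
  obtain ⟨n, hn⟩ := exists_pow_lt_of_lt_one
    (show 0 < P.h / (2 * P.J) / (1 + P.h) by positivity)
    (show 1 - 3/8 * (P.ε ^ P.J / P.h) < 1 by linarith)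
  refine ⟨n, ?_⟩
  rw [G.F_eq]
  have h1 := G.vv_ge n 1 le_rfl (by have := G.J2; omega)
  rw [lt_div_iff₀ (by positivity)] at hn
  rw [G.zz_one] at h1
  have h2 : P.h / (2 * P.J) ≤ P.vv n 1 := by
    have : P.h / P.J = P.h / (2 * P.J) + P.h / (2 * P.J) := by field_simp; ring
    linarith
  calc (P.J:ℝ) * P.h ^ 3 / 16 = (P.J:ℝ) ^ 2 * P.h ^ 2 / 8 * (P.h / (2 * P.J)) := by
        field_simp; ring
    _ ≤ _ := by gcongr

end Good

end Par

end Pool.Agent.H414R5
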